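import Pool.Agent.Lib_helper41.NL.Defs

/-!
# Block GAML: lower bound of the Gamma factor
-/

namespace Pool.Agent.NL

open NumberField NumberField.InfinitePlace NumberField.Units Complex MeasureTheory Filter Topology
open Pool.Agent.HZ Pool.Agent.AS Pool.Agent.KS
open scoped ENNReal

variable {K : Type} [Field K] [NumberField K]

open scoped Classical in
theorem GAML_inv (κ : InfinitePlace K → ℤ) (lam : InfinitePlace K → ℝ) (s : ℂ) :
    (gam κ lam s)⁻¹ = ∏ w : InfinitePlace K, if w.IsReal then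
        (Gammaℝ (s + |κ w| + lam w * I))⁻¹
        else (Gammaℂ (s + |κ w| / 2 + lam w / 2 * I))⁻¹ := by
  unfold gam
  rw [← Finset.prod_inv_distrib]
  refine Finset.prod_congr rfl fun w _ => ?_
  by_cases hw : w.IsReal
  · simp only [hw, if_true]
  · simp only [hw, if_false]

theorem GAML_inv_cont (κ : InfinitePlace K → ℤ) :
    Continuous (fun p : (InfinitePlace K → ℝ) × ℂ => (gam κ p.1 p.2)⁻¹) := by
  classical
  simp only [GAML_inv]
  refine continuous_finsetProd _ fun w _ => ?_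
  by_cases hw : w.IsReal
  · simp only [hw, if_true]
    exact Complex.differentiable_Gammaℝ_inv.continuous.comp (by fun_prop)
  · simp only [hw, if_false]
    exact Complex.differentiable_Gammaℂ_inv.continuous.comp (by fun_prop)

theorem gam_low_pr (κ : InfinitePlace K → ℤ) (B R : ℝ) : ∃ m : ℝ, 0 < m ∧
    ∀ lam : InfinitePlace K → ℝ, (∀ w, |lam w| ≤ B) → ∀ s : ℂ, 1 / 2 ≤ s.re → s.re ≤ 5 →
      |s.im| ≤ R → m ≤ ‖gam κ lam s‖ := by
  have hSc : IsCompact ((Set.univ.pi fun _ => Set.Icc (-B) B) ×ˢ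
      (Set.Icc (1 / 2 : ℝ) 5 ×ℂ Set.Icc (-R) R) : Set ((InfinitePlace K → ℝ) × ℂ)) :=
    (isCompact_univ_pi fun _ => isCompact_Icc).prod (isCompact_Icc.reProdIm isCompact_Icc)
  obtain ⟨M, hM⟩ := hSc.exists_bound_of_continuousOn (GAML_inv_cont κ).continuousOn
  refine ⟨(max M 1)⁻¹, by positivity, fun lam hlam s h1 h5 hR => ?_⟩
  have h2 := hM (lam, s) ⟨fun w _ => abs_le.1 (hlam w), ⟨⟨h1, h5⟩, abs_le.1 hR⟩⟩
  have h3 : gam κ lam s ≠ 0 := nzk_gam_ne κ lam (by linarith)
  have h4 : 0 < ‖gam κ lam s‖ := norm_pos_iff.2 h3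
  simp only [norm_inv] at h2
  exact (inv_le_comm₀ (by positivity) h4).2 (h2.trans (le_max_left _ _))

theorem gam_analytic_pr (κ : InfinitePlace K → ℤ) (lam : InfinitePlace K → ℝ) :
    DifferentiableOn ℂ (gam κ lam) {s : ℂ | 0 < s.re} := by
  classical
  have h1 : Differentiable ℂ (fun s : ℂ => (gam κ lam s)⁻¹) := by
    simp only [GAML_inv]
    refine Differentiable.fun_finsetProd fun w _ => ?_
    by_cases hw : w.IsReal
    · simp only [hw, if_true]
      exact Complex.differentiable_Gammaℝ_inv.comp (by fun_prop)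
    · simp only [hw, if_false]
      exact Complex.differentiable_Gammaℂ_inv.comp (by fun_prop)
  have h2 : DifferentiableOn ℂ (fun s : ℂ => ((gam κ lam s)⁻¹)⁻¹) {s : ℂ | 0 < s.re} :=
    h1.differentiableOn.inv fun s hs => inv_ne_zero (nzk_gam_ne κ lam hs)
  simpa only [inv_inv] using h2

theorem gam_low : type_of% @gam_low_pr := @gam_low_pr

theorem gam_analytic : type_of% @gam_analytic_pr := @gam_analytic_pr

end Pool.Agent.NL
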