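import Pool.Agent.Lib_helper41.NLF.GEO

/-!
# NL, block AVG: averaging over the centre
-/

namespace Pool.Agent.NL

open Complex MeasureTheory Filter Topology Metric

/-- swap of two interval integrals of a continuous function -/
theorem avg_swap {f : ℝ → ℝ → ℝ} (hf : Continuous (fun p : ℝ × ℝ => f p.1 p.2)) {a b c d : ℝ}
    (hab : a ≤ b) (hcd : c ≤ d) :
    ∫ x in a..b, ∫ y in c..d, f x y = ∫ y in c..d, ∫ x in a..b, f x y := by
  rw [intervalIntegral.integral_of_le hab, intervalIntegral.integral_of_le hcd]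
  simp only [intervalIntegral.integral_of_le hab, intervalIntegral.integral_of_le hcd]
  apply integral_integral_swap
  rw [Measure.prod_restrict]
  have h1 : IntegrableOn (fun p : ℝ × ℝ => f p.1 p.2) (Set.Icc a b ×ˢ Set.Icc c d) :=
    hf.continuousOn.integrableOn_compact (isCompact_Icc.prod isCompact_Icc)
  exact h1.mono_set (Set.prod_mono Set.Ioc_subset_Icc_self Set.Ioc_subset_Icc_self)

theorem avg_psi {F : ℝ → ℝ → ℝ} (hFc : Continuous (fun p : ℝ × ℝ => F p.1 p.2)) :
    Continuous (fun t₀ : ℝ => ∫ θ in (0 : ℝ)..(2 * Real.pi), F θ (t₀ + Real.sin θ)) := by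
  have h1 : Continuous (Function.uncurry fun t₀ θ : ℝ => F θ (t₀ + Real.sin θ)) :=
    hFc.comp (by fun_prop : Continuous fun p : ℝ × ℝ => (p.2, p.1 + Real.sin p.2))
  exact intervalIntegral.continuous_parametric_intervalIntegral_of_continuous' h1 0 (2 * Real.pi)

theorem avg_right {F : ℝ → ℝ → ℝ} (hFc : Continuous (fun p : ℝ × ℝ => F p.1 p.2))
    (hFn : ∀ θ t, 0 ≤ F θ t) {F0 : ℝ → ℝ} (hF0c : Continuous F0) (hF0n : ∀ t, 0 ≤ F0 t) {T k : ℝ}
    (hT : 0 ≤ T) (hk : 0 ≤ k) :
    ∫ t₀ in (-(T + 1))..(T + 1), (k *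
      (∫ θ in (0 : ℝ)..(2 * Real.pi), F θ (t₀ + Real.sin θ)) + F0 t₀) ≤
      k * (∫ θ in (0 : ℝ)..(2 * Real.pi),
        ∫ t in (-(T + 2))..(T + 2), F θ t) + ∫ t in (-(T + 2))..(T + 2), F0 t := by
  have hπ := Real.pi_pos
  have hTT : -(T + 1) ≤ T + 1 := by linarith
  have hψc := avg_psi hFc
  have hkc : Continuous (fun t₀ : ℝ =>
      k * (∫ θ in (0 : ℝ)..(2 * Real.pi), F θ (t₀ + Real.sin θ))) := continuous_const.mul hψc
  rw [intervalIntegral.integral_add (hkc.intervalIntegrable _ _)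
    (hF0c.intervalIntegrable _ _), intervalIntegral.integral_const_mul]
  apply add_le_add
  · apply mul_le_mul_of_nonneg_left _ hk
    have hsw := avg_swap (f := fun t₀ θ => F θ (t₀ + Real.sin θ))
      (hFc.comp (by fun_prop : Continuous fun p : ℝ × ℝ => (p.2, p.1 + Real.sin p.2)))
      hTT (by positivity : (0 : ℝ) ≤ 2 * Real.pi)
    rw [hsw]
    have c1 : Continuous (fun θ : ℝ => ∫ t₀ in (-(T + 1))..(T + 1), F θ (t₀ + Real.sin θ)) := by
      have h1 : Continuous (Function.uncurry fun θ t₀ : ℝ => F θ (t₀ + Real.sin θ)) :=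
        hFc.comp (by fun_prop : Continuous fun p : ℝ × ℝ => (p.1, p.2 + Real.sin p.1))
      exact intervalIntegral.continuous_parametric_intervalIntegral_of_continuous' h1 _ _
    have c2 : Continuous (fun θ : ℝ => ∫ t in (-(T + 2))..(T + 2), F θ t) := by
      have h1 : Continuous (Function.uncurry fun θ t : ℝ => F θ t) := hFc
      exact intervalIntegral.continuous_parametric_intervalIntegral_of_continuous' h1 _ _
    apply intervalIntegral.integral_mono_on (by positivity) (c1.intervalIntegrable _ _)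
      (c2.intervalIntegrable _ _)
    intro θ _
    rw [intervalIntegral.integral_comp_add_right (fun t => F θ t) (Real.sin θ)]
    have s1 := Real.neg_one_le_sin θ
    have s2 := Real.sin_le_one θ
    have cθ : Continuous (fun t => F θ t) :=
      hFc.comp (by fun_prop : Continuous fun t : ℝ => (θ, t))
    apply intervalIntegral.integral_mono_interval (by linarith) (by linarith) (by linarith)
    · exact Eventually.of_forall fun t => hFn θ t
    · exact cθ.intervalIntegrable _ _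
  · apply intervalIntegral.integral_mono_interval (by linarith) (by linarith) (by linarith)
    · exact Eventually.of_forall fun t => hF0n t
    · exact hF0c.intervalIntegrable _ _

/-- AVG -/
theorem avg_count_pr {G : ℂ → ℂ} {η T : ℝ} (hη : 0 < η) (hη1 : η ≤ 1 / 2) (hT : 0 ≤ T)
    (hG : AnalyticOnNhd ℂ G {s : ℂ | 1 / 2 < s.re})
    (h0 : ∀ t : ℝ, |t| ≤ T + 1 → ‖G (3 / 2 + η + t * I) - 1‖ ≤ 1 / 2) (Z : Finset ℂ) (n : ℂ → ℕ)
    (hZ : ∀ ρ ∈ Z, 1 / 2 + 2 * η ≤ ρ.re ∧ ρ.re ≤ 1 ∧ |ρ.im| ≤ T ∧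
      (n ρ : ℕ∞) ≤ analyticOrderAt G ρ) :
    (∑ ρ ∈ Z, (n ρ : ℝ)) * (η / 2 * √η) ≤
      1 / 2 * (2 * Real.pi)⁻¹ * (∫ θ in (0 : ℝ)..(2 * Real.pi),
        ∫ t in (-(T + 2))..(T + 2), ‖G (3 / 2 + η + Real.cos θ + t * I) - 1‖ ^ 2) +
        ∫ t in (-(T + 2))..(T + 2), ‖G (3 / 2 + η + t * I) - 1‖ ^ 2 := by
  classical
  have hπ := Real.pi_pos
  have hcontG : ContinuousOn G {s : ℂ | 1 / 2 < s.re} := hG.continuousOn
  set F : ℝ → ℝ → ℝ := fun θ t => ‖G (3 / 2 + η + Real.cos θ + t * I) - 1‖ ^ 2 with hF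
  set F0 : ℝ → ℝ := fun t => ‖G (3 / 2 + η + t * I) - 1‖ ^ 2 with hF0
  have hFc : Continuous (fun p : ℝ × ℝ => F p.1 p.2) := by
    have h1 : Continuous (fun p : ℝ × ℝ => G (3 / 2 + η + Real.cos p.1 + p.2 * I)) := by
      apply hcontG.comp_continuous (by fun_prop)
      intro p
      have h2 := Real.neg_one_le_cos p.1
      have h3 : (3 / 2 + η + (Real.cos p.1 : ℝ) + p.2 * I : ℂ).re = 3 / 2 + η + Real.cos p.1 := by
        simp [-Complex.ofReal_cos]
      change 1 / 2 < (3 / 2 + η + (Real.cos p.1 : ℝ) + p.2 * I : ℂ).re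
      rw [h3]
      linarith
    exact ((h1.sub continuous_const).norm).pow 2
  have hF0c : Continuous F0 := by
    have h1 : Continuous (fun t : ℝ => G (3 / 2 + η + t * I)) := by
      apply hcontG.comp_continuous (by fun_prop)
      intro t
      change 1 / 2 < (3 / 2 + η + t * I : ℂ).re
      simp
      linarith
    exact ((h1.sub continuous_const).norm).pow 2
  have hFn : ∀ θ t, 0 ≤ F θ t := fun θ t => by positivity
  have hF0n : ∀ t, 0 ≤ F0 t := fun t => by positivity
  set r : ℝ := √(η / 2) with hr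
  have hr0 : 0 ≤ r := Real.sqrt_nonneg _
  have hr1 : r ≤ 1 / 2 := by
    rw [hr, Real.sqrt_le_left (by norm_num)]
    linarith
  -- the indicator of the set of good centres
  set J : ℂ → Set ℝ := fun ρ => Set.Icc (ρ.im - r) (ρ.im + r) with hJ
  set φ : ℝ → ℝ := fun t₀ => ∑ ρ ∈ Z, (n ρ : ℝ) * (η / 2) * (J ρ).indicator (fun _ => (1 : ℝ)) t₀
    with hφ
  have hpoint : ∀ t₀ ∈ Set.Icc (-(T + 1)) (T + 1), φ t₀ ≤
      1 / 2 * (2 * Real.pi)⁻¹ * (∫ θ in (0 : ℝ)..(2 * Real.pi), F θ (t₀ + Real.sin θ)) + F0 t₀ := by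
    intro t₀ ht₀
    have h1 := disc_count_pr (G := G) (t₀ := t₀) hη hη1 hG (h0 t₀ (abs_le.2 ht₀))
      (Z.filter (fun ρ => |ρ.im - t₀| ≤ r)) n (by
        intro ρ hρ
        rw [Finset.mem_filter] at hρ
        obtain ⟨h2, h3, h4, h5⟩ := hZ ρ hρ.1
        exact ⟨h2, h3, hρ.2, h5⟩)
    have h2 : φ t₀ = (∑ ρ ∈ Z.filter (fun ρ => |ρ.im - t₀| ≤ r), (n ρ : ℝ)) * (η / 2) := by
      rw [hφ, Finset.sum_mul, Finset.sum_filter]
      apply Finset.sum_congr rfl
      intro ρ _
      by_cases h3 : |ρ.im - t₀| ≤ r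
      · rw [if_pos h3]
        have h4 : t₀ ∈ J ρ := by
          rw [abs_le] at h3
          exact ⟨by linarith [h3.2], by linarith [h3.1]⟩
        rw [Set.indicator_of_mem h4, mul_one]
      · rw [if_neg h3]
        have h4 : t₀ ∉ J ρ := by
          intro h4
          apply h3
          rw [abs_le]
          exact ⟨by linarith [h4.2], by linarith [h4.1]⟩
        rw [Set.indicator_of_notMem h4, mul_zero]
    rw [h2]
    refine h1.trans (le_of_eq ?_)
    congr 1
    rw [Real.circleAverage_def, smul_eq_mul, mul_assoc]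
    congr 2
    apply intervalIntegral.integral_congr
    intro θ _
    simp only [hF]
    congr 4
    rw [circleMap, Complex.ofReal_one, one_mul, Complex.exp_mul_I, ← Complex.ofReal_cos,
      ← Complex.ofReal_sin]
    push_cast
    ring
  -- integrate
  have hTT : -(T + 1) ≤ T + 1 := by linarith
  have hψc := avg_psi hFc
  have hRc : Continuous (fun t₀ : ℝ => 1 / 2 * (2 * Real.pi)⁻¹ *
      (∫ θ in (0 : ℝ)..(2 * Real.pi), F θ (t₀ + Real.sin θ)) + F0 t₀) :=
    (continuous_const.mul hψc).add hF0c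
  have hJi : ∀ ρ, Integrable ((J ρ).indicator (fun _ => (1 : ℝ))) := fun ρ =>
    (integrable_indicator_iff measurableSet_Icc).2 (integrableOn_const (hs := by simp))
  have hφi : IntervalIntegrable φ volume (-(T + 1)) (T + 1) := by
    apply Integrable.intervalIntegrable
    exact integrable_finsetSum _ fun ρ _ => (hJi ρ).const_mul _
  have hmono := intervalIntegral.integral_mono_on hTT hφi (hRc.intervalIntegrable _ _) hpoint
  -- the left side
  have hleft : (∑ ρ ∈ Z, (n ρ : ℝ)) * (η / 2 * √η) ≤ ∫ t₀ in (-(T + 1))..(T + 1), φ t₀ := by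
    have h1 : ∫ t₀ in (-(T + 1))..(T + 1), φ t₀ = ∑ ρ ∈ Z, (n ρ : ℝ) * (η / 2) *
        ∫ t₀ in (-(T + 1))..(T + 1), (J ρ).indicator (fun _ => (1 : ℝ)) t₀ := by
      rw [hφ, intervalIntegral.integral_finsetSum]
      · apply Finset.sum_congr rfl
        intro ρ _
        rw [intervalIntegral.integral_const_mul]
      · intro ρ _
        exact ((hJi ρ).const_mul _).intervalIntegrable
    rw [h1, Finset.sum_mul]
    apply Finset.sum_le_sum
    intro ρ hρ
    obtain ⟨h2, h3, h4, h5⟩ := hZ ρ hρ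
    rw [abs_le] at h4
    have h6 : ∫ t₀ in (-(T + 1))..(T + 1), (J ρ).indicator (fun _ => (1 : ℝ)) t₀ = 2 * r := by
      rw [intervalIntegral.integral_of_le hTT, setIntegral_indicator measurableSet_Icc,
        setIntegral_const, smul_eq_mul, mul_one]
      have h7 : Set.Ioc (-(T + 1)) (T + 1) ∩ J ρ = J ρ := by
        apply Set.inter_eq_self_of_subset_right
        intro t ht
        exact ⟨by linarith [ht.1], by linarith [ht.2]⟩
      rw [h7, hJ, measureReal_def, Real.volume_Icc, ENNReal.toReal_ofReal (by linarith)]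
      ring
    rw [h6]
    have h8 : √η ≤ 2 * r := by
      rw [Real.sqrt_le_left (by positivity), mul_pow, hr, Real.sq_sqrt (by positivity)]
      linarith
    calc (n ρ : ℝ) * (η / 2 * √η) = (n ρ : ℝ) * (η / 2) * √η := by ring
      _ ≤ (n ρ : ℝ) * (η / 2) * (2 * r) := by gcongr
  -- the right side
  have hright := avg_right hFc hFn hF0c hF0n hT (by positivity : 0 ≤ 1 / 2 * (2 * Real.pi)⁻¹)
  exact hleft.trans (hmono.trans hright)

theorem avg_count : type_of% @avg_count_pr := @avg_count_pr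

end Pool.Agent.NL
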