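import Pool.Agent.Lib_helper41.NL.Defs
import Pool.Agent.Lib_helper92.KSA.FinA

/-!
# Block NICE: regularity of the densities
-/

namespace Pool.Agent.NL

open NumberField NumberField.InfinitePlace NumberField.Units Complex MeasureTheory Filter Topology
open Pool.Agent.HZ Pool.Agent.AS Pool.Agent.KS
open scoped ENNReal

variable {K : Type} [Field K] [NumberField K]

theorem nice_gK_cont (κ : InfinitePlace K → ℤ) (lam : InfinitePlace K → ℝ) :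
    Continuous (gK (K := K) κ lam) := by
  obtain ⟨C₁, hG⟩ := Gf_good (K := K) κ
  unfold gK
  exact (Complex.continuous_ofReal.comp (by fun_prop)).mul (kint_continuous (hG lam))

theorem nice_gK_left (κ : InfinitePlace K → ℤ) (lam : InfinitePlace K → ℝ) :
    ∃ C : ℝ, 0 ≤ C ∧ ∀ u : ℝ, ‖gK (K := K) κ lam u‖ ≤ C * Real.exp (u / 4) := by
  obtain ⟨C₁, hG⟩ := Gf_good (K := K) κ
  have hG' := hG lam
  have hC1 : 0 ≤ C₁ := hG'.1
  obtain ⟨Ca, hCa0, hCa⟩ := kg_le (K := K) (c := Real.pi / 2) (by positivity) (A := 1 / 4)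
    (by norm_num)
  refine ⟨C₁ * Ca, by positivity, fun u => ?_⟩
  unfold gK
  rw [norm_mul, Complex.norm_real, Real.norm_of_nonneg (Real.exp_pos _).le]
  calc Real.exp (u / 2) * ‖kint K (Gf κ lam) u‖
      ≤ Real.exp (u / 2) * (C₁ * (Ca * Real.exp (-(1 / 4 * u)))) := by
        gcongr
        exact (kint_le hG' u).trans (mul_le_mul_of_nonneg_left (hCa u) hC1)
    _ = C₁ * Ca * (Real.exp (u / 2) * Real.exp (-(1 / 4 * u))) := by ring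
    _ = C₁ * Ca * Real.exp (u / 4) := by
        rw [← Real.exp_add]; congr 2; ring

theorem nice_gK_right (κ : InfinitePlace K → ℤ) (lam : InfinitePlace K → ℝ) :
    ∃ C : ℝ, 0 ≤ C ∧ ∀ u : ℝ, ‖gK (K := K) κ lam u‖ ≤ C * Real.exp (-(11 * u)) := by
  obtain ⟨C₁, hG⟩ := Gf_good (K := K) κ
  have hG' := hG lam
  have hC1 : 0 ≤ C₁ := hG'.1
  obtain ⟨Ca, hCa0, hCa⟩ := kg_le (K := K) (c := Real.pi / 2) (by positivity) (A := 23 / 2)
    (by norm_num)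
  refine ⟨C₁ * Ca, by positivity, fun u => ?_⟩
  unfold gK
  rw [norm_mul, Complex.norm_real, Real.norm_of_nonneg (Real.exp_pos _).le]
  calc Real.exp (u / 2) * ‖kint K (Gf κ lam) u‖
      ≤ Real.exp (u / 2) * (C₁ * (Ca * Real.exp (-(23 / 2 * u)))) := by
        gcongr
        exact (kint_le hG' u).trans (mul_le_mul_of_nonneg_left (hCa u) hC1)
    _ = C₁ * Ca * (Real.exp (u / 2) * Real.exp (-(23 / 2 * u))) := by ring
    _ = C₁ * Ca * Real.exp (-(11 * u)) := by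
        rw [← Real.exp_add]; congr 2; ring

/-- a finite combination of shifts of a function decaying fast decays fast -/
theorem nice_shift {D : ℝ → ℂ} {A C : ℝ} (hA : 0 ≤ A) (h : ∀ u, ‖D u‖ ≤ C * Real.exp (-(A * |u|)))
    (a : ℂ) (s : ℝ) (u : ℝ) :
    ‖a * D (u + s)‖ ≤ ‖a‖ * (C * Real.exp (A * |s|)) * Real.exp (-(A * |u|)) := by
  rw [norm_mul]
  have hC : 0 ≤ C := by
    have h1 := (norm_nonneg _).trans (h 0)
    simpa using h1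
  have h1 : ‖D (u + s)‖ ≤ C * Real.exp (-(A * |u + s|)) := h _
  have h2 : |u| ≤ |u + s| + |s| := by
    have := abs_sub (u + s) s
    simpa using this
  calc ‖a‖ * ‖D (u + s)‖ ≤ ‖a‖ * (C * Real.exp (-(A * |u + s|))) := by gcongr
    _ ≤ ‖a‖ * (C * Real.exp (A * |s| + -(A * |u|))) := by
        gcongr
        nlinarith
    _ = _ := by rw [Real.exp_add]; ring

theorem nice_DK2_cont {𝔮 : Ideal (𝓞 K)} {κ : InfinitePlace K → ℤ} {lam : InfinitePlace K → ℝ}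
    (h𝔮' : 𝔮 ≠ ⊤) {χ : MulChar (𝓞 K ⧸ 𝔮) ℂ} {ψ : Ideal (𝓞 K) →* ℂ}
    (hψ : IsHecke 𝔮 κ lam χ ψ) (L : ℝ) : Continuous (DK2 L κ lam ψ) := by
  obtain ⟨C₁, hG⟩ := Gf_good (K := K) κ
  have hcont : Continuous (Dser ψ (Gf κ lam)) :=
    Dser_continuous (hG lam) (fun 𝔞 => hecke_le hψ 𝔞) (hecke_bot h𝔮' hψ)
  unfold DK2
  refine continuous_finsetSum _ fun k _ => continuous_finsetSum _ fun l _ => ?_
  exact continuous_const.mul (hcont.comp (by fun_prop))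

theorem nice_DK2_decay {𝔮 : Ideal (𝓞 K)} {κ : InfinitePlace K → ℤ}
    (hκ : ∀ w : InfinitePlace K, w.IsReal → κ w = 0 ∨ κ w = 1) {lam : InfinitePlace K → ℝ}
    (hlam : ∑ w, lam w = 0) (h𝔮 : 𝔮 ≠ ⊥) (h𝔮' : 𝔮 ≠ ⊤)
    {χ : MulChar (𝓞 K ⧸ 𝔮) ℂ} (hχ : IsPrim 𝔮 χ) {ψ : Ideal (𝓞 K) →* ℂ}
    (hψ : IsHecke 𝔮 κ lam χ ψ) (L : ℝ) {A : ℝ} (hA : 0 ≤ A) :
    ∃ C : ℝ, 0 ≤ C ∧ ∀ u : ℝ, ‖DK2 L κ lam ψ u‖ ≤ C * Real.exp (-(A * |u|)) := by
  obtain ⟨C, hC⟩ := dser_decay hκ hlam h𝔮 h𝔮' hχ hψ A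
  have hC0 : 0 ≤ C := by
    have h1 := (norm_nonneg _).trans (hC 0)
    simpa using h1
  refine ⟨∑ k ∈ ball (NK K) (Real.exp L), ∑ l ∈ ball (NK K) (Real.exp L),
    ‖bK2 L ψ k * bK2 L ψ l‖ * (C * Real.exp (A * |lK k + lK l|)),
    Finset.sum_nonneg fun k _ => Finset.sum_nonneg fun l _ => by positivity, fun u => ?_⟩
  unfold DK2
  rw [Finset.sum_mul]
  refine norm_sum_le_of_le _ fun k _ => ?_
  rw [Finset.sum_mul]
  refine norm_sum_le_of_le _ fun l _ => ?_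
  exact nice_shift hA hC _ _ _

/-- the decay of `h` -/
theorem nice_hh_decay {𝔮 : Ideal (𝓞 K)} {κ : InfinitePlace K → ℤ}
    (hκ : ∀ w : InfinitePlace K, w.IsReal → κ w = 0 ∨ κ w = 1) {lam : InfinitePlace K → ℝ}
    (hlam : ∑ w, lam w = 0) (h𝔮 : 𝔮 ≠ ⊥) (h𝔮' : 𝔮 ≠ ⊤)
    {χ : MulChar (𝓞 K ⧸ 𝔮) ℂ} (hχ : IsPrim 𝔮 χ) {ψ : Ideal (𝓞 K) →* ℂ}
    (hψ : IsHecke 𝔮 κ lam χ ψ) (L : ℝ) :
    ∃ C : ℝ, 0 ≤ C ∧ ∀ x : ℝ, 0 ≤ x → x ≤ 10 → ∀ u : ℝ,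
      ‖hh L κ lam ψ u‖ * Real.exp (x * u) ≤ C * Real.exp (-(1 / 4 * |u|)) := by
  obtain ⟨Ca, hCa0, hCa⟩ := nice_DK2_decay hκ hlam h𝔮 h𝔮' hχ hψ L (A := 11) (by norm_num)
  obtain ⟨Cb, hCb0, hCb⟩ := nice_gK_left (K := K) κ lam
  obtain ⟨Cc, hCc0, hCc⟩ := nice_gK_right (K := K) κ lam
  refine ⟨Ca + Cb + Cc, by positivity, fun x hx0 hx1 u => ?_⟩
  have h1 : ‖hh L κ lam ψ u‖ ≤ ‖DK2 L κ lam ψ u‖ + ‖gK κ lam u‖ := norm_sub_le _ _
  have h2 := hCa u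
  rcases le_or_gt 0 u with hu | hu
  · have h3 := hCc u
    rw [abs_of_nonneg hu] at h2 ⊢
    have h4 : ‖hh L κ lam ψ u‖ ≤ (Ca + Cb + Cc) * Real.exp (-(11 * u)) := by
      have : 0 ≤ Cb * Real.exp (-(11 * u)) := by positivity
      nlinarith
    calc ‖hh L κ lam ψ u‖ * Real.exp (x * u)
        ≤ (Ca + Cb + Cc) * Real.exp (-(11 * u)) * Real.exp (x * u) := by gcongr
      _ = (Ca + Cb + Cc) * Real.exp (-(11 * u) + x * u) := by rw [Real.exp_add]; ring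
      _ ≤ (Ca + Cb + Cc) * Real.exp (-(1 / 4 * u)) := by
          gcongr
          nlinarith
  · have h3 := hCb u
    rw [abs_of_neg hu] at h2 ⊢
    have h5 : Real.exp (-(11 * -u)) ≤ Real.exp (u / 4) := by
      apply Real.exp_le_exp.2; linarith
    have h4 : ‖hh L κ lam ψ u‖ ≤ (Ca + Cb + Cc) * Real.exp (u / 4) := by
      have h6 : 0 ≤ Cc * Real.exp (u / 4) := by positivity
      have h7 : Ca * Real.exp (-(11 * -u)) ≤ Ca * Real.exp (u / 4) := by gcongr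
      nlinarith
    calc ‖hh L κ lam ψ u‖ * Real.exp (x * u)
        ≤ (Ca + Cb + Cc) * Real.exp (u / 4) * Real.exp (x * u) := by gcongr
      _ = (Ca + Cb + Cc) * Real.exp (u / 4 + x * u) := by rw [Real.exp_add]; ring
      _ ≤ (Ca + Cb + Cc) * Real.exp (-(1 / 4 * -u)) := by
          gcongr
          nlinarith

theorem hh_nice_pr {𝔮 : Ideal (𝓞 K)} {κ : InfinitePlace K → ℤ}
    (hκ : ∀ w : InfinitePlace K, w.IsReal → κ w = 0 ∨ κ w = 1) {lam : InfinitePlace K → ℝ}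
    (hlam : ∑ w, lam w = 0) (h𝔮 : 𝔮 ≠ ⊥) (h𝔮' : 𝔮 ≠ ⊤)
    {χ : MulChar (𝓞 K ⧸ 𝔮) ℂ} (hχ : IsPrim 𝔮 χ) {ψ : Ideal (𝓞 K) →* ℂ}
    (hψ : IsHecke 𝔮 κ lam χ ψ) (L : ℝ) :
    Continuous (hh L κ lam ψ) ∧ Continuous (DK2 L κ lam ψ) ∧
      Integrable (fun u => ‖DK2 L κ lam ψ u‖ ^ 2) ∧
      ∀ x : ℝ, 0 ≤ x → x ≤ 10 →
        Integrable (fun u => hh L κ lam ψ u * (Real.exp (x * u) : ℂ)) ∧
        Integrable (fun u => ‖hh L κ lam ψ u‖ ^ 2 * Real.exp (2 * x * u)) := by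
  have hc2 := nice_DK2_cont h𝔮' hψ L
  have hc : Continuous (hh L κ lam ψ) := by
    unfold hh
    exact hc2.sub (nice_gK_cont κ lam)
  refine ⟨hc, hc2, ?_, fun x hx0 hx1 => ⟨?_, ?_⟩⟩
  · obtain ⟨C, hC0, hC⟩ := nice_DK2_decay hκ hlam h𝔮 h𝔮' hχ hψ L (A := 1) (by norm_num)
    refine ((fin_integrable_exp_abs (A := 2) (by norm_num)).const_mul (C ^ 2)).mono'
      (by fun_prop) (Eventually.of_forall fun u => ?_)
    rw [Real.norm_of_nonneg (by positivity)]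
    calc ‖DK2 L κ lam ψ u‖ ^ 2 ≤ (C * Real.exp (-(1 * |u|))) ^ 2 := by
          gcongr; exact hC u
      _ = C ^ 2 * (Real.exp (-(1 * |u|)) * Real.exp (-(1 * |u|))) := by ring
      _ = C ^ 2 * Real.exp (-(2 * |u|)) := by rw [← Real.exp_add]; congr 2; ring
  · obtain ⟨C, hC0, hC⟩ := nice_hh_decay hκ hlam h𝔮 h𝔮' hχ hψ L
    have hcx : Continuous (fun u : ℝ => hh L κ lam ψ u * (Real.exp (x * u) : ℂ)) :=
      hc.mul (Complex.continuous_ofReal.comp (by fun_prop))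
    refine ((fin_integrable_exp_abs (A := 1 / 4) (by norm_num)).const_mul C).mono'
      hcx.aestronglyMeasurable (Eventually.of_forall fun u => ?_)
    rw [norm_mul, Complex.norm_real, Real.norm_of_nonneg (Real.exp_pos _).le]
    exact hC x hx0 hx1 u
  · obtain ⟨C, hC0, hC⟩ := nice_hh_decay hκ hlam h𝔮 h𝔮' hχ hψ L
    have hcx : Continuous (fun u : ℝ => ‖hh L κ lam ψ u‖ ^ 2 * Real.exp (2 * x * u)) := by
      fun_prop
    refine ((fin_integrable_exp_abs (A := 1 / 2) (by norm_num)).const_mul (C ^ 2)).mono'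
      hcx.aestronglyMeasurable (Eventually.of_forall fun u => ?_)
    rw [Real.norm_of_nonneg (by positivity)]
    calc ‖hh L κ lam ψ u‖ ^ 2 * Real.exp (2 * x * u)
        = (‖hh L κ lam ψ u‖ * Real.exp (x * u)) ^ 2 := by
          rw [mul_pow, ← Real.exp_nat_mul]; congr 2; push_cast; ring
      _ ≤ (C * Real.exp (-(1 / 4 * |u|))) ^ 2 :=
          pow_le_pow_left₀ (by positivity) (hC x hx0 hx1 u) 2
      _ = C ^ 2 * (Real.exp (-(1 / 4 * |u|)) * Real.exp (-(1 / 4 * |u|))) := by ring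
      _ = C ^ 2 * Real.exp (-(1 / 2 * |u|)) := by rw [← Real.exp_add]; congr 2; ring

theorem hh_nice : type_of% @hh_nice_pr := @hh_nice_pr

end Pool.Agent.NL
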