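import Pool.Agent.Lib_helper41.NL.Defs
import Pool.Agent.Lib_helper41.NLF.NICE

/-! Auxiliary facts used in the blocks ONE and RIGHT. -/

namespace Pool.Agent.NL

open NumberField NumberField.InfinitePlace NumberField.Units Complex MeasureTheory Filter Topology
open Pool.Agent.HZ Pool.Agent.AS Pool.Agent.KS
open scoped ENNReal

variable {K : Type} [Field K] [NumberField K]

theorem aux_cont {𝔮 : Ideal (𝓞 K)} {κ : InfinitePlace K → ℤ}
    (hκ : ∀ w : InfinitePlace K, w.IsReal → κ w = 0 ∨ κ w = 1) {lam : InfinitePlace K → ℝ}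
    (hlam : ∑ w, lam w = 0) (h𝔮 : 𝔮 ≠ ⊥) (h𝔮' : 𝔮 ≠ ⊤)
    {χ : MulChar (𝓞 K ⧸ 𝔮) ℂ} (hχ : IsPrim 𝔮 χ) {ψ : Ideal (𝓞 K) →* ℂ}
    (hψ : IsHecke 𝔮 κ lam χ ψ) (L : ℝ) {η : ℝ} (hη : 0 ≤ η) (hη1 : η ≤ 1 / 2) :
    Continuous (fun θ : ℝ => ∫ u, ‖hh L κ lam ψ u‖ ^ 2 *
      Real.exp (2 * (1 + η + Real.cos θ) * u)) := by
  obtain ⟨hc, -, -, hi⟩ := hh_nice hκ hlam h𝔮 h𝔮' hχ hψ L
  have h0 := (hi 0 le_rfl (by norm_num)).2
  have h3 := (hi 3 (by norm_num) (by norm_num)).2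
  refine continuous_of_dominated (bound := fun u => ‖hh L κ lam ψ u‖ ^ 2 * Real.exp (2 * 0 * u) +
    ‖hh L κ lam ψ u‖ ^ 2 * Real.exp (2 * 3 * u)) ?_ ?_ (h0.add h3) ?_
  · intro θ
    exact (by fun_prop : Continuous (fun u => ‖hh L κ lam ψ u‖ ^ 2 *
      Real.exp (2 * (1 + η + Real.cos θ) * u))).aestronglyMeasurable
  · intro θ
    refine Eventually.of_forall fun u => ?_
    rw [Real.norm_of_nonneg (by positivity), ← mul_add]
    refine mul_le_mul_of_nonneg_left ?_ (by positivity)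
    have hx0 : 0 ≤ 1 + η + Real.cos θ := by linarith [Real.neg_one_le_cos θ]
    have hx3 : 1 + η + Real.cos θ ≤ 3 := by linarith [Real.cos_le_one θ]
    rcases le_or_gt 0 u with hu | hu
    · have h1 : Real.exp (2 * (1 + η + Real.cos θ) * u) ≤ Real.exp (2 * 3 * u) :=
        Real.exp_le_exp.2 (by nlinarith)
      linarith [Real.exp_pos (2 * 0 * u)]
    · have h1 : Real.exp (2 * (1 + η + Real.cos θ) * u) ≤ Real.exp (2 * 0 * u) :=
        Real.exp_le_exp.2 (by nlinarith)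
      linarith [Real.exp_pos (2 * 3 * u)]
  · exact Eventually.of_forall fun u => by fun_prop

end Pool.Agent.NL
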