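import Pool.Agent.Lib_helper41.NL.Defs

/-! Block FLAT (helper30): the flat-top coefficients -/

set_option autoImplicit false

namespace Pool.Agent.NL

open Pool.Agent.AS

variable {P : Type}

/-- the flat-top cut-off -/
theorem flat_t {N : P → ℕ} {L : ℝ} (hL : 0 < L) (g : P →₀ ℕ) : ∃ t : ℝ, 0 ≤ t ∧ t ≤ 1 ∧
    be2 N L g = (al : MvPowerSeries P ℝ) g * t ∧ (Real.log (nm N g) ≤ L / 2 → t = 1) ∧
    (L ≤ Real.log (nm N g) → t = 0) := by
  set x : ℝ := Real.log (nm N g) / L with hx
  have hx0 : 0 ≤ x := div_nonneg (Real.log_natCast_nonneg _) hL.le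
  have hx2 : Real.log (nm N g) / (L / 2) = 2 * x := by
    rw [hx]
    field_simp
  refine ⟨2 * max 0 (1 - x) - max 0 (1 - 2 * x), ?_, ?_, ?_, ?_, ?_⟩
  · rcases le_total x 1 with h1 | h1
    · rw [max_eq_right (by linarith : 0 ≤ 1 - x)]
      rcases le_total x (1 / 2) with h2 | h2
      · rw [max_eq_right (by linarith : 0 ≤ 1 - 2 * x)]
        linarith
      · rw [max_eq_left (by linarith : 1 - 2 * x ≤ 0)]
        linarith
    · rw [max_eq_left (by linarith : 1 - x ≤ 0), max_eq_left (by linarith : 1 - 2 * x ≤ 0)]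
      norm_num
  · rcases le_total x 1 with h1 | h1
    · rw [max_eq_right (by linarith : 0 ≤ 1 - x)]
      rcases le_total x (1 / 2) with h2 | h2
      · rw [max_eq_right (by linarith : 0 ≤ 1 - 2 * x)]
        linarith
      · rw [max_eq_left (by linarith : 1 - 2 * x ≤ 0)]
        linarith
    · rw [max_eq_left (by linarith : 1 - x ≤ 0), max_eq_left (by linarith : 1 - 2 * x ≤ 0)]
      norm_num
  · unfold be2 be
    rw [hx2, ← hx]
    ring
  · intro h
    have h2 : x ≤ 1 / 2 := by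
      rw [hx, div_le_iff₀ hL]
      linarith
    rw [max_eq_right (by linarith : 0 ≤ 1 - x), max_eq_right (by linarith : 0 ≤ 1 - 2 * x)]
    ring
  · intro h
    have h2 : 1 ≤ x := by
      rw [hx, le_div_iff₀ hL]
      linarith
    rw [max_eq_left (by linarith : 1 - x ≤ 0), max_eq_left (by linarith : 1 - 2 * x ≤ 0)]
    ring

theorem flat_zero {N : P → ℕ} {L : ℝ} (hL : 0 < L) {g : P →₀ ℕ}
    (h : L ≤ Real.log (nm N g)) : be2 N L g = 0 := by
  obtain ⟨t, _, _, h3, _, h5⟩ := flat_t (N := N) hL g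
  rw [h3, h5 h, mul_zero]

theorem be2_zero_pr {N : P → ℕ} (hN : Good N) {L : ℝ} (hL : 0 < L) {g : P →₀ ℕ}
    (h : g ∉ ball N (Real.exp L)) : be2 N L g = 0 := by
  apply flat_zero hL
  rw [mem_ball hN] at h
  have h1 : Real.exp L < nm N g := not_le.1 h
  have h2 := Real.log_le_log (Real.exp_pos L) h1.le
  rwa [Real.log_exp] at h2

theorem flat_abs_le {N : P → ℕ} {L : ℝ} (hL : 0 < L) (g : P →₀ ℕ) :
    |be2 N L g| ≤ |(al : MvPowerSeries P ℝ) g| := by
  obtain ⟨t, h1, h2, h3, _, _⟩ := flat_t (N := N) hL g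
  rw [h3, abs_mul, abs_of_nonneg h1]
  exact mul_le_of_le_one_right (abs_nonneg _) h2

theorem be2_abs_pr {N : P → ℕ} (hN : Good N) {L : ℝ} (hL : 0 < L) (g : P →₀ ℕ) :
    |be2 N L g| ≤ 1 :=
  (flat_abs_le hL g).trans (al_abs g)

theorem bb2_zero_pr {N : P → ℕ} (hN : Good N) {L : ℝ} (hL : 0 < L) : bb2 N L 0 = 1 := by
  classical
  have h : be2 N L 0 = 1 := by
    obtain ⟨t, _, _, h3, h4, _⟩ := flat_t (N := N) hL 0
    rw [h3, h4 (by rw [nm_zero]; simp; positivity), al_zero, mul_one]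
  unfold bb2
  rw [mul_app, Finset.HasAntidiagonal.antidiagonal_zero, Finset.sum_singleton, mul_app,
    Finset.HasAntidiagonal.antidiagonal_zero, Finset.sum_singleton]
  rw [h]; simp [one]

theorem bb2_flat_pr {N : P → ℕ} (hN : Good N) {L : ℝ} (hL : 0 < L) {g : P →₀ ℕ} (hg : g ≠ 0)
    (h : Real.log (nm N g) ≤ L / 2) : bb2 N L g = 0 := by
  classical
  have hdiv : ∀ d : P →₀ ℕ, d ≤ g → be2 N L d = (al : MvPowerSeries P ℝ) d := by
    intro d hd
    obtain ⟨t, _, _, h3, h4, _⟩ := flat_t (N := N) hL d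
    have h5 : Real.log (nm N d) ≤ Real.log (nm N g) := by
      apply Real.log_le_log
      · exact_mod_cast nm_pos hN.two_le d
      · exact_mod_cast nm_le hN.two_le hd
    rw [h3, h4 (by linarith), mul_one]
  have h1 : bb2 N L g = ((one : MvPowerSeries P ℝ) * (al * al) : MvPowerSeries P ℝ) g := by
    unfold bb2
    rw [mul_app, mul_app]
    refine Finset.sum_congr rfl fun p hp => ?_
    rw [Finset.HasAntidiagonal.mem_antidiagonal] at hp
    congr 1
    rw [mul_app, mul_app]
    refine Finset.sum_congr rfl fun r hr => ?_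
    rw [Finset.HasAntidiagonal.mem_antidiagonal] at hr
    have hp2 : p.2 ≤ g := by
      rw [← hp]
      exact le_add_self
    have hr1 : r.1 ≤ p.2 := by
      rw [← hr]
      exact le_self_add
    have hr2 : r.2 ≤ p.2 := by
      rw [← hr]
      exact le_add_self
    rw [hdiv _ (hr1.trans hp2), hdiv _ (hr2.trans hp2)]
  rw [h1, al_mul_al, one_mul_mu]
  change MvPowerSeries.coeff g (1 : MvPowerSeries P ℝ) = 0
  rw [MvPowerSeries.coeff_one, if_neg hg]

theorem flat_lam_abs {N : P → ℕ} {L : ℝ} (hL : 0 < L) (g : P →₀ ℕ) :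
    |(be2 N L * be2 N L : MvPowerSeries P ℝ) g| ≤ 1 := by
  classical
  rw [mul_app]
  refine (Finset.abs_sum_le_sum_abs _ _).trans ?_
  refine le_trans (Finset.sum_le_sum fun p _ => ?_) (al_conv_abs g)
  rw [abs_mul]
  exact mul_le_mul (flat_abs_le hL _) (flat_abs_le hL _) (abs_nonneg _) (abs_nonneg _)

theorem flat_lam_zero {N : P → ℕ} (hN : ∀ p, 2 ≤ N p) {L : ℝ} (hL : 0 < L) {g : P →₀ ℕ}
    (hg : 2 * L ≤ Real.log (nm N g)) : (be2 N L * be2 N L : MvPowerSeries P ℝ) g = 0 := by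
  classical
  rw [mul_app]
  refine Finset.sum_eq_zero fun p hp => ?_
  rw [Finset.HasAntidiagonal.mem_antidiagonal] at hp
  have h3 : Real.log (nm N g) = Real.log (nm N p.1) + Real.log (nm N p.2) := by
    rw [← hp, nm_add]; push_cast
    exact Real.log_mul (by exact_mod_cast (nm_pos hN _).ne') (by exact_mod_cast (nm_pos hN _).ne')
  rcases le_or_gt L (Real.log (nm N p.1)) with h | h
  · rw [flat_zero hL h, zero_mul]
  · rw [flat_zero hL (g := p.2) (by linarith), mul_zero]

theorem bb2_abs_pr {N : P → ℕ} (hN : Good N) : ∃ C : ℝ, 0 ≤ C ∧ ∀ L : ℝ, 0 < L → ∀ g : P →₀ ℕ,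
    |bb2 N L g| ≤ C * Real.exp (4 * L) := by
  classical
  obtain ⟨C, hC0, hC⟩ := ball_card hN
  refine ⟨C, hC0, fun L hL g => ?_⟩
  unfold bb2
  rw [mul_app]
  refine (Finset.abs_sum_le_sum_abs _ _).trans ?_
  have h1 : ∑ i ∈ Finset.HasAntidiagonal.antidiagonal g,
      |(one : MvPowerSeries P ℝ) i.1 * (be2 N L * be2 N L : MvPowerSeries P ℝ) i.2| ≤
      ∑ i ∈ (Finset.HasAntidiagonal.antidiagonal g).filter
        (fun d => Real.log (nm N d.2) < 2 * L), (1 : ℝ) := by
    rw [Finset.sum_filter]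
    refine Finset.sum_le_sum fun i _ => ?_
    rw [show (one : MvPowerSeries P ℝ) i.1 = 1 from rfl, one_mul]
    split_ifs with h
    · exact flat_lam_abs hL _
    · rw [flat_lam_zero hN.two_le hL (not_lt.mp h), abs_zero]
  refine h1.trans ?_
  rw [Finset.sum_const, nsmul_eq_mul, mul_one]
  have h2 : ((Finset.HasAntidiagonal.antidiagonal g).filter
      (fun d => Real.log (nm N d.2) < 2 * L)).card ≤ (ball N (Real.exp (2 * L))).card := by
    refine Finset.card_le_card_of_injOn (fun d => d.2) ?_ ?_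
    · intro d hd
      rw [Finset.mem_coe, Finset.mem_filter] at hd
      rw [Finset.mem_coe, mem_ball hN]
      have hpos : (0 : ℝ) < nm N d.2 := by exact_mod_cast nm_pos hN.two_le d.2
      rw [← Real.log_le_iff_le_exp hpos]
      exact hd.2.le
    · intro d hd e he hde
      rw [Finset.mem_coe, Finset.mem_filter, Finset.HasAntidiagonal.mem_antidiagonal] at hd he
      have h2 : d.2 = e.2 := hde
      have h3 : d.1 = e.1 := by
        have := hd.1.trans he.1.symm
        rw [h2] at this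
        exact add_right_cancel this
      exact Prod.ext h3 h2
  calc ((((Finset.HasAntidiagonal.antidiagonal g).filter
      (fun d => Real.log (nm N d.2) < 2 * L)).card : ℕ) : ℝ)
      ≤ ((ball N (Real.exp (2 * L))).card : ℝ) := by exact_mod_cast h2
    _ ≤ C * (Real.exp (2 * L)) ^ 2 := hC _ (Real.one_le_exp (by linarith))
    _ = C * Real.exp (4 * L) := by
      rw [← Real.exp_nat_mul]; congr 2; push_cast; ring

theorem be2_zero : type_of% @be2_zero_pr := @be2_zero_pr

theorem be2_abs : type_of% @be2_abs_pr := @be2_abs_pr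

theorem bb2_zero : type_of% @bb2_zero_pr := @bb2_zero_pr

theorem bb2_flat : type_of% @bb2_flat_pr := @bb2_flat_pr

theorem bb2_abs : type_of% @bb2_abs_pr := @bb2_abs_pr

end Pool.Agent.NL
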