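import Pool.Agent.Lib_helper41.NL.Defs
import Pool.Agent.Lib_helper41.NLF.FLAT

/-! Block DK2E (helper30; copy of a block of helper92): `DK2` as a `Dser` -/

namespace Pool.Agent.NL

open NumberField NumberField.InfinitePlace NumberField.Units Complex MeasureTheory Filter Topology
open Pool.Agent.HZ Pool.Agent.AS Pool.Agent.KS

set_option linter.unusedSectionVars false

section conv

variable {P : Type}

open scoped Classical in
theorem dk2e_bb (N : P → ℕ) (L : ℝ) (B : Finset (P →₀ ℕ)) (hB : ∀ m, m ∉ B → be2 N L m = 0)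
    (h : P →₀ ℕ) :
    bb2 N L h = ∑ k ∈ B, ∑ l ∈ B, if k + l ≤ h then be2 N L k * be2 N L l else 0 := by
  unfold bb2
  rw [← mul_assoc, dke_conv _ _ B hB, Finset.sum_comm]
  refine Finset.sum_congr rfl fun l _ => ?_
  by_cases hl : l ≤ h
  · rw [if_pos hl, dke_conv _ _ B hB, Finset.sum_mul]
    refine Finset.sum_congr rfl fun k _ => ?_
    have hiff : k ≤ h - l ↔ k + l ≤ h := le_tsub_iff_right hl
    by_cases hk : k ≤ h - l
    · rw [if_pos hk, if_pos (hiff.1 hk)]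
      simp [one]
    · rw [if_neg hk, if_neg (fun h' => hk (hiff.2 h')), zero_mul]
  · rw [if_neg hl]
    symm
    refine Finset.sum_eq_zero fun k _ => ?_
    rw [if_neg]
    intro h'
    exact hl (le_add_self.trans h')

end conv

variable {K : Type} [Field K] [NumberField K]

theorem DK2_eq_pr {𝔮 : Ideal (𝓞 K)} (h𝔮 : 𝔮 ≠ ⊥) (h𝔮' : 𝔮 ≠ ⊤) {κ : InfinitePlace K → ℤ}
    {lam : InfinitePlace K → ℝ} {χ : MulChar (𝓞 K ⧸ 𝔮) ℂ} {ψ : Ideal (𝓞 K) →* ℂ}
    (hψ : IsHecke 𝔮 κ lam χ ψ) {L : ℝ} (hL : 0 < L) {b : Ideal (𝓞 K) → ℂ} (hb0 : b ⊥ = 0)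
    (hb : ∀ g : PK K →₀ ℕ, b (IK g) = (bb2 (NK K) L g : ℂ)) (u : ℝ) :
    DK2 L κ lam ψ u = Dser (fun 𝔠 => b 𝔠 * ψ 𝔠) (Gf κ lam) u := by
  classical
  obtain ⟨C, hC⟩ := Gf_good (K := K) κ
  have hF := hC lam
  have hψ0 := dke_psi_bot h𝔮' hψ
  set B := ball (NK K) (Real.exp L) with hB
  set G : (PK K →₀ ℕ) → ℂ := fun h => ψ (IK h) * kint K (Gf κ lam) (u + lK h) with hG
  have hGs : Summable G := dke_summable hF (b := fun 𝔠 => ψ 𝔠) (β := 1) (dke_psi_le hψ) hψ0 u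
  have hR : Dser (fun 𝔠 => b 𝔠 * ψ 𝔠) (Gf κ lam) u = (Real.exp (u / 2) : ℂ) *
      ∑' h : PK K →₀ ℕ, (bb2 (NK K) L h : ℂ) * G h := by
    rw [dke_Dser _ (by simp [hb0])]
    congr 1
    refine tsum_congr fun g => ?_
    rw [hb g, hG]
    ring
  have hind : ∀ m : PK K →₀ ℕ, Summable (fun h => if m ≤ h then G h else 0) := by
    intro m
    have := hGs.indicator {h | m ≤ h}
    refine this.congr fun h => ?_
    by_cases hm : m ≤ h
    · rw [if_pos hm, Set.indicator_of_mem (show h ∈ {h | m ≤ h} from hm)]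
    · rw [if_neg hm, Set.indicator_of_notMem (show h ∉ {h | m ≤ h} from hm)]
  have hterm : ∀ h, (bb2 (NK K) L h : ℂ) * G h = ∑ k ∈ B, ∑ l ∈ B,
      ((be2 (NK K) L k * be2 (NK K) L l : ℝ) : ℂ) * (if k + l ≤ h then G h else 0) := by
    intro h
    rw [dk2e_bb (NK K) L B (fun m hm => be2_zero (good_NK K) hL hm) h]
    push_cast
    rw [Finset.sum_mul]
    refine Finset.sum_congr rfl fun k _ => ?_
    rw [Finset.sum_mul]
    refine Finset.sum_congr rfl fun l _ => ?_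
    by_cases hkl : k + l ≤ h
    · rw [if_pos hkl, if_pos hkl]; push_cast; ring
    · rw [if_neg hkl, if_neg hkl]; push_cast; ring
  rw [hR, tsum_congr hterm, Summable.tsum_finsetSum (fun k _ =>
    summable_sum fun l _ => (hind (k + l)).mul_left _), Finset.mul_sum]
  unfold DK2
  refine Finset.sum_congr rfl fun k _ => ?_
  rw [Summable.tsum_finsetSum (fun l _ => (hind (k + l)).mul_left _), Finset.mul_sum]
  refine Finset.sum_congr rfl fun l _ => ?_
  rw [tsum_mul_left, dke_shift, dke_Dser (fun 𝔠 => ψ 𝔠) hψ0]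
  have h1 : ∑' g : PK K →₀ ℕ, G (k + l + g) = ψ (IK k) * ψ (IK l) *
      ∑' g : PK K →₀ ℕ, ψ (IK g) * kint K (Gf κ lam) (u + (lK k + lK l) + lK g) := by
    rw [← tsum_mul_left]
    refine tsum_congr fun g => ?_
    rw [hG]
    simp only
    rw [IK_add, IK_add, map_mul, map_mul, dke_lK_add, dke_lK_add]
    rw [show u + (lK k + lK l + lK g) = u + (lK k + lK l) + lK g by ring]
    ring
  rw [h1]
  have h2 : Real.exp ((u + (lK k + lK l)) / 2) =
      Real.exp (u / 2) * √(nm (NK K) k : ℝ) * √(nm (NK K) l : ℝ) := by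
    rw [show (u + (lK k + lK l)) / 2 = u / 2 + lK k / 2 + lK l / 2 by ring, Real.exp_add,
      Real.exp_add, dke_exp_lK, dke_exp_lK]
  rw [h2]
  unfold bK2
  have hk : ((√(nm (NK K) k : ℝ) : ℝ) : ℂ) ≠ 0 := by
    exact_mod_cast (Real.sqrt_pos.2 (dke_nm_pos k)).ne'
  have hl : ((√(nm (NK K) l : ℝ) : ℝ) : ℂ) ≠ 0 := by
    exact_mod_cast (Real.sqrt_pos.2 (dke_nm_pos l)).ne'
  push_cast
  field_simp

theorem DK2_eq : type_of% @DK2_eq_pr := @DK2_eq_pr

end Pool.Agent.NL
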