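import Pool.Agent.Lib_helper41.NL.Defs

/-! Block MF64 (helper30; copy of a block of helper92 with other constants) -/

namespace Pool.Agent.NL

open NumberField NumberField.InfinitePlace NumberField.Units Complex MeasureTheory Filter Topology
open Pool.Agent.HZ Pool.Agent.AS Pool.Agent.KS

variable {K : Type} [Field K] [NumberField K]

theorem mean_fK64_pr (κ : InfinitePlace K → ℤ) :
    ∃ C : ℝ, 0 ≤ C ∧ ∀ (𝔮 : Ideal (𝓞 K)) (_ : 𝔮 ≠ ⊥) (_ : 𝔮 ≠ ⊤)
      (E : Finset (MulChar (𝓞 K ⧸ 𝔮) ℂ)) (lam : MulChar (𝓞 K ⧸ 𝔮) ℂ → InfinitePlace K → ℝ)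
      (ψ : MulChar (𝓞 K ⧸ 𝔮) ℂ → (Ideal (𝓞 K) →* ℂ))
      (_ : ∀ χ ∈ E, IsHecke 𝔮 κ (lam χ) χ (ψ χ)) (L : ℝ) (_ : 1 ≤ L)
      (_ : 64 * L = Real.log (cond 𝔮)) (v : ℝ) (_ : 0 ≤ v),
      ∑ χ ∈ E, ‖fK L (Real.log (cond 𝔮)) κ (lam χ) (ψ χ) v‖ ^ 2 ≤
        (Nat.card (𝓞 K ⧸ 𝔮)ˣ : ℝ) *
          (C * Diag (NK K) (kg K Real.pi) L (QK 𝔮) (v - 32 * L) + C * Real.exp (-v) / L) := by
  obtain ⟨C1, c1, hC1, hc1, hms⟩ := mean_sq_gen (K := K) κ
  obtain ⟨Cb, hCb, hball⟩ := ball_card (good_NK K)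
  set n : ℕ := Module.finrank ℚ K with hndef
  have hn : 0 < n := Module.finrank_pos
  obtain ⟨M, hM, hMt⟩ := mfk_cube hc1 hn
  set d : ℝ := |(discr K : ℝ)| with hd
  have hd0 : 0 < d := abs_pos.mpr (Int.cast_ne_zero.mpr (discr_ne_zero K))
  set C2 : ℝ := 4 * C1 * Cb ^ 4 * d ^ 3 * M with hC2
  have hC20 : 0 ≤ C2 := by positivity
  refine ⟨C1 + C2, by positivity, ?_⟩
  intro 𝔮 h𝔮 h𝔮' E lam ψ hψ L hL hLc v hv
  have hL0 : 0 < L := by linarith
  obtain ⟨𝔏, nn, hn1, hn2, hn3, hn4⟩ := fK_eq (K := K) h𝔮 h𝔮' (κ := κ) hL0 (Real.log (cond 𝔮))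
  have hpos : ∀ g : PK K →₀ ℕ, (0 : ℝ) < (nm (NK K) g : ℝ) := fun g => by
    exact_mod_cast nm_pos two_le_NK g
  have hone : ∀ g : PK K →₀ ℕ, (1 : ℝ) ≤ (nm (NK K) g : ℝ) := fun g => by
    exact_mod_cast nm_pos two_le_NK g
  set J := JJ (NK K) L (QK 𝔮) with hJ
  set D : ℝ := (nm (NK K) 𝔏 : ℝ) * Real.exp (-(2 * L)) with hD
  have hD0 : 0 < D := mul_pos (hpos 𝔏) (Real.exp_pos _)
  set u' : ℝ := v - Real.log (cond 𝔮) / 2 - lK 𝔏 with hu'
  have hu'2 : u' = v - 32 * L - lK 𝔏 := by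
    rw [hu', ← hLc]
    ring
  -- the mean square
  have hsq : ∑ χ ∈ E, ‖fK L (Real.log (cond 𝔮)) κ (lam χ) (ψ χ) v‖ ^ 2 =
      (nm (NK K) 𝔏 : ℝ) * ∑ χ ∈ E, ‖Dser (fun 𝔠 => bn 𝔮 J nn (fun j => (cc (NK K) L j : ℂ)) 𝔠 *
        ψ χ 𝔠) (Gf κ (lam χ)) u'‖ ^ 2 := by
    rw [Finset.mul_sum]
    refine Finset.sum_congr rfl (fun χ hχ => ?_)
    rw [hn4 (lam χ) χ (ψ χ) (hψ χ hχ) v, mul_pow, Real.sq_sqrt (hpos 𝔏).le]
  have h1 := hms 𝔮 h𝔮 ((PK K →₀ ℕ) × (PK K →₀ ℕ)) J nn (fun j => (cc (NK K) L j : ℂ)) D hD0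
    hn2 hn3 E lam ψ hψ u'
  set S : ℝ := ∑ j ∈ J, ‖((cc (NK K) L j : ℝ) : ℂ)‖ with hS
  set φ : ℝ := (Nat.card (𝓞 K ⧸ 𝔮)ˣ : ℝ) with hφ
  have hφ0 : 0 ≤ φ := Nat.cast_nonneg _
  -- first term
  have hdiag := diag_eq (K := K) h𝔮 hL0 hn1 hn2 (v - 32 * L)
  rw [← hu'2] at hdiag
  set Dg : ℝ := Diag (NK K) (kg K Real.pi) L (QK 𝔮) (v - 32 * L) with hDg
  have hDg0 : 0 ≤ Dg := by
    rw [← hdiag]
    refine mul_nonneg (hpos 𝔏).le (mul_nonneg (Real.exp_pos _).le (tsum_nonneg fun 𝔠 => ?_))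
    exact mul_nonneg (by positivity) (mfk_kg_nonneg _ _)
  -- the size of S
  have hcc : ∀ j, ‖((cc (NK K) L j : ℝ) : ℂ)‖ ≤ 1 := by
    intro j
    rw [Complex.norm_real, Real.norm_eq_abs, cc, abs_div, abs_mul, abs_of_pos (hpos j.2),
      div_le_one (hpos j.2)]
    calc |be (NK K) L j.1| * |be (NK K) L j.2| ≤ 1 * 1 :=
          mul_le_mul (be_abs two_le_NK hL0 j.1) (be_abs two_le_NK hL0 j.2) (abs_nonneg _)
            zero_le_one
      _ ≤ _ := by rw [one_mul]; exact hone j.2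
  have hSle : S ≤ Cb ^ 2 * Real.exp (4 * L) := by
    have h2 : S ≤ J.card := by
      calc S ≤ ∑ j ∈ J, (1 : ℝ) := Finset.sum_le_sum (fun j _ => hcc j)
        _ = J.card := by simp
    have h3 : (J.card : ℝ) ≤ ((ball (NK K) (Real.exp L)).card : ℝ) ^ 2 := by
      have h4 : J.card ≤ (ball (NK K) (Real.exp L) ×ˢ ball (NK K) (Real.exp L)).card := by
        classical
        refine Finset.card_le_card (fun x hx => ?_)
        rw [hJ] at hx
        unfold JJ at hx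
        rw [Finset.mem_filter] at hx
        exact hx.1
      rw [Finset.card_product] at h4
      rw [sq]
      exact_mod_cast h4
    have h5 := hball (Real.exp L) (Real.one_le_exp hL0.le)
    calc S ≤ ((ball (NK K) (Real.exp L)).card : ℝ) ^ 2 := h2.trans h3
      _ ≤ (Cb * Real.exp L ^ 2) ^ 2 := pow_le_pow_left₀ (by positivity) h5 2
      _ = Cb ^ 2 * Real.exp (4 * L) := by
          have : Real.exp (4 * L) = Real.exp L ^ 4 := by
            rw [← Real.exp_nat_mul]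
            norm_num
          rw [this]
          ring
  have hS0 : 0 ≤ S := Finset.sum_nonneg (fun j _ => norm_nonneg _)
  -- second term
  have hcond : 0 < HZ.cond 𝔮 := by
    by_contra hcon
    push Not at hcon
    have h2 : HZ.cond 𝔮 = 0 := le_antisymm hcon (by
      rw [HZ.cond]
      positivity)
    rw [h2, Real.log_zero] at hLc
    linarith
  have hNq : (Ideal.absNorm 𝔮 : ℝ) = Real.exp (64 * L) / d := by
    rw [hLc, Real.exp_log hcond, HZ.cond, ← hd]
    field_simp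
  have he1 : (nm (NK K) 𝔏 : ℝ) * Real.exp u' = Real.exp (v - 32 * L) := by
    rw [hu'2, Real.exp_sub, lK, Real.exp_log (hpos 𝔏)]
    have := (hpos 𝔏).ne'
    field_simp
  have he2 : Real.exp u' * D = Real.exp (v - 34 * L) := by
    calc Real.exp u' * D = (nm (NK K) 𝔏 * Real.exp u') * Real.exp (-(2 * L)) := by
          rw [hD]; ring
      _ = Real.exp (v - 34 * L) := by
          rw [he1, ← Real.exp_add]
          congr 1
          ring
  have he3 : Real.exp (-u') / D = Real.exp (34 * L - v) := by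
    rw [div_eq_iff hD0.ne', Real.exp_neg]
    have h2 : Real.exp (34 * L - v) = (Real.exp (v - 34 * L))⁻¹ := by
      rw [← Real.exp_neg]
      congr 1
      ring
    rw [h2, ← he2, mul_inv]
    field_simp
  set y : ℝ := v + 30 * L with hy
  have he4 : Real.exp u' * Ideal.absNorm 𝔮 * D = Real.exp y / d := by
    calc Real.exp u' * Ideal.absNorm 𝔮 * D = (Real.exp u' * D) * Ideal.absNorm 𝔮 := by ring
      _ = Real.exp y / d := by
          rw [he2, hNq, mul_div_assoc', ← Real.exp_add]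
          congr 2
          rw [hy]
          ring
  set t : ℝ := Real.exp y / d with ht
  have ht0 : 0 < t := by positivity
  have hcube := hMt t ht0
  set X : ℝ := Real.exp (-c1 * t ^ (2 / (n : ℝ))) with hX
  have hX0 : 0 < X := Real.exp_pos _
  have hsecond : (nm (NK K) 𝔏 : ℝ) * (C1 * S ^ 2 * (Real.exp u' *
      (1 + Real.exp (-u') / D) ^ 2 * Real.exp (-c1 * (Real.exp u' * Ideal.absNorm 𝔮 * D) ^
        (2 / (n : ℝ))))) ≤ C2 * Real.exp (-v) / L := by
    rw [he4, he3]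
    have h2 : (1 + Real.exp (34 * L - v)) ^ 2 ≤ 4 * Real.exp (68 * L) := by
      have h3 : Real.exp (34 * L - v) ≤ Real.exp (34 * L) := Real.exp_le_exp.mpr (by linarith)
      have h4 : 1 ≤ Real.exp (34 * L) := Real.one_le_exp (by linarith)
      have h5 : 1 + Real.exp (34 * L - v) ≤ 2 * Real.exp (34 * L) := by linarith
      calc (1 + Real.exp (34 * L - v)) ^ 2 ≤ (2 * Real.exp (34 * L)) ^ 2 :=
            pow_le_pow_left₀ (by positivity) h5 2
        _ = 4 * Real.exp (68 * L) := by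
            rw [mul_pow, ← Real.exp_nat_mul]
            push_cast
            norm_num
            ring_nf
    have h3 : S ^ 2 ≤ Cb ^ 4 * Real.exp (8 * L) := by
      calc S ^ 2 ≤ (Cb ^ 2 * Real.exp (4 * L)) ^ 2 := pow_le_pow_left₀ hS0 hSle 2
        _ = Cb ^ 4 * Real.exp (8 * L) := by
            rw [mul_pow, ← Real.exp_nat_mul]
            push_cast
            ring_nf
    have hLy : L ≤ Real.exp y := by
      have := Real.add_one_le_exp y
      rw [hy] at this ⊢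
      linarith
    calc (nm (NK K) 𝔏 : ℝ) * (C1 * S ^ 2 * (Real.exp u' * (1 + Real.exp (34 * L - v)) ^ 2 *
          Real.exp (-c1 * t ^ (2 / (n : ℝ)))))
        = C1 * S ^ 2 * (Real.exp (v - 32 * L) * (1 + Real.exp (34 * L - v)) ^ 2 * X) := by
          rw [← he1, hX]
          ring
      _ ≤ C1 * (Cb ^ 4 * Real.exp (8 * L)) *
          (Real.exp (v - 32 * L) * (4 * Real.exp (68 * L)) * X) := by
          gcongr
      _ ≤ 4 * C1 * Cb ^ 4 * (Real.exp (-v) * Real.exp (2 * y) * X) := by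
          have h6 : Real.exp (8 * L) * (Real.exp (v - 32 * L) * Real.exp (68 * L)) ≤
              Real.exp (-v) * Real.exp (2 * y) := by
            rw [← Real.exp_add, ← Real.exp_add, ← Real.exp_add]
            apply Real.exp_le_exp.mpr
            rw [hy]
            linarith
          calc C1 * (Cb ^ 4 * Real.exp (8 * L)) *
              (Real.exp (v - 32 * L) * (4 * Real.exp (68 * L)) * X)
              = 4 * C1 * Cb ^ 4 *
                ((Real.exp (8 * L) * (Real.exp (v - 32 * L) * Real.exp (68 * L))) * X) := by ring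
            _ ≤ _ := by gcongr
      _ ≤ 4 * C1 * Cb ^ 4 * (Real.exp (-v) * (Real.exp (3 * y) / L) * X) := by
          have h7 : Real.exp (2 * y) ≤ Real.exp (3 * y) / L := by
            rw [le_div_iff₀ hL0]
            calc Real.exp (2 * y) * L ≤ Real.exp (2 * y) * Real.exp y :=
                  mul_le_mul_of_nonneg_left hLy (Real.exp_pos _).le
              _ = Real.exp (3 * y) := by
                  rw [← Real.exp_add]
                  congr 1
                  ring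
          gcongr
      _ = 4 * C1 * Cb ^ 4 * d ^ 3 * (t ^ 3 * X) * Real.exp (-v) / L := by
          have h8 : Real.exp (3 * y) = d ^ 3 * t ^ 3 := by
            have h9 : Real.exp (3 * y) = Real.exp y ^ 3 := by
              rw [← Real.exp_nat_mul]
              norm_num
            rw [ht, div_pow, h9]
            field_simp
          rw [h8]
          ring
      _ ≤ 4 * C1 * Cb ^ 4 * d ^ 3 * M * Real.exp (-v) / L := by
          gcongr
      _ = C2 * Real.exp (-v) / L := by rw [hC2]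
  rw [hsq]
  have hnm0 := (hpos 𝔏).le
  calc (nm (NK K) 𝔏 : ℝ) * ∑ χ ∈ E, ‖Dser (fun 𝔠 => bn 𝔮 J nn
        (fun j => (cc (NK K) L j : ℂ)) 𝔠 * ψ χ 𝔠) (Gf κ (lam χ)) u'‖ ^ 2
      ≤ (nm (NK K) 𝔏 : ℝ) * (φ * (C1 * (Real.exp u' * ∑' 𝔠 : Ideal (𝓞 K),
          ‖bn 𝔮 J nn (fun j => (cc (NK K) L j : ℂ)) 𝔠‖ ^ 2 *
            kg K Real.pi (u' + Real.log (Ideal.absNorm 𝔠))) +
          C1 * S ^ 2 * (Real.exp u' * (1 + Real.exp (-u') / D) ^ 2 *
            Real.exp (-c1 * (Real.exp u' * Ideal.absNorm 𝔮 * D) ^ (2 / (n : ℝ)))))) :=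
        mul_le_mul_of_nonneg_left h1 hnm0
    _ = φ * (C1 * Dg + (nm (NK K) 𝔏 : ℝ) * (C1 * S ^ 2 * (Real.exp u' *
          (1 + Real.exp (-u') / D) ^ 2 * Real.exp (-c1 * (Real.exp u' * Ideal.absNorm 𝔮 * D) ^
            (2 / (n : ℝ)))))) := by
        rw [← hdiag]
        ring
    _ ≤ φ * ((C1 + C2) * Dg + (C1 + C2) * Real.exp (-v) / L) := by
        refine mul_le_mul_of_nonneg_left (add_le_add ?_ ?_) hφ0
        · exact mul_le_mul_of_nonneg_right (by linarith) hDg0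
        · refine hsecond.trans ?_
          refine div_le_div_of_nonneg_right ?_ hL0.le
          exact mul_le_mul_of_nonneg_right (by linarith) (Real.exp_pos _).le

theorem mean_fK64 : type_of% @mean_fK64_pr := @mean_fK64_pr

end Pool.Agent.NL
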