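import Pool.Agent.Lib_helper41.NL.Defs

/-! Block SQ64 (helper30; copies of blocks of helper92 with other constants) -/

set_option autoImplicit false

namespace Pool.Agent.NL

open Complex MeasureTheory Filter Topology Set
open Pool.Agent.AS

variable {P : Type}

open scoped Classical in
theorem sq64_harm {N : P → ℕ} (hN : Good N) : ∃ C : ℝ, 0 ≤ C ∧ ∀ (L : ℝ) (Q : Finset P), 1 ≤ L →
    ∑ p ∈ Q, Real.log (N p) ≤ 64 * L →
    ∑ e ∈ (ball N (Real.exp (2 * L))).filter (fun r => Cop Q r), 1 / (nm N e : ℝ) ≤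
      C * L * ph N Q := by
  obtain ⟨C, hC, h⟩ := rsum1 hN
  refine ⟨C * Real.exp 66, by positivity, fun L Q hL hQ => ?_⟩
  have hL0 : (0 : ℝ) < L := by linarith
  set σ : ℝ := 1 / L with hσ
  have hσ0 : 0 < σ := by positivity
  have hσ3 : σ ≤ 3 := by
    rw [hσ, div_le_iff₀ hL0]
    linarith
  obtain ⟨hs, hle⟩ := h Q σ hσ0 hσ3
  have h1 : ∀ e ∈ (ball N (Real.exp (2 * L))).filter (fun r => Cop Q r), 1 / (nm N e : ℝ) ≤
      Real.exp 2 * (if Cop Q e then (nm N e : ℝ) ^ (-1 - σ) else 0) := by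
    intro e he
    obtain ⟨he1, he2⟩ := Finset.mem_filter.mp he
    rw [mem_ball hN] at he1
    have he0 : (0 : ℝ) < nm N e := by exact_mod_cast nm_pos hN.two_le e
    rw [if_pos he2]
    have h2 : (1 : ℝ) / nm N e = (nm N e : ℝ) ^ σ * (nm N e : ℝ) ^ (-1 - σ) := by
      rw [← Real.rpow_add he0, show σ + (-1 - σ) = -1 by ring, Real.rpow_neg_one, one_div]
    rw [h2]
    refine mul_le_mul_of_nonneg_right ?_ (Real.rpow_nonneg he0.le _)
    calc (nm N e : ℝ) ^ σ ≤ (Real.exp (2 * L)) ^ σ := Real.rpow_le_rpow he0.le he1 hσ0.le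
      _ = Real.exp ((2 * L) * σ) := by rw [← Real.exp_mul]
      _ = Real.exp 2 := by
        congr 1
        rw [hσ]
        field_simp
  have h2 : ∑ e ∈ (ball N (Real.exp (2 * L))).filter (fun r => Cop Q r),
      (if Cop Q e then (nm N e : ℝ) ^ (-1 - σ) else 0) ≤
      ∑' g : P →₀ ℕ, (if Cop Q g then (nm N g : ℝ) ^ (-1 - σ) else 0) := by
    refine hs.sum_le_tsum _ (fun m _ => ?_)
    split_ifs
    · exact Real.rpow_nonneg (Nat.cast_nonneg _) _
    · exact le_refl _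
  have h3 : Real.exp (σ * ∑ p ∈ Q, Real.log (N p)) ≤ Real.exp 64 := by
    apply Real.exp_le_exp.mpr
    calc σ * ∑ p ∈ Q, Real.log (N p) ≤ σ * (64 * L) := mul_le_mul_of_nonneg_left hQ hσ0.le
      _ = 64 := by
        rw [hσ]
        field_simp
  have hph : 0 ≤ ph N Q := by
    refine Finset.prod_nonneg fun p _ => ?_
    have h2 : (1 : ℝ) ≤ N p := by exact_mod_cast (by linarith [hN.two_le p] : 1 ≤ N p)
    have h3 : ((N p : ℝ))⁻¹ ≤ 1 := inv_le_one_of_one_le₀ h2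
    linarith
  calc ∑ e ∈ (ball N (Real.exp (2 * L))).filter (fun r => Cop Q r), 1 / (nm N e : ℝ)
      ≤ ∑ e ∈ (ball N (Real.exp (2 * L))).filter (fun r => Cop Q r),
        Real.exp 2 * (if Cop Q e then (nm N e : ℝ) ^ (-1 - σ) else 0) := Finset.sum_le_sum h1
    _ = Real.exp 2 * ∑ e ∈ (ball N (Real.exp (2 * L))).filter (fun r => Cop Q r),
        (if Cop Q e then (nm N e : ℝ) ^ (-1 - σ) else 0) := by rw [Finset.mul_sum]
    _ ≤ Real.exp 2 * (C / σ * ph N Q * Real.exp (σ * ∑ p ∈ Q, Real.log (N p))) :=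
        mul_le_mul_of_nonneg_left (h2.trans hle) (Real.exp_pos _).le
    _ ≤ Real.exp 2 * (C / σ * ph N Q * Real.exp 64) := by
        refine mul_le_mul_of_nonneg_left ?_ (Real.exp_pos _).le
        exact mul_le_mul_of_nonneg_left h3 (by positivity)
    _ = C * Real.exp 66 * L * ph N Q := by
        have h5 : Real.exp 66 = Real.exp 2 * Real.exp 64 := by
          rw [← Real.exp_add]
          norm_num
        rw [h5, hσ, div_div_eq_mul_div, div_one]
        ring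

open scoped Classical in
theorem sq64_rsum3 {N : P → ℕ} (hN : Good N) : ∃ C : ℝ, 0 ≤ C ∧ ∀ (L : ℝ) (Q : Finset P), 1 ≤ L →
    ∑ p ∈ Q, Real.log (N p) ≤ 64 * L →
    ∑ r ∈ (ball N (Real.exp (2 * L))).filter (fun r => Cop Q r),
      1 / (nm N r : ℝ) * ((ph N r.support)⁻¹) ^ 4 ≤ C * L * ph N Q := by
  obtain ⟨C₂, hC₂, h2⟩ := rsum2 hN
  obtain ⟨C₁, hC₁, h1⟩ := sq64_harm hN
  set B : ℝ := ∑' d : P →₀ ℕ, (nm N d : ℝ) ^ (-1 - (1 / 2 : ℝ)) with hB
  have hBs : Summable (fun d : P →₀ ℕ => (nm N d : ℝ) ^ (-1 - (1 / 2 : ℝ))) := by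
    have h := hN.summable (1 / 2) (by norm_num)
    have h1 : (-(1 + (1 / 2 : ℝ))) = -1 - 1 / 2 := by ring
    rwa [h1] at h
  have hB0 : 0 ≤ B := tsum_nonneg (fun d => Real.rpow_nonneg (Nat.cast_nonneg _) _)
  refine ⟨C₂ * (B * C₁), by positivity, fun L Q hL hQ => ?_⟩
  have h3 : ∀ r ∈ (ball N (Real.exp (2 * L))).filter (fun r => Cop Q r),
      1 / (nm N r : ℝ) * ((ph N r.support)⁻¹) ^ 4 ≤
        C₂ * (1 / (nm N r : ℝ) * ∑ d ∈ Finset.Iic r, (nm N d : ℝ) ^ (-(1 / 2) : ℝ)) := by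
    intro r hr
    calc 1 / (nm N r : ℝ) * ((ph N r.support)⁻¹) ^ 4
        ≤ 1 / (nm N r : ℝ) * (C₂ * ∑ d ∈ Finset.Iic r, (nm N d : ℝ) ^ (-(1 / 2) : ℝ)) :=
          mul_le_mul_of_nonneg_left (h2 r) (by positivity)
      _ = _ := by ring
  have h5 : ∑ d ∈ ball N (Real.exp (2 * L)), (nm N d : ℝ) ^ (-1 - (1 / 2 : ℝ)) ≤ B :=
    hBs.sum_le_tsum _ (fun d _ => Real.rpow_nonneg (Nat.cast_nonneg _) _)
  have h6 : 0 ≤ ∑ e ∈ (ball N (Real.exp (2 * L))).filter (fun r => Cop Q r), 1 / (nm N e : ℝ) :=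
    Finset.sum_nonneg (fun e _ => by positivity)
  calc ∑ r ∈ (ball N (Real.exp (2 * L))).filter (fun r => Cop Q r),
      1 / (nm N r : ℝ) * ((ph N r.support)⁻¹) ^ 4
      ≤ ∑ r ∈ (ball N (Real.exp (2 * L))).filter (fun r => Cop Q r),
        C₂ * (1 / (nm N r : ℝ) * ∑ d ∈ Finset.Iic r, (nm N d : ℝ) ^ (-(1 / 2) : ℝ)) :=
        Finset.sum_le_sum h3
    _ = C₂ * ∑ r ∈ (ball N (Real.exp (2 * L))).filter (fun r => Cop Q r),
        (1 / (nm N r : ℝ) * ∑ d ∈ Finset.Iic r, (nm N d : ℝ) ^ (-(1 / 2) : ℝ)) := by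
        rw [Finset.mul_sum]
    _ ≤ C₂ * (B * (C₁ * L * ph N Q)) := by
        refine mul_le_mul_of_nonneg_left ?_ hC₂
        refine (rsum3_swap hN _ Q).trans ?_
        exact mul_le_mul h5 (h1 L Q hL hQ) h6 hB0
    _ = C₂ * (B * C₁) * L * ph N Q := by ring

theorem Sq_le64_pr {N : P → ℕ} (hN : Good N) : ∃ C : ℝ, 0 ≤ C ∧ ∀ (L : ℝ) (Q : Finset P) (s : ℝ),
    1 ≤ L → ∑ p ∈ Q, Real.log (N p) ≤ 64 * L → 0 ≤ s → s ≤ 1 / L →
      Sq N L Q s ≤ C * (ph N Q)⁻¹ / L := by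
  classical
  obtain ⟨C₁, hC₁, hY⟩ := YY_le hN
  obtain ⟨C₂, hC₂, hR⟩ := sq64_rsum3 hN
  refine ⟨Real.exp 2 * C₁ ^ 2 * C₂, by positivity, fun L Q s hL hQ hs hs1 => ?_⟩
  have hL0 : 0 < L := by linarith
  have hph : 0 < ph N Q := sb_ph_pos hN.two_le Q
  rw [Sq_eq hN L Q s]
  calc ∑ r ∈ (ball N (Real.exp (2 * L))).filter (fun r => Cop Q r), Jt N s r * YY N L Q s r ^ 2
      ≤ ∑ r ∈ (ball N (Real.exp (2 * L))).filter (fun r => Cop Q r),
          (C₁ / L * (ph N Q)⁻¹) ^ 2 * Real.exp 2 *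
            (1 / (nm N r : ℝ) * ((ph N r.support)⁻¹) ^ 4) := by
        apply Finset.sum_le_sum
        intro r hr
        obtain ⟨hr1, hr2⟩ := Finset.mem_filter.1 hr
        exact sb_term hN hL hs hs1 hr1 (hY L Q r s hL hr2 hs hs1)
    _ = (C₁ / L * (ph N Q)⁻¹) ^ 2 * Real.exp 2 *
          ∑ r ∈ (ball N (Real.exp (2 * L))).filter (fun r => Cop Q r),
            1 / (nm N r : ℝ) * ((ph N r.support)⁻¹) ^ 4 := by rw [Finset.mul_sum]
    _ ≤ (C₁ / L * (ph N Q)⁻¹) ^ 2 * Real.exp 2 * (C₂ * L * ph N Q) := by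
        apply mul_le_mul_of_nonneg_left _ (by positivity)
        convert hR L Q hL hQ
    _ = Real.exp 2 * C₁ ^ 2 * C₂ * (ph N Q)⁻¹ / L := by
        field_simp

open Classical in
theorem sq64_full {N : P → ℕ} (hN : Good N) {k : ℝ → ℝ} {ρ : ℝ} (hk : Kern N k ρ) (L : ℝ)
    (Q : Finset P) {s : ℝ} (hs : 0 < s) (hs1 : s ≤ 1) :
    Integrable (fun v : ℝ => Real.exp (s * v) * Diag N k L Q (v - 32 * L)) ∧
    ∫ v : ℝ, Real.exp (s * v) * Diag N k L Q (v - 32 * L) =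
      Real.exp (s * (32 * L)) * ((∫ w : ℝ, Real.exp ((1 + s) * w) * k w) *
        ∑' g : P →₀ ℕ, (if Cop Q g then (nm N g : ℝ) ^ (-1 - s) else 0)) * Sq N L Q s := by
  obtain ⟨hWi, hWv⟩ := DIAGI_WW hN hk Q hs hs1
  rw [← hWv]
  set H : ℝ → ℝ := fun w => Real.exp ((1 + s) * w) * WW N k Q w with hH
  have hpos : ∀ g : P →₀ ℕ, (0 : ℝ) < nm N g := fun g => by
    exact_mod_cast nm_pos hN.two_le g
  set aa : (P →₀ ℕ) × (P →₀ ℕ) → (P →₀ ℕ) × (P →₀ ℕ) → ℝ := fun j j' =>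
    ((nm N (gg j j') : ℝ) / (nm N j.1 * nm N j'.1)) with haa
  have haa0 : ∀ j j', 0 < aa j j' := by
    intro j j'
    have h1 := hpos j.1
    have h2 := hpos j'.1
    have h3 := hpos (gg j j')
    simp only [haa]
    positivity
  have hlog : ∀ j j', Real.log ((nm N j.1 : ℝ) * nm N j'.1 / nm N (gg j j')) =
      -Real.log (aa j j') := by
    intro j j'
    simp only [haa]
    rw [← Real.log_inv, inv_div]
  have hterm : ∀ j j' (v : ℝ), Real.exp (s * v) * (Real.exp (v - 32 * L) *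
      WW N k Q (v - 32 * L + Real.log ((nm N j.1 : ℝ) * nm N j'.1 / nm N (gg j j')))) =
      (Real.exp (s * (32 * L)) * (aa j j') ^ (1 + s)) *
        H (v + (-(32 * L) - Real.log (aa j j'))) := by
    intro j j' v
    simp only [hH]
    rw [hlog, Real.rpow_def_of_pos (haa0 j j')]
    have e1 : v - 32 * L + -Real.log (aa j j') = v + (-(32 * L) - Real.log (aa j j')) := by ring
    rw [e1]
    set W := WW N k Q (v + (-(32 * L) - Real.log (aa j j'))) with hW
    rw [← mul_assoc, ← mul_assoc, ← Real.exp_add, ← Real.exp_add, ← Real.exp_add]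
    congr 2
    ring
  have hfun : (fun v : ℝ => Real.exp (s * v) * Diag N k L Q (v - 32 * L)) = fun v : ℝ =>
      ∑ j ∈ JJ N L Q, ∑ j' ∈ JJ N L Q, (cc N L j * cc N L j') *
        ((Real.exp (s * (32 * L)) * (aa j j') ^ (1 + s)) *
          H (v + (-(32 * L) - Real.log (aa j j')))) := by
    funext v
    unfold Diag
    rw [Finset.mul_sum, Finset.mul_sum]
    refine Finset.sum_congr rfl (fun j _ => ?_)
    rw [Finset.mul_sum, Finset.mul_sum]
    refine Finset.sum_congr rfl (fun j' _ => ?_)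
    rw [← hterm]
    ring
  have hint : ∀ j ∈ JJ N L Q, ∀ j' ∈ JJ N L Q, Integrable (fun v : ℝ =>
      (cc N L j * cc N L j') * ((Real.exp (s * (32 * L)) * (aa j j') ^ (1 + s)) *
          H (v + (-(32 * L) - Real.log (aa j j'))))) := by
    intro j hj j' hj'
    exact ((hWi.comp_add_right _).const_mul _).const_mul _
  rw [hfun]
  refine ⟨integrable_finsetSum _ (fun j hj => integrable_finsetSum _ (fun j' hj' =>
    hint j hj j' hj')), ?_⟩
  rw [integral_finsetSum _ (fun j hj => integrable_finsetSum _ (fun j' hj' => hint j hj j' hj'))]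
  unfold Sq
  rw [Finset.mul_sum]
  refine Finset.sum_congr rfl (fun j hj => ?_)
  rw [integral_finsetSum _ (fun j' hj' => hint j hj j' hj'), Finset.mul_sum]
  refine Finset.sum_congr rfl (fun j' hj' => ?_)
  rw [integral_const_mul, integral_const_mul, integral_add_right_eq_self H]
  simp only [haa]
  ring

theorem diag_int64_pr {N : P → ℕ} (hN : Good N) {k : ℝ → ℝ} {ρ : ℝ} (hk : Kern N k ρ) :
    ∃ C : ℝ, 0 ≤ C ∧ ∀ (L : ℝ) (Q : Finset P), 1 ≤ L →
      ∑ p ∈ Q, Real.log (N p) ≤ 64 * L →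
        IntegrableOn (fun v => Diag N k L Q (v - 32 * L)) (Set.Ioi 0) ∧
          ∫ v in Set.Ioi (0 : ℝ), Diag N k L Q (v - 32 * L) ≤ C := by
  classical
  obtain ⟨C₁, hC₁, hS⟩ := Sq_le64_pr hN
  obtain ⟨K, hK, hker⟩ := DIAGI_ker hk
  obtain ⟨C₂, hC₂, hr⟩ := rsum1 hN
  refine ⟨Real.exp 32 * (K * (C₂ * Real.exp 64)) * C₁, by positivity, fun L Q hL hQL => ?_⟩
  have hL0 : (0 : ℝ) < L := by linarith
  set s : ℝ := 1 / L with hs
  have hs0 : 0 < s := by positivity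
  have hs2 : s ≤ 1 := by
    rw [hs, div_le_one hL0]
    exact hL
  obtain ⟨hint, hval⟩ := sq64_full hN hk L Q hs0 hs2
  have hnn : ∀ v : ℝ, 0 ≤ Diag N k L Q (v - 32 * L) := fun v => diag_nonneg hN hk L Q _
  have hexp : ∀ v ∈ Ioi (0 : ℝ), Diag N k L Q (v - 32 * L) ≤
      Real.exp (s * v) * Diag N k L Q (v - 32 * L) := by
    intro v hv
    have hv0 : (0 : ℝ) < v := hv
    have h1 : 1 ≤ Real.exp (s * v) := Real.one_le_exp (by positivity)
    have := mul_le_mul_of_nonneg_right h1 (hnn v)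
    linarith
  have hint2 : IntegrableOn (fun v => Diag N k L Q (v - 32 * L)) (Set.Ioi 0) := by
    have hmeas : AEStronglyMeasurable (fun v : ℝ => Diag N k L Q (v - 32 * L)) := by
      have h1 : (fun v : ℝ => Diag N k L Q (v - 32 * L)) = fun v : ℝ =>
          Real.exp (-(s * v)) * (Real.exp (s * v) * Diag N k L Q (v - 32 * L)) := by
        funext v
        rw [← mul_assoc, ← Real.exp_add]
        simp
      rw [h1]
      refine AEStronglyMeasurable.mul ?_ hint.aestronglyMeasurable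
      exact (Continuous.aestronglyMeasurable (by fun_prop))
    refine Integrable.mono' (hint.integrableOn (s := Ioi 0)) hmeas.restrict ?_
    refine (ae_restrict_iff' measurableSet_Ioi).mpr (ae_of_all _ (fun v hv => ?_))
    rw [Real.norm_of_nonneg (hnn v)]
    exact hexp v hv
  refine ⟨hint2, ?_⟩
  have hle1 : ∫ v in Ioi (0 : ℝ), Diag N k L Q (v - 32 * L) ≤
      ∫ v : ℝ, Real.exp (s * v) * Diag N k L Q (v - 32 * L) := by
    refine (setIntegral_mono_on hint2 hint.integrableOn measurableSet_Ioi hexp).trans ?_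
    exact setIntegral_le_integral hint (ae_of_all _ (fun v => mul_nonneg (Real.exp_pos _).le (hnn v)))
  refine hle1.trans ?_
  rw [hval]
  set Z : ℝ := ∑' g : P →₀ ℕ, (if Cop Q g then (nm N g : ℝ) ^ (-1 - s) else 0) with hZ
  have hZ0 : 0 ≤ Z := by
    refine tsum_nonneg (fun m => ?_)
    split_ifs
    · positivity
    · exact le_refl _
  have hph : 0 < ph N Q := by
    unfold ph
    refine Finset.prod_pos fun p _ => ?_
    have h : (2 : ℝ) ≤ N p := by exact_mod_cast hN.two_le p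
    have h2 : ((N p : ℝ))⁻¹ ≤ 2⁻¹ := inv_anti₀ (by norm_num) h
    linarith
  have hsL : s * L = 1 := by
    rw [hs]
    field_simp
  have hZ1 : Z ≤ C₂ * L * ph N Q * Real.exp 64 := by
    refine (hr Q s hs0 (by linarith)).2.trans ?_
    have e1 : C₂ / s = C₂ * L := by
      rw [hs]
      field_simp
    rw [e1]
    refine mul_le_mul_of_nonneg_left ?_ (by positivity)
    rw [Real.exp_le_exp]
    calc s * ∑ p ∈ Q, Real.log (N p) ≤ s * (64 * L) := mul_le_mul_of_nonneg_left hQL hs0.le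
      _ = 64 * (s * L) := by ring
      _ = 64 := by rw [hsL, mul_one]
  obtain ⟨-, hk1⟩ := hker s hs0.le hs2
  have hk0 : 0 ≤ ∫ w : ℝ, Real.exp ((1 + s) * w) * k w :=
    integral_nonneg fun w => mul_nonneg (Real.exp_pos _).le (hk.nonneg w)
  have hSq := hS L Q s hL hQL hs0.le le_rfl
  have h16 : Real.exp (s * (32 * L)) = Real.exp 32 := by
    congr 1
    calc s * (32 * L) = 32 * (s * L) := by ring
      _ = 32 := by rw [hsL, mul_one]
  rw [h16]
  calc Real.exp 32 * ((∫ w : ℝ, Real.exp ((1 + s) * w) * k w) * Z) * Sq N L Q s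
      ≤ Real.exp 32 * ((∫ w : ℝ, Real.exp ((1 + s) * w) * k w) * Z) *
          (C₁ * (ph N Q)⁻¹ / L) :=
        mul_le_mul_of_nonneg_left hSq (by positivity)
    _ ≤ Real.exp 32 * (K * (C₂ * L * ph N Q * Real.exp 64)) * (C₁ * (ph N Q)⁻¹ / L) := by
        refine mul_le_mul_of_nonneg_right ?_ (by positivity)
        refine mul_le_mul_of_nonneg_left ?_ (Real.exp_pos _).le
        exact mul_le_mul hk1 hZ1 hZ0 hK
    _ = Real.exp 32 * (K * (C₂ * Real.exp 64)) * C₁ := by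
        field_simp

theorem Sq_le64 : type_of% @Sq_le64_pr := @Sq_le64_pr

theorem diag_int64 : type_of% @diag_int64_pr := @diag_int64_pr

end Pool.Agent.NL
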