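import Pool.Agent.Lib_helper41.NL.Defs
import Pool.Agent.Lib_helper92.KSA.FinB
import Pool.Agent.Lib_helper41.NLF.SQ64
import Pool.Agent.Lib_helper41.NLF.MF64

/-!
# HeckeNearLine, block EN1: the energy of `DK` for both lengths
-/

namespace Pool.Agent.NL

open NumberField NumberField.InfinitePlace NumberField.Units Complex MeasureTheory Filter Topology
open Pool.Agent.HZ Pool.Agent.AS Pool.Agent.KS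
open Pool.Agent.ABS (Nice LData Piece oddZ)
open scoped ENNReal

variable {K : Type} [Field K] [NumberField K]

theorem EN1_one {𝔮 : Ideal (𝓞 K)} {κ : InfinitePlace K → ℤ}
    (hκ : ∀ w : InfinitePlace K, w.IsReal → κ w = 0 ∨ κ w = 1) {lam : InfinitePlace K → ℝ}
    (hlam : ∑ w, lam w = 0) (h𝔮 : 𝔮 ≠ ⊥) (h𝔮' : 𝔮 ≠ ⊤)
    {χ : MulChar (𝓞 K ⧸ 𝔮) ℂ} (hχ : IsPrim 𝔮 χ) {ψ : Ideal (𝓞 K) →* ℂ}
    (hψ : IsHecke 𝔮 κ lam χ ψ) (L : ℝ) :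
    Integrable (fun v => ‖fK L (Real.log (cond 𝔮)) κ lam ψ v‖ ^ 2) ∧
      ∫ u, ‖DK L κ lam ψ u‖ ^ 2 =
        2 * ∫ v in Set.Ioi (0 : ℝ), ‖fK L (Real.log (cond 𝔮)) κ lam ψ v‖ ^ 2 := by
  obtain ⟨C₀, hC₀, hm⟩ := mellin_kint (K := K)
  obtain ⟨X, _, hXA, hXd⟩ := exists_ldata hC₀ hm hκ hlam h𝔮 h𝔮' hχ hψ
  have hC₀' : (C₀ : ℂ) ≠ 0 := by exact_mod_cast hC₀.ne'
  have hnC₀ : ‖(C₀ : ℂ)⁻¹‖ = C₀⁻¹ := by
    rw [norm_inv, Complex.norm_real, Real.norm_of_nonneg hC₀.le]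
  set P : Piece := X.piece (ball (NK K) (Real.exp L)) (bK L ψ) lK
      (fun u => (C₀ : ℂ)⁻¹ * gK κ lam u) ((gK_nice κ lam).const_mul _) with hP
  have hPf : ∀ v, ‖P.f v‖ ^ 2 = C₀⁻¹ ^ 2 * ‖fK L (Real.log (cond 𝔮)) κ lam ψ v‖ ^ 2 := by
    intro v
    have e : P.f v = (C₀ : ℂ)⁻¹ * fK L (Real.log (cond 𝔮)) κ lam ψ v := piece_f X hXA hXd v
    rw [e, norm_mul, hnC₀, mul_pow]
  have hPD : ∀ u, ‖P.D u‖ ^ 2 = C₀⁻¹ ^ 2 * ‖DK L κ lam ψ u‖ ^ 2 := by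
    intro u
    have e : P.D u = (C₀ : ℂ)⁻¹ * DK L κ lam ψ u := piece_D X hXd u
    rw [e, norm_mul, hnC₀, mul_pow]
  have hD0 : C₀⁻¹ ^ 2 ≠ 0 := by positivity
  have hi := P.nf.sq
  have he := P.energy_half
  simp only [hPf] at hi he
  simp only [hPD] at he
  rw [integral_const_mul, integral_const_mul] at he
  refine ⟨?_, ?_⟩
  · have := hi.const_mul (C₀⁻¹ ^ 2)⁻¹
    refine this.congr (Eventually.of_forall fun v => ?_)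
    show (C₀⁻¹ ^ 2)⁻¹ * (C₀⁻¹ ^ 2 * ‖fK L (Real.log (cond 𝔮)) κ lam ψ v‖ ^ 2) = _
    rw [← mul_assoc, inv_mul_cancel₀ hD0, one_mul]
  · apply mul_left_cancel₀ hD0
    rw [he]; ring

theorem EN1_sum {𝔮 : Ideal (𝓞 K)} {κ : InfinitePlace K → ℤ}
    {E : Finset (MulChar (𝓞 K ⧸ 𝔮) ℂ)} {lam : MulChar (𝓞 K ⧸ 𝔮) ℂ → InfinitePlace K → ℝ}
    {ψ : MulChar (𝓞 K ⧸ 𝔮) ℂ → (Ideal (𝓞 K) →* ℂ)} (hF : Fam 𝔮 κ E lam ψ) {L : ℝ} (hL : 1 ≤ L)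
    {C C' Φ : ℝ} (hC : 0 ≤ C) (hΦ : 0 ≤ Φ) {G : ℝ → ℝ}
    (hGi : IntegrableOn G (Set.Ioi 0)) (hG : ∫ v in Set.Ioi (0 : ℝ), G v ≤ C')
    (h : ∀ v, 0 ≤ v → ∑ χ ∈ E, ‖fK L (Real.log (cond 𝔮)) κ (lam χ) (ψ χ) v‖ ^ 2 ≤
      Φ * (C * G v + C * Real.exp (-v) / L)) :
    ∑ χ ∈ E, ∫ u, ‖DK L κ (lam χ) (ψ χ) u‖ ^ 2 ≤ 2 * (C * C' + C) * Φ := by
  have hone : ∀ χ ∈ E, Integrable (fun v => ‖fK L (Real.log (cond 𝔮)) κ (lam χ) (ψ χ) v‖ ^ 2) ∧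
      ∫ u, ‖DK L κ (lam χ) (ψ χ) u‖ ^ 2 =
        2 * ∫ v in Set.Ioi (0 : ℝ), ‖fK L (Real.log (cond 𝔮)) κ (lam χ) (ψ χ) v‖ ^ 2 :=
    fun χ hχ => EN1_one hF.real (hF.sum χ hχ) hF.bot hF.top (hF.prim χ hχ) (hF.hecke χ hχ) L
  rw [Finset.sum_congr rfl fun χ hχ => (hone χ hχ).2, ← Finset.mul_sum,
    ← integral_finsetSum _ fun χ hχ => (hone χ hχ).1.integrableOn]
  have hint1 : IntegrableOn (fun v : ℝ => Real.exp (-v)) (Set.Ioi 0) := by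
    simpa using exp_neg_integrableOn_Ioi 0 one_pos
  have hint2 : ∫ v in Set.Ioi (0 : ℝ), Real.exp (-v) = 1 := integral_exp_neg_Ioi_zero
  have hr : IntegrableOn (fun v => Φ * (C * G v + C * Real.exp (-v) / L)) (Set.Ioi 0) :=
    ((hGi.const_mul C).add ((hint1.const_mul C).div_const L)).const_mul Φ
  have hfi : ∀ χ ∈ E,
      Integrable (fun v => ‖fK L (Real.log (cond 𝔮)) κ (lam χ) (ψ χ) v‖ ^ 2) :=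
    fun χ hχ => (hone χ hχ).1
  have hL0 : 0 < L := by linarith
  calc 2 * ∫ v in Set.Ioi (0 : ℝ), ∑ χ ∈ E,
          ‖fK L (Real.log (cond 𝔮)) κ (lam χ) (ψ χ) v‖ ^ 2
      ≤ 2 * ∫ v in Set.Ioi (0 : ℝ), Φ * (C * G v + C * Real.exp (-v) / L) := by
        refine mul_le_mul_of_nonneg_left ?_ (by norm_num)
        refine setIntegral_mono_on ((integrable_finsetSum _ hfi).integrableOn) hr
          measurableSet_Ioi fun v hv => h v (le_of_lt hv)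
    _ = 2 * (Φ * (C * (∫ v in Set.Ioi (0 : ℝ), G v) + C * 1 / L)) := by
        rw [integral_const_mul, integral_add (hGi.const_mul C)
          ((hint1.const_mul C).div_const L), integral_const_mul, integral_div,
          integral_const_mul, hint2]
    _ ≤ 2 * (Φ * (C * C' + C * 1 / 1)) := by gcongr
    _ = 2 * (C * C' + C) * Φ := by ring

theorem energy32_pr (κ : InfinitePlace K → ℤ) : ∃ C : ℝ, 0 ≤ C ∧ ∀ (𝔮 : Ideal (𝓞 K))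
    (E : Finset (MulChar (𝓞 K ⧸ 𝔮) ℂ)) (lam : MulChar (𝓞 K ⧸ 𝔮) ℂ → InfinitePlace K → ℝ)
    (ψ : MulChar (𝓞 K ⧸ 𝔮) ℂ → (Ideal (𝓞 K) →* ℂ)), Fam 𝔮 κ E lam ψ → ∀ L : ℝ, 1 ≤ L →
      32 * L = Real.log (cond 𝔮) →
      ∑ χ ∈ E, ∫ u, ‖DK L κ (lam χ) (ψ χ) u‖ ^ 2 ≤ C * (Nat.card (𝓞 K ⧸ 𝔮)ˣ : ℝ) := by
  obtain ⟨C1, hC1, h1⟩ := mean_fK (K := K) κ
  obtain ⟨ρ, hkern⟩ := kern_NK K
  obtain ⟨C4, hC4, h4⟩ := diag_int (good_NK K) hkern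
  refine ⟨2 * (C1 * C4 + C1), by positivity, fun 𝔮 E lam ψ hF L hL hLA => ?_⟩
  have hQ : ∑ p ∈ QK 𝔮, Real.log (NK K p) ≤ 32 * L := by
    rw [hLA]; exact (sum_log_QK hF.bot).trans (log_cond_ge hF.bot)
  obtain ⟨h4i, h4b⟩ := h4 L (QK 𝔮) hL hQ
  exact EN1_sum hF hL hC1 (Nat.cast_nonneg _) h4i h4b
    (fun v hv => h1 𝔮 hF.bot hF.top E lam ψ hF.hecke L hL hLA v hv)

theorem energy64_pr (κ : InfinitePlace K → ℤ) : ∃ C : ℝ, 0 ≤ C ∧ ∀ (𝔮 : Ideal (𝓞 K))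
    (E : Finset (MulChar (𝓞 K ⧸ 𝔮) ℂ)) (lam : MulChar (𝓞 K ⧸ 𝔮) ℂ → InfinitePlace K → ℝ)
    (ψ : MulChar (𝓞 K ⧸ 𝔮) ℂ → (Ideal (𝓞 K) →* ℂ)), Fam 𝔮 κ E lam ψ → ∀ L : ℝ, 1 ≤ L →
      64 * L = Real.log (cond 𝔮) →
      ∑ χ ∈ E, ∫ u, ‖DK L κ (lam χ) (ψ χ) u‖ ^ 2 ≤ C * (Nat.card (𝓞 K ⧸ 𝔮)ˣ : ℝ) := by
  obtain ⟨C1, hC1, h1⟩ := mean_fK64 (K := K) κ
  obtain ⟨ρ, hkern⟩ := kern_NK K
  obtain ⟨C4, hC4, h4⟩ := diag_int64 (good_NK K) hkern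
  refine ⟨2 * (C1 * C4 + C1), by positivity, fun 𝔮 E lam ψ hF L hL hLA => ?_⟩
  have hQ : ∑ p ∈ QK 𝔮, Real.log (NK K p) ≤ 64 * L := by
    rw [hLA]; exact (sum_log_QK hF.bot).trans (log_cond_ge hF.bot)
  obtain ⟨h4i, h4b⟩ := h4 L (QK 𝔮) hL hQ
  exact EN1_sum hF hL hC1 (Nat.cast_nonneg _) h4i h4b
    (fun v hv => h1 𝔮 hF.bot hF.top E lam ψ hF.hecke L hL hLA v hv)

theorem energy32 : type_of% @energy32_pr := @energy32_pr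

theorem energy64 : type_of% @energy64_pr := @energy64_pr

end Pool.Agent.NL
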