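import Pool.Agent.Lib_helper41.NL.Defs
import Pool.Agent.Lib_helper92.KSA.FinB
import Pool.Agent.Lib_helper41.NLF.EN1

/-!
# HeckeNearLine, block EN2: the energy of `DK2`
-/

namespace Pool.Agent.NL

open NumberField NumberField.InfinitePlace NumberField.Units Complex MeasureTheory Filter Topology
open Pool.Agent.HZ Pool.Agent.AS Pool.Agent.KS
open Pool.Agent.SQS (hat PL1)
open Pool.Agent.ABS (Nice LData Piece oddZ)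
open scoped ENNReal

variable {K : Type} [Field K] [NumberField K]

theorem EN2_sub {L : ℝ} (hL : 0 < L) :
    ball (NK K) (Real.exp (L / 2)) ⊆ ball (NK K) (Real.exp L) := by
  intro g hg
  rw [mem_ball_pr (good_NK K)] at hg ⊢
  exact hg.trans (Real.exp_le_exp.2 (by linarith))

theorem EN2_bK {L : ℝ} (hL : 0 < L) (ψ : Ideal (𝓞 K) →* ℂ) {g : PK K →₀ ℕ}
    (hg : g ∉ ball (NK K) (Real.exp L)) : bK L ψ g = 0 := by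
  rw [mem_ball_pr (good_NK K), not_le] at hg
  have h : be (NK K) L g = 0 := by
    apply be_zero_pr hL
    have := Real.log_le_log (Real.exp_pos L) hg.le
    rwa [Real.log_exp] at this
  unfold bK
  rw [h]
  simp

theorem EN2_bK2 (L : ℝ) (ψ : Ideal (𝓞 K) →* ℂ) (g : PK K →₀ ℕ) :
    bK2 L ψ g = 2 * bK L ψ g - bK (L / 2) ψ g := by
  unfold bK2 bK be2
  push_cast
  ring

theorem EN2_D2 {C₀ : ℝ} {κ : InfinitePlace K → ℤ} {lam : InfinitePlace K → ℝ}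
    {ψ : Ideal (𝓞 K) →* ℂ} {L : ℝ} (X : LData)
    (hd : X.dens = fun u => (C₀ : ℂ)⁻¹ * Dser ψ (Gf κ lam) u) (u : ℝ) :
    X.Dd (ball (NK K) (Real.exp L)) (bK2 L ψ) lK u = (C₀ : ℂ)⁻¹ * DK2 L κ lam ψ u := by
  unfold LData.Dd DK2
  rw [Finset.mul_sum]
  refine Finset.sum_congr rfl fun j _ => ?_
  rw [Finset.mul_sum]
  refine Finset.sum_congr rfl fun k _ => ?_
  rw [hd]
  ring

theorem EN2_D0 {C₀ : ℝ} {κ : InfinitePlace K → ℤ} {lam : InfinitePlace K → ℝ}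
    {ψ : Ideal (𝓞 K) →* ℂ} {L : ℝ} (hL : 0 < L) (X : LData)
    (hd : X.dens = fun u => (C₀ : ℂ)⁻¹ * Dser ψ (Gf κ lam) u) (u : ℝ) :
    X.Dd (ball (NK K) (Real.exp L)) (bK (L / 2) ψ) lK u = (C₀ : ℂ)⁻¹ * DK (L / 2) κ lam ψ u := by
  rw [← piece_D X hd u]
  unfold LData.Dd
  have hz : ∀ k ∉ ball (NK K) (Real.exp (L / 2)), bK (L / 2) ψ k = 0 :=
    fun k hk => EN2_bK (by linarith) ψ hk
  symm
  rw [Finset.sum_subset (EN2_sub hL) fun j _ hj => by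
    refine Finset.sum_eq_zero fun k _ => ?_
    rw [hz j hj]; ring]
  refine Finset.sum_congr rfl fun j _ => ?_
  refine Finset.sum_subset (EN2_sub hL) fun k _ hk => ?_
  rw [hz k hk]; ring

theorem EN2_four (a b : ℝ) :
    (2 * a + b) ^ 4 ≤ 128 * a ^ 4 + 8 * b ^ 4 := by
  have h1 : (2 * a + b) ^ 2 ≤ 2 * ((2 * a) ^ 2 + b ^ 2) := by nlinarith [sq_nonneg (2 * a - b)]
  have h2 : ((2 * a) ^ 2 + b ^ 2) ^ 2 ≤ 2 * (((2 * a) ^ 2) ^ 2 + (b ^ 2) ^ 2) := by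
    nlinarith [sq_nonneg ((2 * a) ^ 2 - b ^ 2)]
  calc (2 * a + b) ^ 4 = ((2 * a + b) ^ 2) ^ 2 := by ring
    _ ≤ (2 * ((2 * a) ^ 2 + b ^ 2)) ^ 2 := by gcongr
    _ = 4 * ((2 * a) ^ 2 + b ^ 2) ^ 2 := by ring
    _ ≤ 4 * (2 * (((2 * a) ^ 2) ^ 2 + (b ^ 2) ^ 2)) := by gcongr
    _ = 128 * a ^ 4 + 8 * b ^ 4 := by ring

theorem DK2_energy_pr {𝔮 : Ideal (𝓞 K)} {κ : InfinitePlace K → ℤ}
    (hκ : ∀ w : InfinitePlace K, w.IsReal → κ w = 0 ∨ κ w = 1) {lam : InfinitePlace K → ℝ}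
    (hlam : ∑ w, lam w = 0) (h𝔮 : 𝔮 ≠ ⊥) (h𝔮' : 𝔮 ≠ ⊤)
    {χ : MulChar (𝓞 K ⧸ 𝔮) ℂ} (hχ : IsPrim 𝔮 χ) {ψ : Ideal (𝓞 K) →* ℂ}
    (hψ : IsHecke 𝔮 κ lam χ ψ) {L : ℝ} (hL : 0 < L) :
    ∫ u, ‖DK2 L κ lam ψ u‖ ^ 2 ≤
      128 * (∫ u, ‖DK L κ lam ψ u‖ ^ 2) + 8 * ∫ u, ‖DK (L / 2) κ lam ψ u‖ ^ 2 := by
  obtain ⟨C₀, hC₀, hm⟩ := mellin_kint (K := K)
  obtain ⟨X, _, hXA, hXd⟩ := exists_ldata hC₀ hm hκ hlam h𝔮 h𝔮' hχ hψ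
  have hnC₀ : ‖(C₀ : ℂ)⁻¹‖ = C₀⁻¹ := by
    rw [norm_inv, Complex.norm_real, Real.norm_of_nonneg hC₀.le]
  set s := ball (NK K) (Real.exp L) with hs
  have hD0 : 0 < C₀⁻¹ ^ 2 := by positivity
  have key : ∀ (b : (PK K →₀ ℕ) → ℂ) (F : ℝ → ℂ), (∀ u, X.Dd s b lK u = (C₀ : ℂ)⁻¹ * F u) →
      Integrable (fun t => ‖hat (X.Dd s b lK) t‖ ^ 2) ∧
      ∫ t, ‖hat (X.Dd s b lK) t‖ ^ 2 = 2 * Real.pi * (C₀⁻¹ ^ 2 * ∫ u, ‖F u‖ ^ 2) := by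
    intro b F h
    have hp := PL1 _ (X.Dd_nice s b lK).int (X.Dd_nice s b lK).sq
    refine ⟨hp.1, ?_⟩
    rw [hp.2]
    congr 1
    rw [← integral_const_mul]
    congr 1
    funext u
    rw [h u, norm_mul, hnC₀, mul_pow]
  obtain ⟨i2, e2⟩ := key (bK2 L ψ) (DK2 L κ lam ψ) fun u => EN2_D2 X hXd u
  obtain ⟨i1, e1⟩ := key (bK L ψ) (DK L κ lam ψ) fun u => piece_D X hXd u
  obtain ⟨i0, e0⟩ := key (bK (L / 2) ψ) (DK (L / 2) κ lam ψ) fun u => EN2_D0 hL X hXd u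
  have hpt : ∀ t, ‖hat (X.Dd s (bK2 L ψ) lK) t‖ ^ 2 ≤
      128 * ‖hat (X.Dd s (bK L ψ) lK) t‖ ^ 2 + 8 * ‖hat (X.Dd s (bK (L / 2) ψ) lK) t‖ ^ 2 := by
    intro t
    rw [X.hat_Dd, X.hat_Dd, X.hat_Dd]
    have hp : LData.poly s (bK2 L ψ) lK t =
        2 * LData.poly s (bK L ψ) lK t - LData.poly s (bK (L / 2) ψ) lK t := by
      unfold LData.poly
      rw [Finset.mul_sum, ← Finset.sum_sub_distrib]
      refine Finset.sum_congr rfl fun j _ => ?_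
      rw [EN2_bK2]
      ring
    set a := LData.poly s (bK L ψ) lK t
    set b := LData.poly s (bK (L / 2) ψ) lK t
    have h1 : ‖LData.poly s (bK2 L ψ) lK t‖ ≤ 2 * ‖a‖ + ‖b‖ := by
      rw [hp]
      refine (norm_sub_le _ _).trans ?_
      rw [norm_mul]
      simp
    have h2 := EN2_four ‖a‖ ‖b‖
    have h3 : ‖LData.poly s (bK2 L ψ) lK t‖ ^ 4 ≤ 128 * ‖a‖ ^ 4 + 8 * ‖b‖ ^ 4 :=
      (pow_le_pow_left₀ (norm_nonneg _) h1 4).trans h2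
    simp only [norm_mul]
    have h4 : 0 ≤ ‖X.Λ (1 / 2 + t * I)‖ ^ 2 := by positivity
    nlinarith [mul_le_mul_of_nonneg_left h3 h4]
  have hle : ∫ t, ‖hat (X.Dd s (bK2 L ψ) lK) t‖ ^ 2 ≤
      128 * (∫ t, ‖hat (X.Dd s (bK L ψ) lK) t‖ ^ 2) +
        8 * ∫ t, ‖hat (X.Dd s (bK (L / 2) ψ) lK) t‖ ^ 2 := by
    rw [← integral_const_mul, ← integral_const_mul,
      ← integral_add (i1.const_mul _) (i0.const_mul _)]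
    exact integral_mono i2 ((i1.const_mul _).add (i0.const_mul _)) hpt
  rw [e2, e1, e0] at hle
  have hpi : 0 < 2 * Real.pi * C₀⁻¹ ^ 2 := by positivity
  refine le_of_mul_le_mul_left ?_ hpi
  calc 2 * Real.pi * C₀⁻¹ ^ 2 * ∫ u, ‖DK2 L κ lam ψ u‖ ^ 2
      = 2 * Real.pi * (C₀⁻¹ ^ 2 * ∫ u, ‖DK2 L κ lam ψ u‖ ^ 2) := by ring
    _ ≤ _ := hle
    _ = _ := by ring

theorem energy2_pr (κ : InfinitePlace K → ℤ) : ∃ C : ℝ, 0 ≤ C ∧ ∀ (𝔮 : Ideal (𝓞 K))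
    (E : Finset (MulChar (𝓞 K ⧸ 𝔮) ℂ)) (lam : MulChar (𝓞 K ⧸ 𝔮) ℂ → InfinitePlace K → ℝ)
    (ψ : MulChar (𝓞 K ⧸ 𝔮) ℂ → (Ideal (𝓞 K) →* ℂ)), Fam 𝔮 κ E lam ψ → ∀ L : ℝ, 2 ≤ L →
      32 * L = Real.log (cond 𝔮) →
      ∑ χ ∈ E, ∫ u, ‖DK2 L κ (lam χ) (ψ χ) u‖ ^ 2 ≤ C * (Nat.card (𝓞 K ⧸ 𝔮)ˣ : ℝ) := by
  obtain ⟨C1, hC1, h1⟩ := energy32 (K := K) κ
  obtain ⟨C2, hC2, h2⟩ := energy64 (K := K) κ
  refine ⟨128 * C1 + 8 * C2, by positivity, fun 𝔮 E lam ψ hF L hL hLA => ?_⟩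
  have h3 := h1 𝔮 E lam ψ hF L (by linarith) hLA
  have h4 := h2 𝔮 E lam ψ hF (L / 2) (by linarith) (by rw [← hLA]; ring)
  calc ∑ χ ∈ E, ∫ u, ‖DK2 L κ (lam χ) (ψ χ) u‖ ^ 2
      ≤ ∑ χ ∈ E, (128 * (∫ u, ‖DK L κ (lam χ) (ψ χ) u‖ ^ 2) +
          8 * ∫ u, ‖DK (L / 2) κ (lam χ) (ψ χ) u‖ ^ 2) :=
        Finset.sum_le_sum fun χ hχ => DK2_energy_pr hF.real (hF.sum χ hχ) hF.bot hF.top
          (hF.prim χ hχ) (hF.hecke χ hχ) (by linarith)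
    _ = 128 * (∑ χ ∈ E, ∫ u, ‖DK L κ (lam χ) (ψ χ) u‖ ^ 2) +
          8 * ∑ χ ∈ E, ∫ u, ‖DK (L / 2) κ (lam χ) (ψ χ) u‖ ^ 2 := by
        rw [Finset.sum_add_distrib, Finset.mul_sum, Finset.mul_sum]
    _ ≤ 128 * (C1 * (Nat.card (𝓞 K ⧸ 𝔮)ˣ : ℝ)) + 8 * (C2 * (Nat.card (𝓞 K ⧸ 𝔮)ˣ : ℝ)) := by
        gcongr
    _ = (128 * C1 + 8 * C2) * (Nat.card (𝓞 K ⧸ 𝔮)ˣ : ℝ) := by ring

theorem DK2_energy : type_of% @DK2_energy_pr := @DK2_energy_pr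

theorem energy2 : type_of% @energy2_pr := @energy2_pr

end Pool.Agent.NL
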