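import Pool.Agent.Lib_helper24.SQ.PL

/-!
# NL, block PLX: Plancherel on vertical lines
-/

namespace Pool.Agent.NL

open Complex MeasureTheory Filter Topology

theorem plancherel_x_pr {h : ℝ → ℂ} {x : ℝ} (hc : Continuous h)
    (h1 : Integrable (fun u => h u * (Real.exp (x * u) : ℂ)))
    (h2 : Integrable (fun u => ‖h u‖ ^ 2 * Real.exp (2 * x * u))) :
    Integrable (fun t : ℝ => ‖∫ u : ℝ, h u * cexp ((x + t * I) * u)‖ ^ 2) ∧
      ∫ t : ℝ, ‖∫ u : ℝ, h u * cexp ((x + t * I) * u)‖ ^ 2 =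
        2 * Real.pi * ∫ u, ‖h u‖ ^ 2 * Real.exp (2 * x * u) := by
  have e1 : (fun u : ℝ => ‖h u * (Real.exp (x * u) : ℂ)‖ ^ 2) =
      fun u => ‖h u‖ ^ 2 * Real.exp (2 * x * u) := by
    funext u
    rw [norm_mul, mul_pow, Complex.norm_real, Real.norm_eq_abs, abs_of_pos (Real.exp_pos _),
      ← Real.exp_nat_mul]
    congr 2
    push_cast
    ring
  have e2 : ∀ t : ℝ, SQS.hat (fun u => h u * (Real.exp (x * u) : ℂ)) t =
      ∫ u : ℝ, h u * cexp ((x + t * I) * u) := by
    intro t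
    unfold SQS.hat
    congr 1
    funext u
    rw [mul_assoc, Complex.ofReal_exp, ← Complex.exp_add]
    congr 2
    push_cast
    ring
  have h3 := SQS.PL1 (fun u => h u * (Real.exp (x * u) : ℂ)) h1 (by rw [e1]; exact h2)
  rw [e1] at h3
  simp only [e2] at h3
  exact h3

theorem plancherel_x : type_of% @plancherel_x_pr := @plancherel_x_pr

end Pool.Agent.NL
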