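import Pool.Agent.Lib_helper41.NL.Defs
import Pool.Agent.Lib_helper41.NLF.FLAT
import Pool.Agent.Lib_helper41.NLF.DK2E

/-!
# Block TAIL: `h` is tiny to the right of `-L/4`
-/

namespace Pool.Agent.NL

open NumberField NumberField.InfinitePlace NumberField.Units Complex MeasureTheory Filter Topology
open Pool.Agent.HZ Pool.Agent.AS Pool.Agent.KS
open scoped ENNReal

variable {K : Type} [Field K] [NumberField K]

open scoped Classical in
/-- the coefficients of `DK2` on ideals -/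
noncomputable def tail_b (L : ℝ) (𝔠 : Ideal (𝓞 K)) : ℂ :=
  if h : 𝔠 ≠ ⊥ then (bb2 (NK K) L (IK_surj h).choose : ℂ) else 0

theorem tail_b_IK (L : ℝ) (g : PK K →₀ ℕ) : tail_b L (IK g) = (bb2 (NK K) L g : ℂ) := by
  unfold tail_b
  rw [dif_pos (IK_ne_bot g)]
  have h := (IK_surj (IK_ne_bot g)).choose_spec
  rw [IK_inj h]

theorem tail_b_bot (L : ℝ) : tail_b L (⊥ : Ideal (𝓞 K)) = 0 := by
  unfold tail_b
  rw [dif_neg]
  simp

theorem tail_pr (κ : InfinitePlace K → ℤ) : ∃ C : ℝ, 0 ≤ C ∧ ∀ (𝔮 : Ideal (𝓞 K)), 𝔮 ≠ ⊥ → 𝔮 ≠ ⊤ →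
    ∀ (χ : MulChar (𝓞 K ⧸ 𝔮) ℂ) (lam : InfinitePlace K → ℝ) (ψ : Ideal (𝓞 K) →* ℂ),
      IsHecke 𝔮 κ lam χ ψ → ∀ L : ℝ, 1 ≤ L → ∀ u : ℝ, -(L / 4) ≤ u →
        ‖hh L κ lam ψ u‖ ≤ C * Real.exp (-(10 * L)) * Real.exp (-(20 * (u + L / 4))) := by
  classical
  obtain ⟨C₁, hG⟩ := Gf_good (K := K) κ
  have hC₁ : 0 ≤ C₁ := (hG 0).1
  obtain ⟨C₂, hC₂, hbb⟩ := bb2_abs (good_NK K)
  obtain ⟨C₃, hC₃, hkg⟩ := kg_le (K := K) (c := Real.pi / 2) (by positivity) (A := 60)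
    (by norm_num)
  have hs := ideal_summable (K := K) (A := 2) one_lt_two
  set Z : ℝ := ∑' 𝔠 : Ideal (𝓞 K), (Ideal.absNorm 𝔠 : ℝ) ^ (-2 : ℝ) with hZ
  have hZ0 : 0 ≤ Z := tsum_nonneg fun 𝔠 => by positivity
  refine ⟨C₁ * C₂ * C₃ * Z, by positivity, ?_⟩
  intro 𝔮 h𝔮 h𝔮' χ lam ψ hψ L hL u hu
  have hL0 : 0 < L := by linarith
  have hF := hG lam
  -- the coefficients
  set b : Ideal (𝓞 K) → ℂ := fun 𝔠 => tail_b L 𝔠 - (if 𝔠 = ⊤ then 1 else 0) with hb_def
  have hb0 : b ⊥ = 0 := by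
    rw [hb_def]
    simp only
    rw [tail_b_bot, if_neg bot_ne_top, sub_zero]
  have hbIK : ∀ g : PK K →₀ ℕ, b (IK g) = ((if g = 0 then 0 else bb2 (NK K) L g : ℝ) : ℂ) := by
    intro g
    rw [hb_def]
    simp only
    rw [tail_b_IK, mdk_top_IK]
    by_cases h : g = 0
    · rw [if_pos h, if_pos h, h, bb2_zero (good_NK K) hL0]
      simp
    · rw [if_neg h, if_neg h, sub_zero]
  have htb : ∀ 𝔠 : Ideal (𝓞 K), ‖tail_b L 𝔠‖ ≤ C₂ * Real.exp (4 * L) := by
    intro 𝔠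
    by_cases h : 𝔠 = ⊥
    · rw [h, tail_b_bot, norm_zero]
      positivity
    · obtain ⟨g, rfl⟩ := IK_surj h
      rw [tail_b_IK, Complex.norm_real, Real.norm_eq_abs]
      exact hbb L hL0 g
  -- the difference as a `Dser`
  have hdiff : hh L κ lam ψ u = Dser (fun 𝔠 => b 𝔠 * ψ 𝔠) (Gf κ lam) u := by
    unfold hh
    rw [DK2_eq h𝔮 h𝔮' hψ hL0 (tail_b_bot L) (tail_b_IK L) u]
    have hg : gK κ lam u =
        Dser (fun 𝔠 => (if 𝔠 = ⊤ then 1 else 0) * ψ 𝔠) (Gf κ lam) u := by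
      unfold gK Dser
      congr 1
      rw [tsum_eq_single ⊤]
      · have h1 : ψ ⊤ = 1 := by
          have : (⊤ : Ideal (𝓞 K)) = 1 := Ideal.one_eq_top.symm
          rw [this, map_one]
        beta_reduce
        rw [if_pos rfl, h1, Ideal.absNorm_top]
        simp
      · intro 𝔠 h
        beta_reduce
        rw [if_neg h, zero_mul, zero_mul]
    rw [hg]
    unfold Dser
    rw [← mul_sub]
    congr 1
    have hs1 : Summable (fun 𝔠 : Ideal (𝓞 K) => tail_b L 𝔠 * ψ 𝔠 *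
        kint K (Gf κ lam) (u + Real.log (Ideal.absNorm 𝔠))) := by
      refine Dser_summable hF (b := fun 𝔠 => tail_b L 𝔠 * ψ 𝔠) (β := C₂ * Real.exp (4 * L))
        (fun 𝔠 => ?_) (by rw [tail_b_bot, zero_mul]) u
      rw [norm_mul]
      calc ‖tail_b L 𝔠‖ * ‖ψ 𝔠‖ ≤ (C₂ * Real.exp (4 * L)) * 1 :=
            mul_le_mul (htb 𝔠) (dke_psi_le hψ 𝔠) (norm_nonneg _) (by positivity)
        _ = C₂ * Real.exp (4 * L) := mul_one _
    have hs2 : Summable (fun 𝔠 : Ideal (𝓞 K) => (if 𝔠 = ⊤ then (1 : ℂ) else 0) * ψ 𝔠 *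
        kint K (Gf κ lam) (u + Real.log (Ideal.absNorm 𝔠))) := by
      apply summable_of_ne_finset_zero (s := {⊤})
      intro 𝔠 h
      rw [Finset.mem_singleton] at h
      rw [if_neg h, zero_mul, zero_mul]
    rw [← hs1.tsum_sub hs2]
    refine tsum_congr fun 𝔠 => ?_
    rw [hb_def]
    ring
  -- the terms
  have hterm : ∀ 𝔠 : Ideal (𝓞 K), ‖b 𝔠 * ψ 𝔠 *
      kint K (Gf κ lam) (u + Real.log (Ideal.absNorm 𝔠))‖ ≤
      C₁ * C₂ * C₃ * Real.exp (-(25 * L) - 60 * u) * (Ideal.absNorm 𝔠 : ℝ) ^ (-2 : ℝ) := by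
    intro 𝔠
    by_cases h : 𝔠 = ⊥
    · rw [h, hb0, zero_mul, zero_mul, norm_zero]
      positivity
    · obtain ⟨g, rfl⟩ := IK_surj h
      have hNpos : (0 : ℝ) < nm (NK K) g := dke_nm_pos g
      rw [absNorm_IK, hbIK]
      by_cases hg : g = 0
      · rw [if_pos hg]
        simp only [Complex.ofReal_zero, zero_mul, norm_zero]
        positivity
      · rw [if_neg hg]
        rcases le_or_gt (Real.log (nm (NK K) g)) (L / 2) with hlog | hlog
        · rw [bb2_flat (good_NK K) hL0 hg hlog]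
          simp only [Complex.ofReal_zero, zero_mul, norm_zero]
          positivity
        · rw [norm_mul, norm_mul, Complex.norm_real, Real.norm_eq_abs]
          have h1 := hbb L hL0 g
          have h2 : ‖ψ (IK g)‖ ≤ 1 := dke_psi_le hψ _
          have h3 : ‖kint K (Gf κ lam) (u + Real.log (nm (NK K) g))‖ ≤
              C₁ * (C₃ * Real.exp (-(60 * (u + Real.log (nm (NK K) g))))) :=
            (kint_le hF _).trans (mul_le_mul_of_nonneg_left (hkg _) hC₁)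
          have h4 : Real.exp (4 * L) * Real.exp (-(60 * (u + Real.log (nm (NK K) g)))) ≤
              Real.exp (-(25 * L) - 60 * u) * (nm (NK K) g : ℝ) ^ (-2 : ℝ) := by
            rw [Real.rpow_def_of_pos hNpos, ← Real.exp_add, ← Real.exp_add]
            apply Real.exp_le_exp.2
            nlinarith
          calc |bb2 (NK K) L g| * ‖ψ (IK g)‖ *
                ‖kint K (Gf κ lam) (u + Real.log (nm (NK K) g))‖
              ≤ (C₂ * Real.exp (4 * L)) * 1 *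
                (C₁ * (C₃ * Real.exp (-(60 * (u + Real.log (nm (NK K) g)))))) := by
                gcongr
            _ = C₁ * C₂ * C₃ * (Real.exp (4 * L) *
                Real.exp (-(60 * (u + Real.log (nm (NK K) g))))) := by ring
            _ ≤ C₁ * C₂ * C₃ * (Real.exp (-(25 * L) - 60 * u) *
                (nm (NK K) g : ℝ) ^ (-2 : ℝ)) := by
                gcongr
            _ = _ := by ring
  have hsum : ‖∑' 𝔠 : Ideal (𝓞 K), b 𝔠 * ψ 𝔠 *
      kint K (Gf κ lam) (u + Real.log (Ideal.absNorm 𝔠))‖ ≤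
      C₁ * C₂ * C₃ * Real.exp (-(25 * L) - 60 * u) * Z := by
    rw [hZ, ← tsum_mul_left]
    exact tsum_of_norm_bounded (hs.mul_left _).hasSum hterm
  rw [hdiff]
  unfold Dser
  rw [norm_mul, Complex.norm_real, Real.norm_of_nonneg (Real.exp_pos _).le]
  calc Real.exp (u / 2) * ‖∑' 𝔠 : Ideal (𝓞 K), b 𝔠 * ψ 𝔠 *
        kint K (Gf κ lam) (u + Real.log (Ideal.absNorm 𝔠))‖
      ≤ Real.exp (u / 2) * (C₁ * C₂ * C₃ * Real.exp (-(25 * L) - 60 * u) * Z) := by gcongr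
    _ = C₁ * C₂ * C₃ * Z * (Real.exp (u / 2) * Real.exp (-(25 * L) - 60 * u)) := by ring
    _ ≤ C₁ * C₂ * C₃ * Z * (Real.exp (-(10 * L)) * Real.exp (-(20 * (u + L / 4)))) := by
        apply mul_le_mul_of_nonneg_left _ (by positivity)
        rw [← Real.exp_add, ← Real.exp_add]
        apply Real.exp_le_exp.2
        linarith
    _ = _ := by ring

theorem tail : type_of% @tail_pr := @tail_pr

end Pool.Agent.NL
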