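import Pool.Agent.Lib_helper41.NL.Defs
import Pool.Agent.Lib_helper92.KSA.FinA
import Pool.Agent.Lib_helper41.NLF.NICE
import Pool.Agent.Lib_helper41.NLF.TAIL

/-!
# Block SUP: pointwise bound of the transform far from the line
-/

namespace Pool.Agent.NL

open NumberField NumberField.InfinitePlace NumberField.Units Complex MeasureTheory Filter Topology
open Pool.Agent.HZ Pool.Agent.AS Pool.Agent.KS
open scoped ENNReal

variable {K : Type} [Field K] [NumberField K]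

theorem sup_amgm {a b t : ℝ} (ht : 0 < t) : a * b ≤ t / 2 * a ^ 2 + (2 * t)⁻¹ * b ^ 2 := by
  have h : 0 ≤ (t * a - b) ^ 2 := sq_nonneg _
  have h2 : t / 2 * a ^ 2 + (2 * t)⁻¹ * b ^ 2 - a * b = (2 * t)⁻¹ * (t * a - b) ^ 2 := by
    field_simp
    ring
  have h3 : 0 ≤ (2 * t)⁻¹ * (t * a - b) ^ 2 := by positivity
  linarith

theorem sup_bound_pr (κ : InfinitePlace K → ℤ) : ∃ C : ℝ, 0 ≤ C ∧ ∀ (𝔮 : Ideal (𝓞 K)),
    𝔮 ≠ ⊥ → 𝔮 ≠ ⊤ → (∀ w : InfinitePlace K, w.IsReal → κ w = 0 ∨ κ w = 1) →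
    ∀ (χ : MulChar (𝓞 K ⧸ 𝔮) ℂ) (lam : InfinitePlace K → ℝ) (ψ : Ideal (𝓞 K) →* ℂ),
      IsPrim 𝔮 χ → ∑ w, lam w = 0 → IsHecke 𝔮 κ lam χ ψ → ∀ L : ℝ, 1 ≤ L →
      ∀ s : ℂ, 3 / 2 ≤ s.re → s.re ≤ 4 →
        ‖HH L κ lam ψ s‖ ^ 2 ≤
          C * Real.exp (-(L / 2)) * (1 + ∫ u, ‖DK2 L κ lam ψ u‖ ^ 2) := by
  obtain ⟨Ct, hCt0, htail⟩ := tail (K := K) κ
  obtain ⟨E, hE0, hE⟩ := gK_energy (K := K) κ
  set J : ℝ := ∫ u : ℝ, Real.exp (-(2 * |u|)) with hJ
  have hJ0 : 0 ≤ J := integral_nonneg fun u => (Real.exp_pos _).le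
  refine ⟨((1 + E) + J / 2 + Ct * J) ^ 2, by positivity, ?_⟩
  intro 𝔮 h𝔮 h𝔮' hκ χ lam ψ hχ hlam hψ L hL s hs1 hs2
  obtain ⟨hc, hc2, hi2, hx⟩ := hh_nice hκ hlam h𝔮 h𝔮' hχ hψ L
  set x : ℝ := s.re - 1 / 2 with hxdef
  have hx1 : 1 ≤ x := by rw [hxdef]; linarith
  have hx2 : x ≤ 7 / 2 := by rw [hxdef]; linarith
  have hD0 : 0 ≤ ∫ u, ‖DK2 L κ lam ψ u‖ ^ 2 := integral_nonneg fun u => by positivity
  set M : ℝ := 1 + ∫ u, ‖DK2 L κ lam ψ u‖ ^ 2 with hM
  have hM1 : 1 ≤ M := by rw [hM]; linarith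
  have hM0 : 0 < M := by linarith
  have hsM : 1 ≤ √M := by
    rw [show (1 : ℝ) = √1 by simp]
    exact Real.sqrt_le_sqrt hM1
  have hsM0 : 0 < √M := by linarith
  have hMM : √M * √M = M := Real.mul_self_sqrt hM0.le
  -- the triangle inequality
  have h1 : ‖HH L κ lam ψ s‖ ≤ ∫ u, ‖hh L κ lam ψ u‖ * Real.exp (x * u) := by
    unfold HH
    refine (norm_integral_le_integral_norm _).trans (le_of_eq ?_)
    congr 1
    funext u
    rw [norm_mul, Complex.norm_exp]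
    congr 2
    simp [hxdef]
  -- integrability
  have hI1 : Integrable (fun u => ‖hh L κ lam ψ u‖ * Real.exp (x * u)) := by
    refine (hx x (by linarith) (by linarith)).1.norm.congr (Eventually.of_forall fun u => ?_)
    simp only
    rw [norm_mul, Complex.norm_real, Real.norm_of_nonneg (Real.exp_pos _).le]
  have hI2 : Integrable (fun u => ‖hh L κ lam ψ u‖ ^ 2) := by
    have := (hx 0 le_rfl (by norm_num)).2
    simpa using this
  have hI3 : Integrable (fun u : ℝ => Real.exp (-(2 * |u + L / 4|))) :=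
    (fin_integrable_exp_abs two_pos).comp_add_right (L / 4)
  have hJ3 : ∫ u : ℝ, Real.exp (-(2 * |u + L / 4|)) = J := by
    rw [hJ]
    exact integral_add_right_eq_self (fun u : ℝ => Real.exp (-(2 * |u|))) (L / 4)
  -- the energy of h
  have hen : ∫ u, ‖hh L κ lam ψ u‖ ^ 2 ≤ 2 * (1 + E) * M := by
    have hg := (gK_nice (K := K) κ lam).sq
    calc ∫ u, ‖hh L κ lam ψ u‖ ^ 2
        ≤ ∫ u, (2 * ‖DK2 L κ lam ψ u‖ ^ 2 + 2 * ‖gK κ lam u‖ ^ 2) := by
          refine integral_mono hI2 ((hi2.const_mul 2).add (hg.const_mul 2)) fun u => ?_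
          simp only
          have h2 : ‖hh L κ lam ψ u‖ ≤ ‖DK2 L κ lam ψ u‖ + ‖gK κ lam u‖ := norm_sub_le _ _
          have h3 := sq_nonneg (‖DK2 L κ lam ψ u‖ - ‖gK κ lam u‖)
          have h4 : ‖hh L κ lam ψ u‖ ^ 2 ≤ (‖DK2 L κ lam ψ u‖ + ‖gK κ lam u‖) ^ 2 := by
            gcongr
          nlinarith
      _ = 2 * (∫ u, ‖DK2 L κ lam ψ u‖ ^ 2) + 2 * ∫ u, ‖gK κ lam u‖ ^ 2 := by
          rw [integral_add (hi2.const_mul 2) (hg.const_mul 2), integral_const_mul,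
            integral_const_mul]
      _ ≤ 2 * (1 + E) * M := by
          have h5 := hE lam
          have h6 : E ≤ E * M := by nlinarith
          rw [hM] at h6 ⊢
          nlinarith
  set t : ℝ := Real.exp (-(L / 4)) / √M with ht
  have ht0 : 0 < t := by positivity
  -- the pointwise bound
  have hpt : ∀ u : ℝ, ‖hh L κ lam ψ u‖ * Real.exp (x * u) ≤
      t / 2 * ‖hh L κ lam ψ u‖ ^ 2 +
        ((2 * t)⁻¹ * Real.exp (-(L / 2)) + Ct * Real.exp (-(10 * L))) *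
          Real.exp (-(2 * |u + L / 4|)) := by
    intro u
    have hn0 : 0 ≤ ‖hh L κ lam ψ u‖ := norm_nonneg _
    have he0 : 0 < Real.exp (-(2 * |u + L / 4|)) := Real.exp_pos _
    rcases le_or_gt (-(L / 4)) u with hu | hu
    · have h2 := htail 𝔮 h𝔮 h𝔮' χ lam ψ hψ L hL u hu
      have habs : |u + L / 4| = u + L / 4 := abs_of_nonneg (by linarith)
      have h3 : ‖hh L κ lam ψ u‖ * Real.exp (x * u) ≤
          Ct * Real.exp (-(10 * L)) * Real.exp (-(2 * |u + L / 4|)) := by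
        calc ‖hh L κ lam ψ u‖ * Real.exp (x * u)
            ≤ Ct * Real.exp (-(10 * L)) * Real.exp (-(20 * (u + L / 4))) *
              Real.exp (x * u) := by gcongr
          _ = Ct * Real.exp (-(10 * L)) * Real.exp (-(20 * (u + L / 4)) + x * u) := by
              rw [Real.exp_add]; ring
          _ ≤ Ct * Real.exp (-(10 * L)) * Real.exp (-(2 * |u + L / 4|)) := by
              gcongr
              rw [habs]
              nlinarith
      have h4 : 0 ≤ t / 2 * ‖hh L κ lam ψ u‖ ^ 2 := by positivity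
      have h5 : 0 ≤ (2 * t)⁻¹ * Real.exp (-(L / 2)) * Real.exp (-(2 * |u + L / 4|)) := by
        positivity
      nlinarith
    · have habs : |u + L / 4| = -(u + L / 4) := abs_of_neg (by linarith)
      have h2 := sup_amgm (a := ‖hh L κ lam ψ u‖) (b := Real.exp (x * u)) ht0
      have h3 : Real.exp (x * u) ^ 2 ≤ Real.exp (-(L / 2)) * Real.exp (-(2 * |u + L / 4|)) := by
        rw [← Real.exp_nat_mul, ← Real.exp_add, habs]
        apply Real.exp_le_exp.2
        push_cast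
        nlinarith
      have h4 : (2 * t)⁻¹ * Real.exp (x * u) ^ 2 ≤
          (2 * t)⁻¹ * (Real.exp (-(L / 2)) * Real.exp (-(2 * |u + L / 4|))) := by gcongr
      have h5 : 0 ≤ Ct * Real.exp (-(10 * L)) * Real.exp (-(2 * |u + L / 4|)) := by positivity
      nlinarith
  -- the integral
  have h6 : ‖HH L κ lam ψ s‖ ≤ t / 2 * (2 * (1 + E) * M) +
      ((2 * t)⁻¹ * Real.exp (-(L / 2)) + Ct * Real.exp (-(10 * L))) * J := by
    refine h1.trans ?_
    calc ∫ u, ‖hh L κ lam ψ u‖ * Real.exp (x * u)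
        ≤ ∫ u, (t / 2 * ‖hh L κ lam ψ u‖ ^ 2 +
          ((2 * t)⁻¹ * Real.exp (-(L / 2)) + Ct * Real.exp (-(10 * L))) *
            Real.exp (-(2 * |u + L / 4|))) :=
          integral_mono hI1 ((hI2.const_mul _).add (hI3.const_mul _)) hpt
      _ = t / 2 * (∫ u, ‖hh L κ lam ψ u‖ ^ 2) +
          ((2 * t)⁻¹ * Real.exp (-(L / 2)) + Ct * Real.exp (-(10 * L))) * J := by
          rw [integral_add (hI2.const_mul _) (hI3.const_mul _), integral_const_mul,
            integral_const_mul, hJ3]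
      _ ≤ _ := by gcongr
  have e1 : t / 2 * (2 * (1 + E) * M) = Real.exp (-(L / 4)) * √M * (1 + E) := by
    rw [ht]
    rw [show Real.exp (-(L / 4)) / √M / 2 * (2 * (1 + E) * M) =
      Real.exp (-(L / 4)) / √M * M * (1 + E) by ring]
    rw [show Real.exp (-(L / 4)) / √M * M = Real.exp (-(L / 4)) * (M / √M) by ring]
    rw [show M / √M = √M by rw [div_eq_iff hsM0.ne']; exact hMM.symm]
  have e2 : (2 * t)⁻¹ * Real.exp (-(L / 2)) = Real.exp (-(L / 4)) * √M / 2 := by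
    have h7 : Real.exp (-(L / 2)) = Real.exp (-(L / 4)) * Real.exp (-(L / 4)) := by
      rw [← Real.exp_add]; congr 1; ring
    rw [ht, h7]
    field_simp
  have e3 : Ct * Real.exp (-(10 * L)) ≤ Real.exp (-(L / 4)) * √M * Ct := by
    have h8 : Real.exp (-(10 * L)) ≤ Real.exp (-(L / 4)) := by
      apply Real.exp_le_exp.2; linarith
    have h9 : Real.exp (-(10 * L)) ≤ Real.exp (-(L / 4)) * √M := by
      have : 0 < Real.exp (-(L / 4)) := Real.exp_pos _
      nlinarith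
    nlinarith
  have h10 : ‖HH L κ lam ψ s‖ ≤ Real.exp (-(L / 4)) * √M * ((1 + E) + J / 2 + Ct * J) := by
    refine h6.trans ?_
    rw [e1, e2]
    have h11 : Ct * Real.exp (-(10 * L)) * J ≤ Real.exp (-(L / 4)) * √M * Ct * J := by gcongr
    nlinarith
  calc ‖HH L κ lam ψ s‖ ^ 2
      ≤ (Real.exp (-(L / 4)) * √M * ((1 + E) + J / 2 + Ct * J)) ^ 2 := by gcongr
    _ = ((1 + E) + J / 2 + Ct * J) ^ 2 * (Real.exp (-(L / 4)) * Real.exp (-(L / 4))) *
        (√M * √M) := by ring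
    _ = _ := by
        rw [hMM, ← Real.exp_add, show -(L / 4) + -(L / 4) = -(L / 2) by ring]

theorem sup_bound : type_of% @sup_bound_pr := @sup_bound_pr

end Pool.Agent.NL
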