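import Pool.Agent.Lib_helper41.NL.Defs
import Pool.Agent.Lib_helper92.KSA.FinA
import Pool.Agent.Lib_helper41.NLF.NICE

/-!
# Block TR: the transform
-/

namespace Pool.Agent.NL

open NumberField NumberField.InfinitePlace NumberField.Units Complex MeasureTheory Filter Topology
open Pool.Agent.HZ Pool.Agent.AS Pool.Agent.KS
open scoped ENNReal

variable {K : Type} [Field K] [NumberField K]

/-- integrability against exponentials of rapidly decreasing continuous functions -/
theorem TR_int {D : ℝ → ℂ} (hD : Continuous D)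
    (hdec : ∀ A : ℝ, ∃ C : ℝ, ∀ u : ℝ, ‖D u‖ ≤ C * Real.exp (-(A * |u|))) (z : ℂ) :
    Integrable (fun u : ℝ => D u * cexp (z * u)) := by
  obtain ⟨C, hC⟩ := hdec (|z.re| + 1)
  have hC0 : 0 ≤ C := by
    have h := (norm_nonneg _).trans (hC 0)
    simpa using h
  refine ((fin_integrable_exp_abs (one_pos)).const_mul C).mono'
    (hD.mul (by fun_prop)).aestronglyMeasurable (Eventually.of_forall fun u => ?_)
  rw [norm_mul, Complex.norm_exp, Complex.re_mul_ofReal]
  have h2 : z.re * u ≤ |z.re| * |u| := (le_abs_self _).trans (abs_mul _ _).le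
  calc ‖D u‖ * Real.exp (z.re * u) ≤
      (C * Real.exp (-((|z.re| + 1) * |u|))) * Real.exp (|z.re| * |u|) :=
        mul_le_mul (hC u) (Real.exp_le_exp.2 h2) (Real.exp_pos _).le (by positivity)
    _ = C * Real.exp (-(1 * |u|)) := by
        rw [mul_assoc, ← Real.exp_add]
        congr 2
        ring

/-- shift of the transform -/
theorem TR_shift (D : ℝ → ℂ) (z : ℂ) (a : ℝ) :
    ∫ u : ℝ, D (u + a) * cexp (z * u) = cexp (-(z * a)) * ∫ u : ℝ, D u * cexp (z * u) := by
  have h1 : (fun u : ℝ => D (u + a) * cexp (z * u)) = fun u : ℝ =>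
      (fun v : ℝ => cexp (-(z * a)) * (D v * cexp (z * v))) (u + a) := by
    funext u
    show _ = cexp (-(z * a)) * (D (u + a) * cexp (z * ((u + a : ℝ) : ℂ)))
    have h2 : cexp (z * u) = cexp (-(z * a)) * cexp (z * ((u + a : ℝ) : ℂ)) := by
      rw [← Complex.exp_add]
      congr 1
      push_cast
      ring
    rw [h2]
    ring
  rw [h1, integral_add_right_eq_self (fun v : ℝ => cexp (-(z * a)) * (D v * cexp (z * v))) a,
    integral_const_mul]

theorem transf_pr {C₀ : ℝ} (hC₀ : 0 < C₀)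
    (hm : ∀ (κ : InfinitePlace K → ℤ) (lam : InfinitePlace K → ℝ)
      (s : ℂ), 0 < s.re → Integrable (fun u : ℝ => kint K (Gf κ lam) u * cexp (s * u)) ∧
        ∫ u : ℝ, kint K (Gf κ lam) u * cexp (s * u) = C₀ * gam κ lam s)
    {𝔮 : Ideal (𝓞 K)} {κ : InfinitePlace K → ℤ}
    (hκ : ∀ w : InfinitePlace K, w.IsReal → κ w = 0 ∨ κ w = 1) {lam : InfinitePlace K → ℝ}
    (hlam : ∑ w, lam w = 0) (h𝔮 : 𝔮 ≠ ⊥) (h𝔮' : 𝔮 ≠ ⊤)
    {χ : MulChar (𝓞 K ⧸ 𝔮) ℂ} (hχ : IsPrim 𝔮 χ) {ψ : Ideal (𝓞 K) →* ℂ}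
    (hψ : IsHecke 𝔮 κ lam χ ψ) {Λ : ℂ → ℂ} (hΛ : IsCompleted κ lam ψ Λ) (L : ℝ) {s : ℂ}
    (hs : 0 < s.re) : HH L κ lam ψ s = C₀ * (Λ s * Mo L ψ s ^ 2 - gam κ lam s) := by
  obtain ⟨C₁, hG⟩ := Gf_good κ
  have hdec := dser_decay hκ hlam h𝔮 h𝔮' hχ hψ
  have hcont : Continuous (Dser ψ (Gf κ lam)) :=
    Dser_continuous (hG lam) (fun 𝔞 => hecke_le hψ 𝔞) (hecke_bot h𝔮' hψ)
  have hdiff : Differentiable ℂ (nzk_F κ lam ψ) := entire_of_decay hcont hdec
  have hF : nzk_F κ lam ψ s = C₀ * Λ s :=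
    nzk_F_eq κ lam ψ (nzk_psi_le hψ) (nzk_psi_bot h𝔮' hψ) C₀ (fun s hs => (hm κ lam s hs).2)
      hdiff Λ hΛ s
  set z : ℂ := s - 1 / 2 with hz
  -- the shifted densities
  have hint : ∀ a : ℝ, Integrable (fun u : ℝ => Dser ψ (Gf κ lam) (u + a) * cexp (z * u)) := by
    intro a
    have h1 := (TR_int hcont hdec z).comp_add_right a
    have h2 : (fun u : ℝ => Dser ψ (Gf κ lam) (u + a) * cexp (z * u)) = fun u : ℝ =>
        cexp (-(z * a)) * (Dser ψ (Gf κ lam) (u + a) * cexp (z * ((u + a : ℝ) : ℂ))) := by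
      funext u
      have h2 : cexp (z * u) = cexp (-(z * a)) * cexp (z * ((u + a : ℝ) : ℂ)) := by
        rw [← Complex.exp_add]
        congr 1
        push_cast
        ring
      rw [h2]
      ring
    rw [h2]
    exact h1.const_mul _
  have hval : ∀ a : ℝ, ∫ u : ℝ, Dser ψ (Gf κ lam) (u + a) * cexp (z * u) =
      cexp (-(z * a)) * (C₀ * Λ s) := by
    intro a
    rw [TR_shift, ← hF]
    rfl
  -- the transform of `DK2`
  have hDint : Integrable (fun u : ℝ => DK2 L κ lam ψ u * cexp (z * u)) := by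
    have h1 : (fun u : ℝ => DK2 L κ lam ψ u * cexp (z * u)) = fun u : ℝ =>
        ∑ k ∈ ball (NK K) (Real.exp L), ∑ l ∈ ball (NK K) (Real.exp L),
          bK2 L ψ k * bK2 L ψ l *
            (Dser ψ (Gf κ lam) (u + (lK k + lK l)) * cexp (z * u)) := by
      funext u
      unfold DK2
      rw [Finset.sum_mul]
      refine Finset.sum_congr rfl fun k _ => ?_
      rw [Finset.sum_mul]
      refine Finset.sum_congr rfl fun l _ => ?_
      ring
    rw [h1]
    exact integrable_finsetSum _ fun k _ => integrable_finsetSum _ fun l _ =>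
      (hint _).const_mul _
  have hD : ∫ u : ℝ, DK2 L κ lam ψ u * cexp (z * u) = C₀ * Λ s * Mo L ψ s ^ 2 := by
    have h1 : (fun u : ℝ => DK2 L κ lam ψ u * cexp (z * u)) = fun u : ℝ =>
        ∑ k ∈ ball (NK K) (Real.exp L), ∑ l ∈ ball (NK K) (Real.exp L),
          bK2 L ψ k * bK2 L ψ l *
            (Dser ψ (Gf κ lam) (u + (lK k + lK l)) * cexp (z * u)) := by
      funext u
      unfold DK2
      rw [Finset.sum_mul]
      refine Finset.sum_congr rfl fun k _ => ?_
      rw [Finset.sum_mul]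
      refine Finset.sum_congr rfl fun l _ => ?_
      ring
    rw [h1, integral_finsetSum _ fun k _ => integrable_finsetSum _ fun l _ =>
      (hint _).const_mul _]
    have h2 : ∀ k ∈ ball (NK K) (Real.exp L),
        ∫ u : ℝ, ∑ l ∈ ball (NK K) (Real.exp L), bK2 L ψ k * bK2 L ψ l *
            (Dser ψ (Gf κ lam) (u + (lK k + lK l)) * cexp (z * u)) =
        ∑ l ∈ ball (NK K) (Real.exp L), (bK2 L ψ k * cexp (-(z * lK k))) *
          (bK2 L ψ l * cexp (-(z * lK l))) * (C₀ * Λ s) := by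
      intro k _
      rw [integral_finsetSum _ fun l _ => (hint _).const_mul _]
      refine Finset.sum_congr rfl fun l _ => ?_
      rw [integral_const_mul, hval]
      have h3 : cexp (-(z * ((lK k + lK l : ℝ) : ℂ))) =
          cexp (-(z * lK k)) * cexp (-(z * lK l)) := by
        rw [← Complex.exp_add]
        congr 1
        push_cast
        ring
      rw [h3]
      ring
    rw [Finset.sum_congr rfl h2]
    unfold Mo
    rw [← hz, pow_two, Finset.sum_mul_sum, Finset.mul_sum]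
    refine Finset.sum_congr rfl fun k _ => ?_
    rw [Finset.mul_sum]
    refine Finset.sum_congr rfl fun l _ => ?_
    ring
  -- the transform of `gK`
  have hg : (fun u : ℝ => gK κ lam u * cexp (z * u)) = fun u : ℝ =>
      kint K (Gf κ lam) u * cexp (s * u) := by
    funext u
    unfold gK
    have : cexp (s * u) = (Real.exp (u / 2) : ℂ) * cexp (z * u) := by
      rw [Complex.ofReal_exp, ← Complex.exp_add]
      congr 1
      rw [hz]
      push_cast
      ring
    rw [this]
    ring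
  obtain ⟨hg1, hg2⟩ := hm κ lam s hs
  rw [← hg] at hg1 hg2
  unfold HH hh
  rw [← hz]
  have h1 : (fun u : ℝ => (DK2 L κ lam ψ u - gK κ lam u) * cexp (z * u)) = fun u : ℝ =>
      DK2 L κ lam ψ u * cexp (z * u) - gK κ lam u * cexp (z * u) := by
    funext u
    ring
  rw [h1, integral_sub hDint hg1, hD, hg2]
  ring

theorem transf : type_of% @transf_pr := @transf_pr

end Pool.Agent.NL
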