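import Pool.Agent.Lib_helper41.NLF.Cont
import Pool.Agent.Lib_helper41.NLF.TR
import Pool.Agent.Lib_helper41.NLF.SUP
import Pool.Agent.Lib_helper41.NLF.GAML
import Pool.Agent.Lib_helper41.NLF.PLX
import Pool.Agent.Lib_helper41.NLF.AVG

/-! Block ONE: the zeros of one L-function. -/

namespace Pool.Agent.NL

open NumberField NumberField.InfinitePlace NumberField.Units Complex MeasureTheory Filter Topology
open Pool.Agent.HZ Pool.Agent.AS Pool.Agent.KS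
open scoped ENNReal

variable {K : Type} [Field K] [NumberField K]

/-- `G = Λ M² / γ` -/
noncomputable def ONE_G (L : ℝ) (κ : InfinitePlace K → ℤ) (lam : InfinitePlace K → ℝ)
    (ψ : Ideal (𝓞 K) →* ℂ) (Λ : ℂ → ℂ) (s : ℂ) : ℂ := Λ s * (Mo L ψ s ^ 2 * (gam κ lam s)⁻¹)

theorem ONE_Mo (L : ℝ) (ψ : Ideal (𝓞 K) →* ℂ) : Differentiable ℂ (Mo L ψ) := by
  unfold Mo
  fun_prop

theorem ONE_open : IsOpen {s : ℂ | 1 / 2 < s.re} := isOpen_lt continuous_const Complex.continuous_re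

theorem ONE_fac (L : ℝ) (κ : InfinitePlace K → ℤ) (lam : InfinitePlace K → ℝ)
    (ψ : Ideal (𝓞 K) →* ℂ) {s : ℂ} (hs : 1 / 2 < s.re) :
    AnalyticAt ℂ (fun s => Mo L ψ s ^ 2 * (gam κ lam s)⁻¹) s := by
  have h1 : AnalyticAt ℂ (gam κ lam) s := by
    have hopen : IsOpen {s : ℂ | 0 < s.re} := isOpen_lt continuous_const Complex.continuous_re
    exact (gam_analytic κ lam).analyticAt (hopen.mem_nhds (by
      show 0 < s.re
      linarith))
  exact (((ONE_Mo L ψ).analyticAt s).pow 2).mul (h1.inv (nzk_gam_ne κ lam (by linarith)))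

theorem ONE_analytic {L : ℝ} {κ : InfinitePlace K → ℤ} {lam : InfinitePlace K → ℝ}
    {ψ : Ideal (𝓞 K) →* ℂ} {Λ : ℂ → ℂ} (hΛ : Differentiable ℂ Λ) :
    AnalyticOnNhd ℂ (ONE_G L κ lam ψ Λ) {s : ℂ | 1 / 2 < s.re} := by
  intro s hs
  exact (hΛ.analyticAt s).mul (ONE_fac L κ lam ψ hs)

theorem ONE_order {L : ℝ} {κ : InfinitePlace K → ℤ} {lam : InfinitePlace K → ℝ}
    {ψ : Ideal (𝓞 K) →* ℂ} {Λ : ℂ → ℂ} (hΛ : Differentiable ℂ Λ) {s : ℂ} (hs : 1 / 2 < s.re) :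
    (analyticOrderNatAt Λ s : ℕ∞) ≤ analyticOrderAt (ONE_G L κ lam ψ Λ) s := by
  have h1 : analyticOrderAt (ONE_G L κ lam ψ Λ) s = analyticOrderAt Λ s +
      analyticOrderAt (fun s => Mo L ψ s ^ 2 * (gam κ lam s)⁻¹) s :=
    analyticOrderAt_mul (hΛ.analyticAt s) (ONE_fac L κ lam ψ hs)
  rw [h1]
  exact (ENat.coe_toNat_le_self _).trans le_self_add

theorem ONE_sub {C₀ : ℝ} (hC₀ : 0 < C₀) {L : ℝ} {κ : InfinitePlace K → ℤ}
    {lam : InfinitePlace K → ℝ} {ψ : Ideal (𝓞 K) →* ℂ} {Λ : ℂ → ℂ} {s : ℂ} (hs : 1 / 2 < s.re)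
    (h : HH L κ lam ψ s = C₀ * (Λ s * Mo L ψ s ^ 2 - gam κ lam s)) :
    ‖ONE_G L κ lam ψ Λ s - 1‖ = ‖HH L κ lam ψ s‖ / (C₀ * ‖gam κ lam s‖) := by
  have hg := nzk_gam_ne κ lam (s := s) (by linarith)
  have hC : (C₀ : ℂ) ≠ 0 := by exact_mod_cast hC₀.ne'
  have e : ONE_G L κ lam ψ Λ s - 1 = HH L κ lam ψ s / (C₀ * gam κ lam s) := by
    rw [h]
    unfold ONE_G
    field_simp
  rw [e, norm_div, norm_mul, Complex.norm_real, Real.norm_of_nonneg hC₀.le]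

theorem ONE_HH (L : ℝ) (κ : InfinitePlace K → ℤ) (lam : InfinitePlace K → ℝ)
    (ψ : Ideal (𝓞 K) →* ℂ) (x t : ℝ) {s : ℂ} (hs : s = 1 / 2 + x + t * I) :
    HH L κ lam ψ s = ∫ u : ℝ, hh L κ lam ψ u * cexp ((x + t * I) * u) := by
  unfold HH
  congr 1
  funext u
  congr 2
  rw [hs]
  ring

theorem one_char_pr (κ : InfinitePlace K → ℤ) (T B : ℝ) (hT : 0 ≤ T) : ∃ C c : ℝ, 0 ≤ C ∧ 0 < c ∧
    ∀ (𝔮 : Ideal (𝓞 K)), 𝔮 ≠ ⊥ → 𝔮 ≠ ⊤ →
    (∀ w : InfinitePlace K, w.IsReal → κ w = 0 ∨ κ w = 1) →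
    ∀ (χ : MulChar (𝓞 K ⧸ 𝔮) ℂ) (lam : InfinitePlace K → ℝ) (ψ : Ideal (𝓞 K) →* ℂ),
      IsPrim 𝔮 χ → (∀ w, |lam w| ≤ B) → ∑ w, lam w = 0 → IsHecke 𝔮 κ lam χ ψ →
      ∀ Λ : ℂ → ℂ, IsCompleted κ lam ψ Λ → ∀ L : ℝ, 1 ≤ L →
      (Real.exp (-(L / 2)) * (1 + ∫ u, ‖DK2 L κ lam ψ u‖ ^ 2) ≤ c) →
      ∀ η : ℝ, 0 < η → η ≤ 1 / 2 →
        offR Λ T (2 * η) ≤ ENNReal.ofReal (C / (η * √η) * (
          (∫ θ in (0 : ℝ)..(2 * Real.pi), ∫ u, ‖hh L κ lam ψ u‖ ^ 2 *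
            Real.exp (2 * (1 + η + Real.cos θ) * u)) +
          ∫ u, ‖hh L κ lam ψ u‖ ^ 2 * Real.exp (2 * (1 + η) * u))) := by
  classical
  obtain ⟨C₀, hC₀, hm⟩ := mellin_kint (K := K)
  obtain ⟨m, hm0, hgl⟩ := gam_low κ B (T + 2)
  obtain ⟨Cs, hCs, hsup⟩ := sup_bound κ
  have hpi := Real.pi_pos
  refine ⟨4 * Real.pi / (C₀ * m) ^ 2, (C₀ * m / 2) ^ 2 / (Cs + 1), by positivity, by positivity,
    fun 𝔮 h𝔮 h𝔮' hκ χ lam ψ hχ hlB hlam hψ Λ hΛ L hL hgood η hη hη1 => ?_⟩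
  set G := ONE_G L κ lam ψ Λ with hG
  have hGa : AnalyticOnNhd ℂ G {s : ℂ | 1 / 2 < s.re} := ONE_analytic hΛ.1
  have htr : ∀ {s : ℂ}, 1 / 2 < s.re →
      HH L κ lam ψ s = C₀ * (Λ s * Mo L ψ s ^ 2 - gam κ lam s) := fun {s} hs =>
    transf hC₀ hm hκ hlam h𝔮 h𝔮' hχ hψ hΛ L (by linarith)
  -- pointwise comparison
  have hcmp : ∀ s : ℂ, 1 / 2 < s.re → s.re ≤ 5 → |s.im| ≤ T + 2 →
      ‖G s - 1‖ ≤ ‖HH L κ lam ψ s‖ / (C₀ * m) := by
    intro s hs hs5 him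
    rw [hG, ONE_sub hC₀ hs (htr hs)]
    have h1 := hgl lam hlB s hs.le hs5 him
    gcongr
  have hre : ∀ x t : ℝ, (3 / 2 + (x : ℂ) + t * I).re = 3 / 2 + x := by
    intro x t; simp
  -- the centres
  have h0 : ∀ t : ℝ, |t| ≤ T + 1 → ‖G (3 / 2 + η + t * I) - 1‖ ≤ 1 / 2 := by
    intro t ht
    have hs1 := hre η t
    have him : (3 / 2 + (η : ℂ) + t * I).im = t := by simp
    have h1 := hcmp (3 / 2 + η + t * I) (by rw [hs1]; linarith) (by rw [hs1]; linarith)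
      (by rw [him]; linarith)
    have h2 := hsup 𝔮 h𝔮 h𝔮' hκ χ lam ψ hχ hlam hψ L hL (3 / 2 + η + t * I)
      (by rw [hs1]; linarith) (by rw [hs1]; linarith)
    have h3 : ‖HH L κ lam ψ (3 / 2 + η + t * I)‖ ^ 2 ≤ (C₀ * m / 2) ^ 2 := by
      refine h2.trans ?_
      rw [mul_assoc]
      calc Cs * (Real.exp (-(L / 2)) * (1 + ∫ u, ‖DK2 L κ lam ψ u‖ ^ 2))
          ≤ Cs * ((C₀ * m / 2) ^ 2 / (Cs + 1)) := by gcongr
        _ = Cs / (Cs + 1) * (C₀ * m / 2) ^ 2 := by ring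
        _ ≤ 1 * (C₀ * m / 2) ^ 2 := by
            gcongr
            rw [div_le_one (by linarith)]
            linarith
        _ = _ := one_mul _
    have h4 : ‖HH L κ lam ψ (3 / 2 + η + t * I)‖ ≤ C₀ * m / 2 :=
      (sq_le_sq₀ (norm_nonneg _) (by positivity)).1 h3
    refine h1.trans ?_
    rw [div_le_iff₀ (by positivity)]
    linarith
  -- Plancherel on each line
  obtain ⟨hhc, -, -, hint⟩ := hh_nice hκ hlam h𝔮 h𝔮' hχ hψ L
  have hline : ∀ x : ℝ, -(1 : ℝ) < x → x ≤ 3 / 2 →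
      ∫ t in (-(T + 2))..(T + 2), ‖G (3 / 2 + x + t * I) - 1‖ ^ 2 ≤
        2 * Real.pi / (C₀ * m) ^ 2 * ∫ u, ‖hh L κ lam ψ u‖ ^ 2 * Real.exp (2 * (1 + x) * u) := by
    intro x hx0 hx1
    have hc1 : Continuous (fun t : ℝ => ‖G (3 / 2 + x + t * I) - 1‖ ^ 2) := by
      have h1 : Continuous (fun t : ℝ => G (3 / 2 + x + t * I)) := by
        refine hGa.continuousOn.comp_continuous (by fun_prop) fun t => ?_
        show 1 / 2 < (3 / 2 + (x : ℂ) + t * I).re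
        rw [hre]; linarith
      exact (h1.sub continuous_const).norm.pow 2
    obtain ⟨hi1, hi2⟩ := hint (1 + x) (by linarith) (by linarith)
    obtain ⟨hp1, hp2⟩ := plancherel_x hhc hi1 hi2
    have e : ∀ t : ℝ, HH L κ lam ψ (3 / 2 + x + t * I) =
        ∫ u : ℝ, hh L κ lam ψ u * cexp ((((1 + x : ℝ) : ℂ) + t * I) * u) := by
      intro t
      refine ONE_HH L κ lam ψ (1 + x) t ?_
      push_cast
      ring
    have hle : -(T + 2) ≤ T + 2 := by linarith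
    calc ∫ t in (-(T + 2))..(T + 2), ‖G (3 / 2 + x + t * I) - 1‖ ^ 2
        ≤ ∫ t in (-(T + 2))..(T + 2), ((C₀ * m) ^ 2)⁻¹ *
            ‖∫ u : ℝ, hh L κ lam ψ u * cexp ((((1 + x : ℝ) : ℂ) + t * I) * u)‖ ^ 2 := by
          refine intervalIntegral.integral_mono_on hle (hc1.intervalIntegrable _ _)
            ((hp1.const_mul _).intervalIntegrable) fun t ht => ?_
          have him : (3 / 2 + (x : ℂ) + t * I).im = t := by simp
          have h1 := hcmp (3 / 2 + x + t * I) (by rw [hre]; linarith) (by rw [hre]; linarith)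
            (by rw [him]; exact abs_le.2 ⟨ht.1, ht.2⟩)
          rw [← e t]
          calc ‖G (3 / 2 + x + t * I) - 1‖ ^ 2
              ≤ (‖HH L κ lam ψ (3 / 2 + x + t * I)‖ / (C₀ * m)) ^ 2 := by gcongr
            _ = _ := by rw [div_pow]; ring
      _ ≤ ((C₀ * m) ^ 2)⁻¹ * ∫ t : ℝ,
            ‖∫ u : ℝ, hh L κ lam ψ u * cexp ((((1 + x : ℝ) : ℂ) + t * I) * u)‖ ^ 2 := by
          rw [intervalIntegral.integral_const_mul]
          refine mul_le_mul_of_nonneg_left ?_ (by positivity)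
          rw [intervalIntegral.integral_of_le hle]
          exact setIntegral_le_integral hp1 (Eventually.of_forall fun t => by positivity)
      _ = _ := by rw [hp2]; ring
  -- the circle
  set Ic : ℝ → ℝ := fun θ => ∫ u, ‖hh L κ lam ψ u‖ ^ 2 *
    Real.exp (2 * (1 + η + Real.cos θ) * u) with hIc
  set Jc : ℝ := ∫ u, ‖hh L κ lam ψ u‖ ^ 2 * Real.exp (2 * (1 + η) * u) with hJc
  have hIcc : Continuous Ic := aux_cont hκ hlam h𝔮 h𝔮' hχ hψ L hη.le hη1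
  have hIc0 : ∀ θ, 0 ≤ Ic θ := fun θ => integral_nonneg fun u => by positivity
  have hJc0 : 0 ≤ Jc := integral_nonneg fun u => by positivity
  have hcirc : ∫ θ in (0 : ℝ)..(2 * Real.pi), ∫ t in (-(T + 2))..(T + 2),
      ‖G (3 / 2 + η + Real.cos θ + t * I) - 1‖ ^ 2 ≤
      2 * Real.pi / (C₀ * m) ^ 2 * ∫ θ in (0 : ℝ)..(2 * Real.pi), Ic θ := by
    rw [← intervalIntegral.integral_const_mul]
    refine intervalIntegral.integral_mono_on (by positivity) ?_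
      ((hIcc.const_mul _).intervalIntegrable _ _) fun θ _ => ?_
    · apply Continuous.intervalIntegrable
      have h1 : Continuous (fun p : ℝ × ℝ =>
          G (3 / 2 + η + Real.cos p.1 + p.2 * I)) := by
        refine hGa.continuousOn.comp_continuous (by fun_prop) fun p => ?_
        show 1 / 2 < (3 / 2 + (η : ℂ) + Real.cos p.1 + p.2 * I).re
        have : (3 / 2 + (η : ℂ) + Real.cos p.1 + p.2 * I).re = 3 / 2 + η + Real.cos p.1 := by
          simp [-Complex.ofReal_cos]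
        rw [this]
        linarith [Real.neg_one_le_cos p.1]
      have h2 : Continuous (fun p : ℝ × ℝ =>
          ‖G (3 / 2 + η + Real.cos p.1 + p.2 * I) - 1‖ ^ 2) :=
        (h1.sub continuous_const).norm.pow 2
      exact intervalIntegral.continuous_parametric_intervalIntegral_of_continuous' h2 _ _
    · have h1 := hline (η + Real.cos θ) (by linarith [Real.neg_one_le_cos θ])
        (by linarith [Real.cos_le_one θ])
      have e1 : ∀ t : ℝ, (3 / 2 + ((η + Real.cos θ : ℝ) : ℂ) + t * I) =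
          3 / 2 + η + Real.cos θ + t * I := by
        intro t; push_cast; ring
      simp_rw [e1] at h1
      rw [← add_assoc] at h1
      exact h1
  have hcent := hline η (by linarith) (by linarith)
  -- finite sums
  unfold offR
  rw [ENNReal.tsum_eq_iSup_sum]
  refine iSup_le fun s => ?_
  set Z : Finset ℂ := (s.image Subtype.val).filter fun ρ => Λ ρ = 0 with hZ
  set n : ℂ → ℕ := fun ρ => analyticOrderNatAt Λ ρ with hn
  have hsum : ∑ ρ ∈ s, (analyticOrderNatAt Λ ρ.1 : ℝ≥0∞) =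
      ENNReal.ofReal (∑ ρ ∈ Z, (n ρ : ℝ)) := by
    have h1 : ∑ ρ ∈ Z, (n ρ : ℝ) = ∑ ρ ∈ s.image Subtype.val, (n ρ : ℝ) := by
      rw [hZ, Finset.sum_filter]
      refine Finset.sum_congr rfl fun ρ _ => ?_
      split_ifs with h
      · rfl
      · have h2 : analyticOrderAt Λ ρ = 0 :=
          (hΛ.1.analyticAt ρ).analyticOrderAt_eq_zero.2 h
        have h3 : n ρ = 0 := by
          rw [hn]
          simp only [analyticOrderNatAt, h2]
          rfl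
        rw [h3, Nat.cast_zero]
    rw [h1, Finset.sum_image (fun a _ b _ h => Subtype.ext h),
      ENNReal.ofReal_sum_of_nonneg (fun _ _ => by positivity)]
    refine Finset.sum_congr rfl fun ρ _ => ?_
    rw [ENNReal.ofReal_natCast]
  rw [hsum]
  apply ENNReal.ofReal_le_ofReal
  have hψle := nzk_psi_le hψ
  have hψ0 := nzk_psi_bot h𝔮' hψ
  have hstrip : ∀ ρ : ℂ, Λ ρ = 0 → ρ.re ≤ 1 := by
    intro ρ h
    by_contra hgt
    push Not at hgt
    have h1 := hΛ.2 ρ hgt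
    rw [h] at h1
    exact mul_ne_zero (nzk_gam_ne κ lam (by linarith)) (nzk_L_ne hψle hψ0 hgt) h1.symm
  have hkey := avg_count hη hη1 hT hGa h0 Z n (by
    intro ρ hρ
    obtain ⟨hρ1, hρ2⟩ := Finset.mem_filter.1 hρ
    obtain ⟨z, -, hz⟩ := Finset.mem_image.1 hρ1
    rw [← hz] at hρ2 ⊢
    refine ⟨z.2.2, hstrip _ hρ2, z.2.1, ONE_order hΛ.1 ?_⟩
    have := z.2.2
    linarith)
  have hsq := Real.sqrt_pos.2 hη
  set X : ℝ := ∫ θ in (0 : ℝ)..(2 * Real.pi), Ic θ with hX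
  have hX0 : 0 ≤ X := intervalIntegral.integral_nonneg (by positivity) fun θ _ => hIc0 θ
  have hfin : (∑ ρ ∈ Z, (n ρ : ℝ)) * (η / 2 * √η) ≤ 2 * Real.pi / (C₀ * m) ^ 2 * (X + Jc) := by
    refine hkey.trans ?_
    have h1 : 1 / 2 * (2 * Real.pi)⁻¹ ≤ 1 := by
      rw [← div_eq_mul_inv, div_le_one (by positivity)]
      linarith [Real.pi_gt_three]
    have h2 : 0 ≤ 2 * Real.pi / (C₀ * m) ^ 2 * X := by positivity
    calc _ ≤ 1 / 2 * (2 * Real.pi)⁻¹ * (2 * Real.pi / (C₀ * m) ^ 2 * X) +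
          2 * Real.pi / (C₀ * m) ^ 2 * Jc :=
          add_le_add (mul_le_mul_of_nonneg_left hcirc (by positivity)) hcent
      _ ≤ 1 * (2 * Real.pi / (C₀ * m) ^ 2 * X) + 2 * Real.pi / (C₀ * m) ^ 2 * Jc := by gcongr
      _ = _ := by ring
  have hpos : 0 < η / 2 * √η := by positivity
  rw [← le_div_iff₀ hpos] at hfin
  refine hfin.trans (le_of_eq ?_)
  field_simp
  ring

theorem one_char : type_of% @one_char_pr := @one_char_pr

end Pool.Agent.NL
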