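import Mathlib

/-!
# NL, block THE: the integral over the circle
-/

namespace Pool.Agent.NL

open MeasureTheory Filter Topology

theorem theta_int_pr : ∃ C : ℝ, 0 ≤ C ∧ ∀ L : ℝ, 1 ≤ L →
    ∫ θ in (0 : ℝ)..(2 * Real.pi), Real.exp (-((1 + Real.cos θ) * L / 2)) ≤ C / √L := by
  have hπ := Real.pi_pos
  refine ⟨√(Real.pi ^ 3), Real.sqrt_nonneg _, fun L hL => ?_⟩
  have hL0 : 0 < L := by linarith
  have h1 : ∫ θ in (0 : ℝ)..(2 * Real.pi), Real.exp (-((1 + Real.cos θ) * L / 2)) =
      ∫ φ in (-Real.pi)..Real.pi, Real.exp (-((1 - Real.cos φ) * L / 2)) := by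
    have h2 := intervalIntegral.integral_comp_add_right (a := -Real.pi) (b := Real.pi)
      (fun θ => Real.exp (-((1 + Real.cos θ) * L / 2))) Real.pi
    rw [show -Real.pi + Real.pi = 0 by ring, show Real.pi + Real.pi = 2 * Real.pi by ring] at h2
    rw [← h2]
    apply intervalIntegral.integral_congr
    intro φ _
    simp only
    rw [Real.cos_add_pi, ← sub_eq_add_neg]
  have hgi : Integrable fun φ : ℝ => Real.exp (-(L / Real.pi ^ 2) * φ ^ 2) :=
    integrable_exp_neg_mul_sq (by positivity)
  rw [h1, intervalIntegral.integral_of_le (by linarith)]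
  calc ∫ φ in Set.Ioc (-Real.pi) Real.pi, Real.exp (-((1 - Real.cos φ) * L / 2))
      ≤ ∫ φ in Set.Ioc (-Real.pi) Real.pi, Real.exp (-(L / Real.pi ^ 2) * φ ^ 2) := by
        apply setIntegral_mono_on _ hgi.integrableOn measurableSet_Ioc
        · intro φ hφ
          have h3 : |φ| ≤ Real.pi := abs_le.2 ⟨hφ.1.le, hφ.2⟩
          have h4 := Real.cos_le_one_sub_mul_cos_sq h3
          apply Real.exp_le_exp.2
          have h5 : 2 / Real.pi ^ 2 * φ ^ 2 ≤ 1 - Real.cos φ := by linarith
          have h6 := mul_le_mul_of_nonneg_right h5 (by positivity : 0 ≤ L / 2)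
          have h7 : 2 / Real.pi ^ 2 * φ ^ 2 * (L / 2) = L / Real.pi ^ 2 * φ ^ 2 := by
            field_simp
          rw [h7] at h6
          linarith
        · have hc : Continuous fun φ : ℝ => Real.exp (-((1 - Real.cos φ) * L / 2)) := by fun_prop
          exact (hc.integrableOn_Icc).mono_set Set.Ioc_subset_Icc_self
    _ ≤ ∫ φ : ℝ, Real.exp (-(L / Real.pi ^ 2) * φ ^ 2) :=
        setIntegral_le_integral hgi (Eventually.of_forall fun φ => (Real.exp_pos _).le)
    _ = √(Real.pi ^ 3) / √L := by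
        rw [integral_gaussian, ← Real.sqrt_div (by positivity)]
        congr 1
        field_simp

theorem theta_int : type_of% @theta_int_pr := @theta_int_pr

end Pool.Agent.NL
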