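import Pool.Agent.Lib_helper41.NL.Defs
import Pool.Agent.Lib_helper92.KSA.FinB
import Pool.Agent.Lib_helper41.NLF.NICE
import Pool.Agent.Lib_helper41.NLF.TAIL
import Pool.Agent.Lib_helper41.NLF.EN2

/-! Block WT: the weighted energy of `h` (helper58). -/

namespace Pool.Agent.NL

open NumberField NumberField.InfinitePlace NumberField.Units Complex MeasureTheory Filter Topology
open Pool.Agent.HZ Pool.Agent.AS Pool.Agent.KS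
open scoped ENNReal

variable {K : Type} [Field K] [NumberField K]

theorem WT_sq {a b : ℂ} : ‖a - b‖ ^ 2 ≤ 2 * ‖a‖ ^ 2 + 2 * ‖b‖ ^ 2 := by
  have h := norm_sub_le a b
  have h2 : ‖a - b‖ ^ 2 ≤ (‖a‖ + ‖b‖) ^ 2 := by gcongr
  nlinarith [sq_nonneg (‖a‖ - ‖b‖)]

theorem WT_int : Integrable (fun u : ℝ => Real.exp (-(1 * |u|))) :=
  fin_integrable_exp_abs one_pos

/-- one function -/
theorem weighted_one_pr (κ : InfinitePlace K → ℤ) : ∃ C : ℝ, 0 ≤ C ∧ ∀ (𝔮 : Ideal (𝓞 K)),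
    𝔮 ≠ ⊥ → 𝔮 ≠ ⊤ → (∀ w : InfinitePlace K, w.IsReal → κ w = 0 ∨ κ w = 1) →
    ∀ (χ : MulChar (𝓞 K ⧸ 𝔮) ℂ) (lam : InfinitePlace K → ℝ) (ψ : Ideal (𝓞 K) →* ℂ),
      IsPrim 𝔮 χ → ∑ w, lam w = 0 → IsHecke 𝔮 κ lam χ ψ → ∀ L : ℝ, 1 ≤ L →
      ∀ x : ℝ, 0 ≤ x → x ≤ 4 →
        ∫ u, ‖hh L κ lam ψ u‖ ^ 2 * Real.exp (2 * x * u) ≤
          C * Real.exp (-(x * L / 2)) * (1 + ∫ u, ‖DK2 L κ lam ψ u‖ ^ 2) := by
  obtain ⟨Ct, hCt, ht⟩ := tail (K := K) κ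
  obtain ⟨E, hE, hgE⟩ := gK_energy (K := K) κ
  set J : ℝ := ∫ u : ℝ, Real.exp (-(1 * |u|)) with hJ
  have hJ0 : 0 ≤ J := integral_nonneg fun u => (Real.exp_pos _).le
  refine ⟨2 + 2 * E + Ct ^ 2 * J, by positivity, ?_⟩
  intro 𝔮 h𝔮 h𝔮' hκ χ lam ψ hχ hlam hψ L hL x hx hx4
  obtain ⟨hc1, hc2, hi1, hi2⟩ := hh_nice hκ hlam h𝔮 h𝔮' hχ hψ L
  have hi3 := (hi2 x hx (by linarith)).2
  have hgi : Integrable (fun u => ‖gK (K := K) κ lam u‖ ^ 2) := (gK_nice κ lam).sq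
  have hJi : Integrable (fun u : ℝ => Real.exp (-(1 * |u + L / 4|))) :=
    WT_int.comp_add_right (L / 4)
  have hJe : ∫ u : ℝ, Real.exp (-(1 * |u + L / 4|)) = J :=
    integral_add_right_eq_self (fun u : ℝ => Real.exp (-(1 * |u|))) (L / 4)
  set e : ℝ := Real.exp (-(x * L / 2)) with he
  have he0 : 0 < e := Real.exp_pos _
  have hpt : ∀ u : ℝ, ‖hh L κ lam ψ u‖ ^ 2 * Real.exp (2 * x * u) ≤
      e * (2 * ‖DK2 L κ lam ψ u‖ ^ 2 + 2 * ‖gK (K := K) κ lam u‖ ^ 2 +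
        Ct ^ 2 * Real.exp (-(1 * |u + L / 4|))) := by
    intro u
    rcases le_or_gt u (-(L / 4)) with hu | hu
    · have h1 : Real.exp (2 * x * u) ≤ e := by
        apply Real.exp_le_exp.2
        nlinarith
      have h2 : ‖hh L κ lam ψ u‖ ^ 2 ≤ 2 * ‖DK2 L κ lam ψ u‖ ^ 2 + 2 * ‖gK (K := K) κ lam u‖ ^ 2 :=
        WT_sq
      calc ‖hh L κ lam ψ u‖ ^ 2 * Real.exp (2 * x * u)
          ≤ (2 * ‖DK2 L κ lam ψ u‖ ^ 2 + 2 * ‖gK (K := K) κ lam u‖ ^ 2) * e := by gcongr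
        _ ≤ (2 * ‖DK2 L κ lam ψ u‖ ^ 2 + 2 * ‖gK (K := K) κ lam u‖ ^ 2 +
              Ct ^ 2 * Real.exp (-(1 * |u + L / 4|))) * e := by
            refine mul_le_mul_of_nonneg_right ?_ he0.le
            have : 0 ≤ Ct ^ 2 * Real.exp (-(1 * |u + L / 4|)) := by positivity
            linarith
        _ = _ := by ring
    · have h1 := ht 𝔮 h𝔮 h𝔮' χ lam ψ hψ L hL u hu.le
      have h2 : ‖hh L κ lam ψ u‖ ^ 2 * Real.exp (2 * x * u) ≤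
          e * (Ct ^ 2 * Real.exp (-(1 * |u + L / 4|))) := by
        calc ‖hh L κ lam ψ u‖ ^ 2 * Real.exp (2 * x * u)
            ≤ (Ct * Real.exp (-(10 * L)) * Real.exp (-(20 * (u + L / 4)))) ^ 2 *
              Real.exp (2 * x * u) := by gcongr
          _ = Ct ^ 2 * Real.exp (2 * (-(10 * L)) + 2 * (-(20 * (u + L / 4))) + 2 * x * u) := by
              rw [Real.exp_add, Real.exp_add, two_mul (-(10 * L)), Real.exp_add,
                two_mul (-(20 * (u + L / 4))), Real.exp_add]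
              ring
          _ ≤ Ct ^ 2 * Real.exp (-(x * L / 2) + -(1 * |u + L / 4|)) := by
              refine mul_le_mul_of_nonneg_left (Real.exp_le_exp.2 ?_) (by positivity)
              rw [abs_of_pos (by linarith)]
              nlinarith [mul_nonneg (sub_nonneg.2 hx4) (by linarith : 0 ≤ u + L / 4)]
          _ = e * (Ct ^ 2 * Real.exp (-(1 * |u + L / 4|))) := by
              rw [Real.exp_add]; ring
      refine h2.trans ?_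
      refine mul_le_mul_of_nonneg_left ?_ he0.le
      have : 0 ≤ 2 * ‖DK2 L κ lam ψ u‖ ^ 2 + 2 * ‖gK (K := K) κ lam u‖ ^ 2 := by positivity
      linarith
  have hI : Integrable (fun u => e * (2 * ‖DK2 L κ lam ψ u‖ ^ 2 +
      2 * ‖gK (K := K) κ lam u‖ ^ 2 + Ct ^ 2 * Real.exp (-(1 * |u + L / 4|)))) :=
    (((hi1.const_mul 2).add (hgi.const_mul 2)).add (hJi.const_mul _)).const_mul e
  have hD0 : 0 ≤ ∫ u, ‖DK2 L κ lam ψ u‖ ^ 2 := integral_nonneg fun u => by positivity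
  calc ∫ u, ‖hh L κ lam ψ u‖ ^ 2 * Real.exp (2 * x * u)
      ≤ ∫ u, e * (2 * ‖DK2 L κ lam ψ u‖ ^ 2 + 2 * ‖gK (K := K) κ lam u‖ ^ 2 +
          Ct ^ 2 * Real.exp (-(1 * |u + L / 4|))) := integral_mono hi3 hI hpt
    _ = e * (2 * (∫ u, ‖DK2 L κ lam ψ u‖ ^ 2) + 2 * (∫ u, ‖gK (K := K) κ lam u‖ ^ 2) +
          Ct ^ 2 * J) := by
        have i1 : Integrable (fun u => 2 * ‖DK2 L κ lam ψ u‖ ^ 2 +
          2 * ‖gK (K := K) κ lam u‖ ^ 2) := (hi1.const_mul 2).add (hgi.const_mul 2)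
        rw [integral_const_mul, integral_add i1
          (hJi.const_mul _), integral_add (hi1.const_mul 2) (hgi.const_mul 2),
          integral_const_mul, integral_const_mul, integral_const_mul, hJe]
    _ ≤ e * (2 * (∫ u, ‖DK2 L κ lam ψ u‖ ^ 2) + 2 * E + Ct ^ 2 * J) := by
        gcongr
        exact hgE lam
    _ ≤ (2 + 2 * E + Ct ^ 2 * J) * e * (1 + ∫ u, ‖DK2 L κ lam ψ u‖ ^ 2) := by
        have h1 : 0 ≤ (2 + (2 * E + Ct ^ 2 * J) * ∫ u, ‖DK2 L κ lam ψ u‖ ^ 2) * e := by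
          positivity
        nlinarith

/-- the family -/
theorem weighted_pr (κ : InfinitePlace K → ℤ) : ∃ C : ℝ, 0 ≤ C ∧ ∀ (𝔮 : Ideal (𝓞 K))
    (E : Finset (MulChar (𝓞 K ⧸ 𝔮) ℂ)) (lam : MulChar (𝓞 K ⧸ 𝔮) ℂ → InfinitePlace K → ℝ)
    (ψ : MulChar (𝓞 K ⧸ 𝔮) ℂ → (Ideal (𝓞 K) →* ℂ)), Fam 𝔮 κ E lam ψ → ∀ L : ℝ, 2 ≤ L →
      32 * L = Real.log (cond 𝔮) → ∀ x : ℝ, 0 ≤ x → x ≤ 4 →
      ∑ χ ∈ E, ∫ u, ‖hh L κ (lam χ) (ψ χ) u‖ ^ 2 * Real.exp (2 * x * u) ≤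
        C * (Nat.card (𝓞 K ⧸ 𝔮)ˣ : ℝ) * Real.exp (-(x * L / 2)) := by
  obtain ⟨C₁, hC₁, h1⟩ := weighted_one_pr (K := K) κ
  obtain ⟨C₂, hC₂, h2⟩ := energy2 (K := K) κ
  refine ⟨C₁ * (1 + C₂), by positivity, ?_⟩
  intro 𝔮 E lam ψ hF L hL hL' x hx hx4
  have hcard := card_le_units hF.bot E
  have he := h2 𝔮 E lam ψ hF L hL hL'
  calc ∑ χ ∈ E, ∫ u, ‖hh L κ (lam χ) (ψ χ) u‖ ^ 2 * Real.exp (2 * x * u)
      ≤ ∑ χ ∈ E, C₁ * Real.exp (-(x * L / 2)) * (1 + ∫ u, ‖DK2 L κ (lam χ) (ψ χ) u‖ ^ 2) :=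
        Finset.sum_le_sum fun χ hχ => h1 𝔮 hF.bot hF.top hF.real χ (lam χ) (ψ χ) (hF.prim χ hχ)
          (hF.sum χ hχ) (hF.hecke χ hχ) L (by linarith) x hx hx4
    _ = C₁ * Real.exp (-(x * L / 2)) *
          ((E.card : ℝ) + ∑ χ ∈ E, ∫ u, ‖DK2 L κ (lam χ) (ψ χ) u‖ ^ 2) := by
        rw [← Finset.mul_sum, Finset.sum_add_distrib]
        simp
    _ ≤ C₁ * Real.exp (-(x * L / 2)) * ((Nat.card (𝓞 K ⧸ 𝔮)ˣ : ℝ) +
          C₂ * (Nat.card (𝓞 K ⧸ 𝔮)ˣ : ℝ)) := by gcongr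
    _ = _ := by ring

theorem weighted_one : type_of% @weighted_one_pr := @weighted_one_pr

theorem weighted : type_of% @weighted_pr := @weighted_pr

end Pool.Agent.NL
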