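import Pool.Agent.Lib_helper41.NLF.Cont
import Pool.Agent.Lib_helper41.NLF.ONE
import Pool.Agent.Lib_helper41.NLF.WT
import Pool.Agent.Lib_helper41.NLF.EN2
import Pool.Agent.Lib_helper41.NLF.THE

/-! Block RIGHT: the zeros to the right of the line, a family with fixed `κ`. -/

namespace Pool.Agent.NL

open NumberField NumberField.InfinitePlace NumberField.Units Complex MeasureTheory Filter Topology
open Pool.Agent.HZ Pool.Agent.AS Pool.Agent.KS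
open scoped ENNReal

variable {K : Type} [Field K] [NumberField K]

theorem RIGHT_le_all (Λ : ℂ → ℂ) (T δ : ℝ) :
    offR Λ T δ ≤ ∑' ρ : {ρ : ℂ // |ρ.im| ≤ T}, (analyticOrderNatAt Λ ρ.1 : ℝ≥0∞) := by
  have hinj : Function.Injective (fun ρ : {ρ : ℂ // |ρ.im| ≤ T ∧ 1 / 2 + δ ≤ ρ.re} =>
      (⟨ρ.1, ρ.2.1⟩ : {ρ : ℂ // |ρ.im| ≤ T})) := by
    intro a b h
    exact Subtype.ext (congrArg (fun x : {ρ : ℂ // |ρ.im| ≤ T} => x.1) h)
  exact ENNReal.tsum_comp_le_tsum_of_injective hinj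
    (fun ρ : {ρ : ℂ // |ρ.im| ≤ T} => (analyticOrderNatAt Λ ρ.1 : ℝ≥0∞))

theorem RIGHT_num {ℓ L A : ℝ} (hℓ : 0 < ℓ) (hL : ℓ ≤ 32 * L) (hA : 1 ≤ A) (_ : A ≤ ℓ) :
    1 / (A / (2 * ℓ) * √(A / (2 * ℓ)) * √L) ≤ 16 * ℓ := by
  have hL0 : 0 < L := by linarith
  have h1 : 1 / (2 * ℓ) ≤ A / (2 * ℓ) := by gcongr
  have h0 : 0 < 1 / (2 * ℓ) := by positivity
  have h2 : √(1 / (2 * ℓ)) ≤ √(A / (2 * ℓ)) := Real.sqrt_le_sqrt h1
  have h3 : √(ℓ / 32) ≤ √L := Real.sqrt_le_sqrt (by linarith)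
  have h4 : √(1 / (2 * ℓ)) * √(ℓ / 32) = 1 / 8 := by
    rw [← Real.sqrt_mul (by positivity), show 1 / (2 * ℓ) * (ℓ / 32) = (1 / 8) ^ 2 by
      field_simp; norm_num]
    exact Real.sqrt_sq (by norm_num)
  have h5 : 1 / (16 * ℓ) ≤ A / (2 * ℓ) * √(A / (2 * ℓ)) * √L := by
    calc 1 / (16 * ℓ) = 1 / (2 * ℓ) * (√(1 / (2 * ℓ)) * √(ℓ / 32)) := by
          rw [h4]; field_simp; norm_num
      _ = 1 / (2 * ℓ) * √(1 / (2 * ℓ)) * √(ℓ / 32) := by ring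
      _ ≤ _ := by gcongr
  have h6 : (0 : ℝ) < 1 / (16 * ℓ) := by positivity
  calc 1 / (A / (2 * ℓ) * √(A / (2 * ℓ)) * √L) ≤ 1 / (1 / (16 * ℓ)) := by gcongr
    _ = 16 * ℓ := by field_simp

theorem right_sum_pr (κ : InfinitePlace K → ℤ) (T B : ℝ) (hT : 0 ≤ T) :
    ∃ C c : ℝ, 0 < C ∧ 0 < c ∧
    ∀ (𝔮 : Ideal (𝓞 K)) (E : Finset (MulChar (𝓞 K ⧸ 𝔮) ℂ))
    (lam : MulChar (𝓞 K ⧸ 𝔮) ℂ → InfinitePlace K → ℝ)
    (ψ : MulChar (𝓞 K ⧸ 𝔮) ℂ → (Ideal (𝓞 K) →* ℂ)), Fam 𝔮 κ E lam ψ →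
    (∀ χ ∈ E, ∀ w, |lam χ w| ≤ B) → ∀ Λ : MulChar (𝓞 K ⧸ 𝔮) ℂ → ℂ → ℂ,
    (∀ χ ∈ E, IsCompleted κ (lam χ) (ψ χ) (Λ χ)) → ∀ A : ℝ, 0 ≤ A →
    A ≤ Real.log (Ideal.absNorm 𝔮) →
      ∑ χ ∈ E, offR (Λ χ) T (A / Real.log (Ideal.absNorm 𝔮)) ≤
        ENNReal.ofReal (C * (Nat.card (𝓞 K ⧸ 𝔮)ˣ : ℝ) * Real.log (Ideal.absNorm 𝔮) *
          Real.exp (-(c * A))) := by
  classical
  by_cases hκ : ∀ w : InfinitePlace K, w.IsReal → κ w = 0 ∨ κ w = 1
  swap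
  · exact ⟨1, 1, one_pos, one_pos, fun 𝔮 E lam ψ hF => absurd hF.real hκ⟩
  obtain ⟨Cz, hCz, hz⟩ := zeros_le_K κ hκ T B
  obtain ⟨C1, c1, hC1, hc1, hone⟩ := one_char κ T B hT
  obtain ⟨C2, hC2, hw⟩ := weighted κ
  obtain ⟨C3, hC3, he⟩ := energy2 κ
  obtain ⟨C4, hC4, hth⟩ := theta_int
  refine ⟨2 * Cz + (1 + C3) * Cz / c1 + 16 * C1 * C2 * (C4 + 1), 1 / 128, by positivity,
    by norm_num, fun 𝔮 E lam ψ hF hlam Λ hΛ A hA hAℓ => ?_⟩
  set Φ : ℝ := (Nat.card (𝓞 K ⧸ 𝔮)ˣ : ℝ) with hΦ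
  have hΦ0 : 0 ≤ Φ := by positivity
  set ℓ : ℝ := Real.log (Ideal.absNorm 𝔮) with hℓ
  have hNq := two_le_norm hF.bot hF.top
  have hℓ0 : 0 < ℓ := Real.log_pos (by exact_mod_cast hNq)
  set Q : ℝ := Real.log (cond 𝔮) with hQ
  have hℓQ : ℓ ≤ Q := log_cond_ge hF.bot
  -- the trivial bound
  have hall : ∀ χ ∈ E, offR (Λ χ) T (A / ℓ) ≤ ENNReal.ofReal (Cz * ℓ) := fun χ hχ =>
    (RIGHT_le_all _ _ _).trans (hz 𝔮 hF.bot hF.top χ (hF.prim χ hχ) (lam χ) (hlam χ hχ)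
      (hF.sum χ hχ) (ψ χ) (hF.hecke χ hχ) (Λ χ) (hΛ χ hχ))
  have hallS : ∀ S : Finset (MulChar (𝓞 K ⧸ 𝔮) ℂ), S ⊆ E →
      ∑ χ ∈ S, offR (Λ χ) T (A / ℓ) ≤ ENNReal.ofReal (S.card * (Cz * ℓ)) := by
    intro S hS
    calc ∑ χ ∈ S, offR (Λ χ) T (A / ℓ) ≤ ∑ χ ∈ S, ENNReal.ofReal (Cz * ℓ) :=
          Finset.sum_le_sum fun χ hχ => hall χ (hS hχ)
      _ = ENNReal.ofReal (S.card * (Cz * ℓ)) := by
          rw [Finset.sum_const, nsmul_eq_mul,
            ENNReal.ofReal_mul (p := (S.card : ℝ)) (by positivity), ENNReal.ofReal_natCast]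
  by_cases hsmall : A < 1 ∨ Q / 32 < 2
  · have hA64 : A ≤ 64 := by
      rcases hsmall with h | h <;> linarith
    have h1 : (1 : ℝ) / 2 ≤ Real.exp (-(1 / 128 * A)) := by
      have h2 : 1 - 1 / 128 * A ≤ Real.exp (-(1 / 128 * A)) := by
        have := Real.add_one_le_exp (-(1 / 128 * A))
        linarith
      linarith
    refine (hallS E le_rfl).trans (ENNReal.ofReal_le_ofReal ?_)
    have hcard : (E.card : ℝ) ≤ Φ := card_le_units hF.bot E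
    calc (E.card : ℝ) * (Cz * ℓ) ≤ Φ * (Cz * ℓ) := by gcongr
      _ = 2 * Cz * Φ * ℓ * (1 / 2) := by ring
      _ ≤ 2 * Cz * Φ * ℓ * Real.exp (-(1 / 128 * A)) := by gcongr
      _ ≤ _ := by
          have h3 : 0 ≤ ((1 + C3) * Cz / c1 + 16 * C1 * C2 * (C4 + 1)) * Φ * ℓ *
            Real.exp (-(1 / 128 * A)) := by positivity
          linarith
  push Not at hsmall
  obtain ⟨hA1, hL2⟩ := hsmall
  set L : ℝ := Q / 32 with hLd
  have hL32 : 32 * L = Q := by rw [hLd]; ring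
  have hL0 : 0 < L := by linarith
  have hℓL : ℓ ≤ 32 * L := by linarith
  set η : ℝ := A / (2 * ℓ) with hη
  have hη0 : 0 < η := by positivity
  have hη1 : η ≤ 1 / 2 := by
    rw [hη, div_le_iff₀ (by positivity)]; linarith
  have h2η : A / ℓ = 2 * η := by rw [hη]; field_simp
  -- exceptional characters
  set D : MulChar (𝓞 K ⧸ 𝔮) ℂ → ℝ := fun χ => ∫ u, ‖DK2 L κ (lam χ) (ψ χ) u‖ ^ 2 with hD
  have hD0 : ∀ χ, 0 ≤ D χ := fun χ => integral_nonneg fun u => by positivity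
  have hDs : ∑ χ ∈ E, D χ ≤ C3 * Φ := he 𝔮 E lam ψ hF L hL2 hL32
  set E1 := E.filter fun χ => c1 < Real.exp (-(L / 2)) * (1 + D χ) with hE1
  set E2 := E.filter fun χ => ¬ c1 < Real.exp (-(L / 2)) * (1 + D χ) with hE2
  have hcard : (E.card : ℝ) ≤ Φ := card_le_units hF.bot E
  have hE1c : (E1.card : ℝ) ≤ (1 + C3) * Φ / c1 * Real.exp (-(L / 2)) := by
    have h1 : (E1.card : ℝ) * c1 ≤ ∑ χ ∈ E1, Real.exp (-(L / 2)) * (1 + D χ) := by
      rw [← nsmul_eq_mul, ← Finset.sum_const]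
      exact Finset.sum_le_sum fun χ hχ => (Finset.mem_filter.1 hχ).2.le
    have h2 : ∑ χ ∈ E1, Real.exp (-(L / 2)) * (1 + D χ) ≤
        ∑ χ ∈ E, Real.exp (-(L / 2)) * (1 + D χ) :=
      Finset.sum_le_sum_of_subset_of_nonneg (Finset.filter_subset _ _) fun χ _ _ =>
        mul_nonneg (Real.exp_pos _).le (by linarith [hD0 χ])
    have h3 : ∑ χ ∈ E, Real.exp (-(L / 2)) * (1 + D χ) ≤
        Real.exp (-(L / 2)) * ((1 + C3) * Φ) := by
      rw [← Finset.mul_sum, Finset.sum_add_distrib, Finset.sum_const, nsmul_eq_mul, mul_one]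
      refine mul_le_mul_of_nonneg_left ?_ (Real.exp_pos _).le
      linarith
    have h4 := h1.trans (h2.trans h3)
    rw [show (1 + C3) * Φ / c1 * Real.exp (-(L / 2)) =
      (Real.exp (-(L / 2)) * ((1 + C3) * Φ)) / c1 by ring, le_div_iff₀ hc1]
    exact h4
  have hexpL : Real.exp (-(L / 2)) ≤ Real.exp (-(1 / 128 * A)) :=
    Real.exp_le_exp.2 (by linarith)
  have hpart1 : ∑ χ ∈ E1, offR (Λ χ) T (A / ℓ) ≤
      ENNReal.ofReal ((1 + C3) * Cz / c1 * Φ * ℓ * Real.exp (-(1 / 128 * A))) := by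
    refine (hallS E1 (Finset.filter_subset _ _)).trans (ENNReal.ofReal_le_ofReal ?_)
    calc (E1.card : ℝ) * (Cz * ℓ) ≤ ((1 + C3) * Φ / c1 * Real.exp (-(L / 2))) * (Cz * ℓ) := by
          gcongr
      _ = (1 + C3) * Cz / c1 * Φ * ℓ * Real.exp (-(L / 2)) := by ring
      _ ≤ _ := by gcongr
  -- the good characters
  set I : MulChar (𝓞 K ⧸ 𝔮) ℂ → ℝ → ℝ := fun χ θ => ∫ u, ‖hh L κ (lam χ) (ψ χ) u‖ ^ 2 *
    Real.exp (2 * (1 + η + Real.cos θ) * u) with hI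
  set J : MulChar (𝓞 K ⧸ 𝔮) ℂ → ℝ := fun χ => ∫ u, ‖hh L κ (lam χ) (ψ χ) u‖ ^ 2 *
    Real.exp (2 * (1 + η) * u) with hJ
  have hI0 : ∀ χ θ, 0 ≤ I χ θ := fun χ θ => integral_nonneg fun u => by positivity
  have hJ0 : ∀ χ, 0 ≤ J χ := fun χ => integral_nonneg fun u => by positivity
  have hIc : ∀ χ ∈ E, Continuous (I χ) := fun χ hχ =>
    aux_cont hF.real (hF.sum χ hχ) hF.bot hF.top (hF.prim χ hχ) (hF.hecke χ hχ) L hη0.le hη1
  have hII0 : ∀ χ, 0 ≤ ∫ θ in (0 : ℝ)..(2 * Real.pi), I χ θ := fun χ =>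
    intervalIntegral.integral_nonneg (by positivity) fun θ _ => hI0 χ θ
  have hexp2 : Real.exp (-(L / 2)) ≤ 1 / √L := by
    rw [Real.exp_neg, inv_eq_one_div]
    refine one_div_le_one_div_of_le (Real.sqrt_pos.2 hL0) ?_
    have h3 : L ≤ Real.exp (L / 2) ^ 2 := by
      rw [← Real.exp_nat_mul]
      have := Real.add_one_le_exp ((2 : ℕ) * (L / 2))
      push_cast at this ⊢
      linarith
    rw [Real.sqrt_le_left (Real.exp_pos _).le]
    exact h3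
  have hsum : ∑ χ ∈ E, ((∫ θ in (0 : ℝ)..(2 * Real.pi), I χ θ) + J χ) ≤
      C2 * (C4 + 1) * Φ * Real.exp (-(1 / 128 * A)) * (1 / √L) := by
    have hA128 : Real.exp (-(η * L / 2)) ≤ Real.exp (-(1 / 128 * A)) := by
      apply Real.exp_le_exp.2
      have h1 : 1 / 128 * A ≤ η * L / 2 := by
        rw [hη, show A / (2 * ℓ) * L / 2 = A * (L / (4 * ℓ)) by field_simp; ring]
        have h2 : 1 / 128 ≤ L / (4 * ℓ) := by
          rw [div_le_div_iff₀ (by norm_num) (by positivity)]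
          linarith
        nlinarith
      linarith
    rw [Finset.sum_add_distrib]
    have e1 : ∑ χ ∈ E, ∫ θ in (0 : ℝ)..(2 * Real.pi), I χ θ =
        ∫ θ in (0 : ℝ)..(2 * Real.pi), ∑ χ ∈ E, I χ θ := by
      rw [intervalIntegral.integral_finsetSum]
      exact fun χ hχ => (hIc χ hχ).intervalIntegrable _ _
    have e2 : ∫ θ in (0 : ℝ)..(2 * Real.pi), ∑ χ ∈ E, I χ θ ≤
        ∫ θ in (0 : ℝ)..(2 * Real.pi), C2 * Φ * Real.exp (-(η * L / 2)) *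
          Real.exp (-((1 + Real.cos θ) * L / 2)) := by
      refine intervalIntegral.integral_mono_on (by positivity)
        ((continuous_finsetSum _ hIc).intervalIntegrable _ _)
        ((by fun_prop : Continuous fun θ : ℝ => C2 * Φ * Real.exp (-(η * L / 2)) *
          Real.exp (-((1 + Real.cos θ) * L / 2))).intervalIntegrable _ _) fun θ _ => ?_
      have h1 := hw 𝔮 E lam ψ hF L hL2 hL32 (1 + η + Real.cos θ)
        (by linarith [Real.neg_one_le_cos θ]) (by linarith [Real.cos_le_one θ])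
      refine h1.trans (le_of_eq ?_)
      rw [mul_assoc, mul_assoc, mul_assoc, ← Real.exp_add]
      congr 3
      ring
    have e3 : ∫ θ in (0 : ℝ)..(2 * Real.pi), C2 * Φ * Real.exp (-(η * L / 2)) *
          Real.exp (-((1 + Real.cos θ) * L / 2)) ≤
        C2 * Φ * Real.exp (-(1 / 128 * A)) * (C4 / √L) := by
      rw [intervalIntegral.integral_const_mul]
      have h1 := hth L (by linarith)
      have h0 : 0 ≤ ∫ θ in (0 : ℝ)..(2 * Real.pi), Real.exp (-((1 + Real.cos θ) * L / 2)) :=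
        intervalIntegral.integral_nonneg (by positivity) fun θ _ => (Real.exp_pos _).le
      gcongr
    have e4 : ∑ χ ∈ E, J χ ≤ C2 * Φ * Real.exp (-(1 / 128 * A)) * (1 / √L) := by
      have h1 := hw 𝔮 E lam ψ hF L hL2 hL32 (1 + η) (by linarith) (by linarith)
      refine h1.trans ?_
      have h2 : Real.exp (-((1 + η) * L / 2)) =
          Real.exp (-(η * L / 2)) * Real.exp (-(L / 2)) := by
        rw [← Real.exp_add]; congr 1; ring
      rw [h2, ← mul_assoc]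
      gcongr
    rw [e1]
    calc _ ≤ C2 * Φ * Real.exp (-(1 / 128 * A)) * (C4 / √L) +
        C2 * Φ * Real.exp (-(1 / 128 * A)) * (1 / √L) := add_le_add (e2.trans e3) e4
      _ = _ := by ring
  have hpart2 : ∑ χ ∈ E2, offR (Λ χ) T (A / ℓ) ≤
      ENNReal.ofReal (16 * C1 * C2 * (C4 + 1) * Φ * ℓ * Real.exp (-(1 / 128 * A))) := by
    have h1 : ∀ χ ∈ E2, offR (Λ χ) T (A / ℓ) ≤ ENNReal.ofReal (C1 / (η * √η) *
        ((∫ θ in (0 : ℝ)..(2 * Real.pi), I χ θ) + J χ)) := by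
      intro χ hχ
      obtain ⟨hχE, hχ2⟩ := Finset.mem_filter.1 hχ
      rw [h2η]
      exact hone 𝔮 hF.bot hF.top hF.real χ (lam χ) (ψ χ) (hF.prim χ hχE) (hlam χ hχE)
        (hF.sum χ hχE) (hF.hecke χ hχE) (Λ χ) (hΛ χ hχE) L (by linarith) (not_lt.1 hχ2) η hη0 hη1
    have hc0 : 0 ≤ C1 / (η * √η) := by positivity
    calc ∑ χ ∈ E2, offR (Λ χ) T (A / ℓ)
        ≤ ∑ χ ∈ E2, ENNReal.ofReal (C1 / (η * √η) *
            ((∫ θ in (0 : ℝ)..(2 * Real.pi), I χ θ) + J χ)) := Finset.sum_le_sum h1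
      _ = ENNReal.ofReal (∑ χ ∈ E2, C1 / (η * √η) *
            ((∫ θ in (0 : ℝ)..(2 * Real.pi), I χ θ) + J χ)) := by
          rw [ENNReal.ofReal_sum_of_nonneg]
          exact fun χ _ => mul_nonneg hc0 (add_nonneg (hII0 χ) (hJ0 χ))
      _ ≤ _ := by
          apply ENNReal.ofReal_le_ofReal
          rw [← Finset.mul_sum]
          have h2 : ∑ χ ∈ E2, ((∫ θ in (0 : ℝ)..(2 * Real.pi), I χ θ) + J χ) ≤
              ∑ χ ∈ E, ((∫ θ in (0 : ℝ)..(2 * Real.pi), I χ θ) + J χ) :=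
            Finset.sum_le_sum_of_subset_of_nonneg (Finset.filter_subset _ _)
              fun χ _ _ => add_nonneg (hII0 χ) (hJ0 χ)
          calc C1 / (η * √η) * ∑ χ ∈ E2, ((∫ θ in (0 : ℝ)..(2 * Real.pi), I χ θ) + J χ)
              ≤ C1 / (η * √η) * (C2 * (C4 + 1) * Φ * Real.exp (-(1 / 128 * A)) * (1 / √L)) :=
                mul_le_mul_of_nonneg_left (h2.trans hsum) hc0
            _ = C1 * (C2 * (C4 + 1) * Φ * Real.exp (-(1 / 128 * A))) *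
                (1 / (η * √η * √L)) := by
                have := Real.sqrt_pos.2 hL0
                have := Real.sqrt_pos.2 hη0
                field_simp
            _ ≤ C1 * (C2 * (C4 + 1) * Φ * Real.exp (-(1 / 128 * A))) * (16 * ℓ) := by
                gcongr
                exact RIGHT_num hℓ0 hℓL hA1 hAℓ
            _ = _ := by ring
  have hsplit : ∑ χ ∈ E, offR (Λ χ) T (A / ℓ) =
      ∑ χ ∈ E1, offR (Λ χ) T (A / ℓ) + ∑ χ ∈ E2, offR (Λ χ) T (A / ℓ) :=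
    (Finset.sum_filter_add_sum_filter_not E _ _).symm
  rw [hsplit]
  refine (add_le_add hpart1 hpart2).trans ?_
  rw [← ENNReal.ofReal_add (by positivity) (by positivity)]
  apply ENNReal.ofReal_le_ofReal
  have h3 : 0 ≤ 2 * Cz * Φ * ℓ * Real.exp (-(1 / 128 * A)) := by positivity
  linarith

theorem right_sum : type_of% @right_sum_pr := @right_sum_pr

end Pool.Agent.NL
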