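import Pool.Agent.Lib_helper41.NL.Defs

/-!
# Block SYM: the functional equation and the zeros on the left (MP_77948b_nt, HeckeNearLine)
-/

namespace Pool.Agent.NL

open NumberField NumberField.InfinitePlace NumberField.Units Complex MeasureTheory Filter Topology
open Pool.Agent.HZ Pool.Agent.AS Pool.Agent.KS
open scoped ENNReal

/-- the reflection in the critical line -/
noncomputable def symtau (s : ℂ) : ℂ := 1 - starRingEnd ℂ s

theorem symtau_tau (s : ℂ) : symtau (symtau s) = s := by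
  simp [symtau]

theorem symtau_cont : Continuous symtau := by
  unfold symtau
  exact continuous_const.sub Complex.continuous_conj

theorem sym_analytic {f : ℂ → ℂ} {z : ℂ} (hf : AnalyticAt ℂ f (symtau z)) :
    AnalyticAt ℂ (fun s => starRingEnd ℂ (f (symtau s))) z := by
  rw [Complex.analyticAt_iff_eventually_differentiableAt] at hf ⊢
  have h1 : Tendsto symtau (𝓝 z) (𝓝 (symtau z)) := symtau_cont.tendsto z
  filter_upwards [h1.eventually hf] with s hs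
  have h2 : DifferentiableAt ℂ (fun w => f (1 - w)) (starRingEnd ℂ s) := by
    have h3 : DifferentiableAt ℂ f (1 - starRingEnd ℂ s) := hs
    exact h3.comp (starRingEnd ℂ s) ((differentiableAt_const 1).sub differentiableAt_id)
  have h4 := h2.conj_conj
  rw [Complex.conj_conj] at h4
  exact h4

theorem sym_order {f : ℂ → ℂ} {z : ℂ} (hf : AnalyticAt ℂ f (symtau z)) :
    analyticOrderAt (fun s => starRingEnd ℂ (f (symtau s))) z =
      analyticOrderAt f (symtau z) := by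
  have h1 : Tendsto symtau (𝓝 z) (𝓝 (symtau z)) := symtau_cont.tendsto z
  by_cases htop : analyticOrderAt f (symtau z) = ⊤
  · rw [htop, analyticOrderAt_eq_top]
    rw [analyticOrderAt_eq_top] at htop
    filter_upwards [h1.eventually htop] with s hs
    rw [hs, map_zero]
  · obtain ⟨g, hg, hg0, hfg⟩ := hf.analyticOrderAt_ne_top.1 htop
    rw [← Nat.cast_analyticOrderNatAt htop, (sym_analytic hf).analyticOrderAt_eq_natCast]
    set n := analyticOrderNatAt f (symtau z) with hn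
    refine ⟨fun s => (-1) ^ n * starRingEnd ℂ (g (symtau s)), ?_, ?_, ?_⟩
    · exact analyticAt_const.mul (sym_analytic hg)
    · refine mul_ne_zero (pow_ne_zero _ (by norm_num)) ?_
      rw [Ne, map_eq_zero]
      exact hg0
    · filter_upwards [h1.eventually hfg] with s hs
      rw [hs]
      simp only [smul_eq_mul, map_mul, map_pow]
      have h5 : starRingEnd ℂ (symtau s - symtau z) = -1 * (s - z) := by
        unfold symtau
        simp only [map_sub, map_one, Complex.conj_conj]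
        ring
      rw [h5, mul_pow]
      ring

/-- A functional equation with a nonvanishing analytic factor preserves the orders. -/
theorem sym_order_fe {f e : ℂ → ℂ} (hf : Differentiable ℂ f) (he : Differentiable ℂ e)
    (he0 : ∀ s, e s ≠ 0) (hfe : ∀ s, f s = e s * starRingEnd ℂ (f (symtau s))) (z : ℂ) :
    analyticOrderNatAt f z = analyticOrderNatAt f (symtau z) := by
  have h1 : f = e * fun s => starRingEnd ℂ (f (symtau s)) := by
    funext s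
    exact hfe s
  have h2 : analyticOrderAt f z = analyticOrderAt f (symtau z) := by
    conv_lhs => rw [h1]
    rw [analyticOrderAt_mul (he.analyticAt z) (sym_analytic (hf.analyticAt _)),
      (he.analyticAt z).analyticOrderAt_eq_zero.2 (he0 z), zero_add,
      sym_order (hf.analyticAt _)]
  unfold analyticOrderNatAt
  rw [h2]

variable {K : Type} [Field K] [NumberField K]

theorem sym_fe {𝔮 : Ideal (𝓞 K)} {κ : InfinitePlace K → ℤ}
    (hκ : ∀ w : InfinitePlace K, w.IsReal → κ w = 0 ∨ κ w = 1) {lam : InfinitePlace K → ℝ}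
    (hlam : ∑ w, lam w = 0) (h𝔮 : 𝔮 ≠ ⊥) (h𝔮' : 𝔮 ≠ ⊤)
    {χ : MulChar (𝓞 K ⧸ 𝔮) ℂ} (hχ : IsPrim 𝔮 χ) {ψ : Ideal (𝓞 K) →* ℂ}
    (hψ : IsHecke 𝔮 κ lam χ ψ) {Λ : ℂ → ℂ} (hΛ : IsCompleted κ lam ψ Λ) :
    ∃ e : ℂ → ℂ, Differentiable ℂ e ∧ (∀ s, e s ≠ 0) ∧
      ∀ s, Λ s = e s * starRingEnd ℂ (Λ (symtau s)) := by
  obtain ⟨C₀, hC₀, hmel⟩ := mellin_kint (K := K)
  have hψ1 := nzk_psi_le hψ
  have hψ0 := nzk_psi_bot h𝔮' hψ
  obtain ⟨CG, hG⟩ := Gf_good κ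
  have hcont : Continuous (Dser ψ (Gf κ lam)) := Dser_continuous (hG lam) hψ1 hψ0
  have hdiff : Differentiable ℂ (nzk_F κ lam ψ) := by
    refine entire_of_decay hcont fun A => ?_
    obtain ⟨C, hC, h⟩ := nzk_D_le κ hκ (A := max A 1) (lt_of_lt_of_le (by norm_num)
      (le_max_right A 1))
    refine ⟨C * Real.exp (max A 1 * Real.log (Pool.Agent.HZ.cond 𝔮)), fun u => ?_⟩
    refine (h 𝔮 h𝔮 h𝔮' χ hχ lam hlam ψ hψ u).trans ?_
    refine mul_le_mul_of_nonneg_left (Real.exp_le_exp.2 ?_) (by positivity)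
    exact neg_le_neg (mul_le_mul_of_nonneg_right (le_max_left _ _) (abs_nonneg _))
  have hF : ∀ s, nzk_F κ lam ψ s = C₀ * Λ s :=
    nzk_F_eq κ lam ψ hψ1 hψ0 C₀ (fun s hs => (hmel κ lam s hs).2) hdiff Λ hΛ
  obtain ⟨Ω, hΩ, hfe⟩ := dser_fe hκ hlam h𝔮 h𝔮' hχ hψ
  set ℓ : ℝ := Real.log (Pool.Agent.HZ.cond 𝔮) with hℓ
  have hΩ0 : Ω ≠ 0 := by
    intro h
    rw [h, norm_zero] at hΩ
    exact zero_ne_one hΩ
  have hC : (C₀ : ℂ) ≠ 0 := by exact_mod_cast hC₀.ne'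
  refine ⟨fun s => Ω * cexp (-((s - 1 / 2) * ℓ)), ?_, ?_, ?_⟩
  · fun_prop
  · intro s
    exact mul_ne_zero hΩ0 (Complex.exp_ne_zero _)
  · intro s
    have h1 := nzk_F_fe κ lam ψ Ω ℓ hfe s
    rw [hF, hF, map_mul, Complex.conj_ofReal] at h1
    have h2 : (C₀ : ℂ) * Λ s = C₀ * (Ω * cexp (-((s - 1 / 2) * ℓ)) *
        starRingEnd ℂ (Λ (1 - starRingEnd ℂ s))) := by
      rw [h1]
      ring
    exact mul_left_cancel₀ hC h2

theorem off_sym_pr {𝔮 : Ideal (𝓞 K)} {κ : InfinitePlace K → ℤ}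
    (hκ : ∀ w : InfinitePlace K, w.IsReal → κ w = 0 ∨ κ w = 1) {lam : InfinitePlace K → ℝ}
    (hlam : ∑ w, lam w = 0) (h𝔮 : 𝔮 ≠ ⊥) (h𝔮' : 𝔮 ≠ ⊤)
    {χ : MulChar (𝓞 K ⧸ 𝔮) ℂ} (hχ : IsPrim 𝔮 χ) {ψ : Ideal (𝓞 K) →* ℂ}
    (hψ : IsHecke 𝔮 κ lam χ ψ) {Λ : ℂ → ℂ} (hΛ : IsCompleted κ lam ψ Λ) (T δ : ℝ) :
    offL Λ T δ = offR Λ T δ := by
  obtain ⟨e, he, he0, hfe⟩ := sym_fe hκ hlam h𝔮 h𝔮' hχ hψ hΛ
  have hord : ∀ z, analyticOrderNatAt Λ z = analyticOrderNatAt Λ (symtau z) :=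
    sym_order_fe hΛ.1 he he0 hfe
  have hre : ∀ s : ℂ, (symtau s).re = 1 - s.re := fun s => by simp [symtau]
  have him : ∀ s : ℂ, (symtau s).im = s.im := fun s => by simp [symtau]
  unfold offL offR
  let E : {ρ : ℂ // |ρ.im| ≤ T ∧ ρ.re ≤ 1 / 2 - δ} ≃ {ρ : ℂ // |ρ.im| ≤ T ∧ 1 / 2 + δ ≤ ρ.re} :=
    { toFun := fun ρ => ⟨symtau ρ.1, by rw [him]; exact ρ.2.1, by
        rw [hre]; linarith [ρ.2.2]⟩
      invFun := fun ρ => ⟨symtau ρ.1, by rw [him]; exact ρ.2.1, by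
        rw [hre]; linarith [ρ.2.2]⟩
      left_inv := fun ρ => Subtype.ext (symtau_tau ρ.1)
      right_inv := fun ρ => Subtype.ext (symtau_tau ρ.1) }
  rw [← E.tsum_eq (fun ρ : {ρ : ℂ // |ρ.im| ≤ T ∧ 1 / 2 + δ ≤ ρ.re} =>
    (analyticOrderNatAt Λ ρ.1 : ℝ≥0∞))]
  refine tsum_congr fun ρ => ?_
  show (analyticOrderNatAt Λ ρ.1 : ℝ≥0∞) = (analyticOrderNatAt Λ (symtau ρ.1) : ℝ≥0∞)
  rw [hord]

theorem off_le_pr (Λ : ℂ → ℂ) (T δ : ℝ) : offLine Λ T δ ≤ offR Λ T δ + offL Λ T δ := by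
  unfold offLine offR offL
  have h1 : {ρ : ℂ | |ρ.im| ≤ T ∧ δ ≤ |ρ.re - 1 / 2|} ⊆
      {ρ : ℂ | |ρ.im| ≤ T ∧ 1 / 2 + δ ≤ ρ.re} ∪ {ρ : ℂ | |ρ.im| ≤ T ∧ ρ.re ≤ 1 / 2 - δ} := by
    rintro ρ ⟨h, h'⟩
    rcases le_abs.1 h' with h2 | h2
    · exact Or.inl ⟨h, by linarith⟩
    · exact Or.inr ⟨h, by linarith⟩
  exact (ENNReal.tsum_mono_subtype (fun ρ : ℂ => (analyticOrderNatAt Λ ρ : ℝ≥0∞)) h1).trans
    (ENNReal.tsum_union_le (fun ρ : ℂ => (analyticOrderNatAt Λ ρ : ℝ≥0∞)) _ _)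

theorem off_sym : type_of% @off_sym_pr := @off_sym_pr

theorem off_le : type_of% @off_le_pr := @off_le_pr

end Pool.Agent.NL
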