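import Pool.Agent.Lib_helper41.NL.Defs
import Pool.Agent.Lib_helper92.KSA.FinA
import Pool.Agent.Lib_helper41.NLF.RIGHT
import Pool.Agent.Lib_helper41.NLF.SYM

/-!
# Zeros near the critical line: the final theorem
-/

namespace Pool.Agent.NL

open NumberField NumberField.InfinitePlace NumberField.Units Complex MeasureTheory Filter Topology
open Pool.Agent.HZ Pool.Agent.AS Pool.Agent.KS
open scoped ENNReal

theorem FIN_mono (Λ : ℂ → ℂ) {T T' δ : ℝ} (h : T ≤ T') : offLine Λ T δ ≤ offLine Λ T' δ := by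
  unfold offLine
  exact ENNReal.tsum_mono_subtype (fun ρ : ℂ => (analyticOrderNatAt Λ ρ : ℝ≥0∞))
    (s := {ρ : ℂ | |ρ.im| ≤ T ∧ δ ≤ |ρ.re - 1 / 2|})
    (t := {ρ : ℂ | |ρ.im| ≤ T' ∧ δ ≤ |ρ.re - 1 / 2|}) (fun ρ hρ => ⟨hρ.1.trans h, hρ.2⟩)

theorem FIN_min {ι : Type} (S : Finset ι) (f : ι → ℝ) (hf : ∀ i ∈ S, 0 < f i) :
    ∃ c : ℝ, 0 < c ∧ ∀ i ∈ S, c ≤ f i := by
  classical
  induction S using Finset.induction_on with
  | empty => exact ⟨1, one_pos, by simp⟩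
  | insert a s ha ih =>
    obtain ⟨c, hc, h⟩ := ih (fun i hi => hf i (Finset.mem_insert_of_mem hi))
    refine ⟨min c (f a), lt_min hc (hf a (Finset.mem_insert_self _ _)), fun i hi => ?_⟩
    rcases Finset.mem_insert.1 hi with rfl | hi
    · exact min_le_right _ _
    · exact (min_le_left _ _).trans (h i hi)

theorem near_line_pr (K : Type) [Field K] [NumberField K] (T B : ℝ) : ∃ C c : ℝ, 0 < C ∧ 0 < c ∧
    ∀ 𝔮 : Ideal (𝓞 K), 2 ≤ Ideal.absNorm 𝔮 → ∀ A : ℝ, 0 ≤ A → A ≤ Real.log (Ideal.absNorm 𝔮) →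
    ∀ (E : Finset (MulChar (𝓞 K ⧸ 𝔮) ℂ))
      (κ : MulChar (𝓞 K ⧸ 𝔮) ℂ → InfinitePlace K → ℤ)
      (lam : MulChar (𝓞 K ⧸ 𝔮) ℂ → InfinitePlace K → ℝ)
      (ψ : MulChar (𝓞 K ⧸ 𝔮) ℂ → (Ideal (𝓞 K) →* ℂ)),
      (∀ χ ∈ E, IsPrim 𝔮 χ ∧ (∀ w : InfinitePlace K, w.IsReal → κ χ w = 0 ∨ κ χ w = 1) ∧
        (∀ w, |(κ χ w : ℝ)| ≤ B ∧ |lam χ w| ≤ B) ∧ ∑ w, lam χ w = 0 ∧
        IsHecke 𝔮 (κ χ) (lam χ) χ (ψ χ)) →
      ∃ Λ : MulChar (𝓞 K ⧸ 𝔮) ℂ → ℂ → ℂ,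
        (∀ χ ∈ E, IsCompleted (κ χ) (lam χ) (ψ χ) (Λ χ)) ∧
        ∑ χ ∈ E, offLine (Λ χ) T (A / Real.log (Ideal.absNorm 𝔮)) ≤
          ENNReal.ofReal (C * Nat.card (𝓞 K ⧸ 𝔮)ˣ * Real.log (Ideal.absNorm 𝔮) *
            Real.exp (-(c * A))) := by
  classical
  obtain ⟨C₀, hC₀, hm⟩ := mellin_kint (K := K)
  choose Cf cf hCf hcf hR using
    (fun κ : InfinitePlace K → ℤ => right_sum κ (max T 0) B (le_max_right _ _))
  let S : Finset (InfinitePlace K → ℤ) :=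
    Fintype.piFinset (fun _ : InfinitePlace K => Finset.Icc (-⌈|B|⌉) ⌈|B|⌉)
  obtain ⟨c, hc, hcS⟩ := FIN_min S cf (fun κ _ => hcf κ)
  have hsum0 : 0 ≤ ∑ κ ∈ S, Cf κ := Finset.sum_nonneg fun κ _ => (hCf κ).le
  refine ⟨2 * (∑ κ ∈ S, Cf κ) + 1, c, by positivity, hc, ?_⟩
  intro 𝔮 hN A hA hA' E κ lam ψ hE
  have h𝔮 : 𝔮 ≠ ⊥ := by
    rintro rfl
    rw [Ideal.absNorm_bot] at hN
    omega
  have h𝔮' : 𝔮 ≠ ⊤ := by
    rintro rfl
    rw [Ideal.absNorm_top] at hN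
    omega
  have hX : ∀ χ ∈ E, ∃ Λ : ℂ → ℂ, IsCompleted (κ χ) (lam χ) (ψ χ) Λ := by
    intro χ hχ
    obtain ⟨hp, hκ, hB, hl, hψ⟩ := hE χ hχ
    obtain ⟨X, hX, -, -⟩ := exists_ldata hC₀ hm hκ hl h𝔮 h𝔮' hp hψ
    exact ⟨X.Λ, hX⟩
  choose! Λ hΛ using hX
  refine ⟨Λ, hΛ, ?_⟩
  set δ : ℝ := A / Real.log (Ideal.absNorm 𝔮) with hδ
  have hlog : 0 < Real.log (Ideal.absNorm 𝔮) := Real.log_pos (by exact_mod_cast hN)
  set Φ : ℝ := (Nat.card (𝓞 K ⧸ 𝔮)ˣ : ℝ) with hΦ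
  have hΦ0 : 0 ≤ Φ := by positivity
  have h1 : ∀ χ ∈ E, offLine (Λ χ) T δ ≤ 2 * offR (Λ χ) (max T 0) δ := by
    intro χ hχ
    obtain ⟨hp, hκ, hB, hl, hψ⟩ := hE χ hχ
    refine (FIN_mono (Λ χ) (le_max_left T 0)).trans ((off_le (Λ χ) (max T 0) δ).trans ?_)
    rw [off_sym hκ hl h𝔮 h𝔮' hp hψ (hΛ χ hχ), two_mul]
  have h2 : ∑ χ ∈ E, offR (Λ χ) (max T 0) δ ≤ ENNReal.ofReal ((∑ κ₀ ∈ S, Cf κ₀) * Φ *
      Real.log (Ideal.absNorm 𝔮) * Real.exp (-(c * A))) := by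
    have hmap : ∀ χ ∈ E, κ χ ∈ S := by
      intro χ hχ
      obtain ⟨hp, hκ, hB, hl, hψ⟩ := hE χ hχ
      simp only [S, Fintype.mem_piFinset, Finset.mem_Icc]
      intro w
      have h3 := abs_le.1 ((hB w).1.trans (le_abs_self B))
      have h4 := Int.le_ceil (|B|)
      constructor
      · have : (-(⌈|B|⌉ : ℤ) : ℝ) ≤ (κ χ w : ℝ) := by linarith
        exact_mod_cast this
      · have : (κ χ w : ℝ) ≤ ((⌈|B|⌉ : ℤ) : ℝ) := by linarith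
        exact_mod_cast this
    rw [← Finset.sum_fiberwise_of_maps_to hmap]
    have h5 : ∀ κ₀ ∈ S, ∑ χ ∈ E with κ χ = κ₀, offR (Λ χ) (max T 0) δ ≤
        ENNReal.ofReal (Cf κ₀ * Φ * Real.log (Ideal.absNorm 𝔮) * Real.exp (-(c * A))) := by
      intro κ₀ hκ₀
      rcases (E.filter (fun χ => κ χ = κ₀)).eq_empty_or_nonempty with he | ⟨χ₁, hχ₁⟩
      · rw [he, Finset.sum_empty]
        exact zero_le
      · have hχ₁' := Finset.mem_filter.1 hχ₁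
        have hfam : Fam 𝔮 κ₀ (E.filter (fun χ => κ χ = κ₀)) lam ψ := by
          refine ⟨h𝔮, h𝔮', ?_, ?_, ?_, ?_⟩
          · intro w hw
            rw [← hχ₁'.2]
            exact (hE χ₁ hχ₁'.1).2.1 w hw
          · intro χ hχ
            exact (hE χ (Finset.mem_filter.1 hχ).1).1
          · intro χ hχ
            exact (hE χ (Finset.mem_filter.1 hχ).1).2.2.2.1
          · intro χ hχ
            have h6 := Finset.mem_filter.1 hχ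
            rw [← h6.2]
            exact (hE χ h6.1).2.2.2.2
        refine (hR κ₀ 𝔮 (E.filter (fun χ => κ χ = κ₀)) lam ψ hfam
          (fun χ hχ w => ((hE χ (Finset.mem_filter.1 hχ).1).2.2.1 w).2) Λ
          (fun χ hχ => by
            have h6 := Finset.mem_filter.1 hχ
            rw [← h6.2]
            exact hΛ χ h6.1) A hA hA').trans ?_
        refine ENNReal.ofReal_le_ofReal ?_
        have h7 : Real.exp (-(cf κ₀ * A)) ≤ Real.exp (-(c * A)) := by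
          apply Real.exp_le_exp.2
          have := mul_le_mul_of_nonneg_right (hcS κ₀ hκ₀) hA
          linarith
        have h8 : 0 ≤ Cf κ₀ * Φ * Real.log (Ideal.absNorm 𝔮) :=
          mul_nonneg (mul_nonneg (hCf κ₀).le hΦ0) hlog.le
        exact mul_le_mul_of_nonneg_left h7 h8
    refine (Finset.sum_le_sum h5).trans (le_of_eq ?_)
    rw [← ENNReal.ofReal_sum_of_nonneg]
    · congr 1
      rw [Finset.sum_mul, Finset.sum_mul, Finset.sum_mul]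
    · intro κ₀ _
      have := (hCf κ₀).le
      positivity
  calc ∑ χ ∈ E, offLine (Λ χ) T δ ≤ ∑ χ ∈ E, 2 * offR (Λ χ) (max T 0) δ := Finset.sum_le_sum h1
    _ = 2 * ∑ χ ∈ E, offR (Λ χ) (max T 0) δ := by rw [Finset.mul_sum]
    _ ≤ 2 * ENNReal.ofReal ((∑ κ₀ ∈ S, Cf κ₀) * Φ *
      Real.log (Ideal.absNorm 𝔮) * Real.exp (-(c * A))) := by gcongr
    _ = ENNReal.ofReal (2 * ((∑ κ₀ ∈ S, Cf κ₀) * Φ *
      Real.log (Ideal.absNorm 𝔮) * Real.exp (-(c * A)))) := by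
        rw [ENNReal.ofReal_mul (by norm_num : (0:ℝ) ≤ 2)]
        norm_num
    _ ≤ ENNReal.ofReal ((2 * (∑ κ ∈ S, Cf κ) + 1) * Φ * Real.log (Ideal.absNorm 𝔮) *
            Real.exp (-(c * A))) := by
        refine ENNReal.ofReal_le_ofReal ?_
        have h9 : 0 ≤ Φ * Real.log (Ideal.absNorm 𝔮) * Real.exp (-(c * A)) := by positivity
        nlinarith

theorem near_line : type_of% @near_line_pr := @near_line_pr

end Pool.Agent.NL
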