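import Pool.Agent.Lib_helper41.NLF.JEN

/-!
# NL, block GEO: one disc tangent to the line
-/

namespace Pool.Agent.NL

open Complex MeasureTheory Filter Topology Metric

theorem geo_dist {η t₀ : ℝ} (hη : 0 < η) (hη1 : η ≤ 1 / 2) {ρ : ℂ}
    (h1 : 1 / 2 + 2 * η ≤ ρ.re) (h2 : ρ.re ≤ 1) (h3 : |ρ.im - t₀| ≤ √(η / 2)) :
    0 < ‖ρ - (3 / 2 + η + t₀ * I)‖ ∧ ‖ρ - (3 / 2 + η + t₀ * I)‖ ^ 2 ≤ 1 - η := by
  have hre : (ρ - (3 / 2 + η + t₀ * I)).re = ρ.re - (3 / 2 + η) := by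
    simp
  have him : (ρ - (3 / 2 + η + t₀ * I)).im = ρ.im - t₀ := by
    simp
  have hsq : ‖ρ - (3 / 2 + η + t₀ * I)‖ ^ 2 = (ρ.re - (3 / 2 + η)) ^ 2 + (ρ.im - t₀) ^ 2 := by
    rw [← Complex.normSq_eq_norm_sq, Complex.normSq_apply, hre, him]
    ring
  have h4 : (ρ.im - t₀) ^ 2 ≤ η / 2 := by
    rw [← sq_abs]
    calc |ρ.im - t₀| ^ 2 ≤ √(η / 2) ^ 2 := pow_le_pow_left₀ (abs_nonneg _) h3 2
      _ = η / 2 := Real.sq_sqrt (by positivity)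
  constructor
  · apply norm_pos_iff.2
    intro h
    have h5 := congrArg Complex.re h
    rw [hre] at h5
    simp at h5
    linarith
  · rw [hsq]
    nlinarith

theorem geo_log {x η : ℝ} (hx : 0 < x) (h : x ^ 2 ≤ 1 - η) : η / 2 ≤ Real.log (1 / x) := by
  have h1 : Real.log (x ^ 2) ≤ x ^ 2 - 1 := Real.log_le_sub_one_of_pos (by positivity)
  rw [Real.log_pow] at h1
  push_cast at h1
  rw [one_div, Real.log_inv]
  linarith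

/-- GEO -/
theorem disc_count_pr {G : ℂ → ℂ} {η t₀ : ℝ} (hη : 0 < η) (hη1 : η ≤ 1 / 2)
    (hG : AnalyticOnNhd ℂ G {s : ℂ | 1 / 2 < s.re})
    (h0 : ‖G (3 / 2 + η + t₀ * I) - 1‖ ≤ 1 / 2) (Z : Finset ℂ) (n : ℂ → ℕ)
    (hZ : ∀ ρ ∈ Z, 1 / 2 + 2 * η ≤ ρ.re ∧ ρ.re ≤ 1 ∧ |ρ.im - t₀| ≤ √(η / 2) ∧
      (n ρ : ℕ∞) ≤ analyticOrderAt G ρ) :
    (∑ ρ ∈ Z, (n ρ : ℝ)) * (η / 2) ≤
      1 / 2 * Real.circleAverage (fun z => ‖G z - 1‖ ^ 2) (3 / 2 + η + t₀ * I) 1 +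
        ‖G (3 / 2 + η + t₀ * I) - 1‖ ^ 2 := by
  have hsub : closedBall (3 / 2 + η + t₀ * I : ℂ) 1 ⊆ {s : ℂ | 1 / 2 < s.re} := by
    intro z hz
    rw [mem_closedBall, dist_eq_norm] at hz
    have h1 := (Complex.abs_re_le_norm (z - (3 / 2 + η + t₀ * I))).trans hz
    have h2 : (z - (3 / 2 + η + t₀ * I)).re = z.re - (3 / 2 + η) := by
      simp
    rw [h2, abs_le] at h1
    change 1 / 2 < z.re
    linarith [h1.1]
  have hJ := jensen_sq_pr (c := 3 / 2 + η + t₀ * I) one_pos (hG.mono hsub) h0 Z n (by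
    intro ρ hρ
    obtain ⟨h1, h2, h3, h4⟩ := hZ ρ hρ
    obtain ⟨h5, h6⟩ := geo_dist hη hη1 h1 h2 h3
    refine ⟨?_, h4⟩
    nlinarith)
  refine le_trans ?_ hJ
  rw [Finset.sum_mul]
  apply Finset.sum_le_sum
  intro ρ hρ
  obtain ⟨h1, h2, h3, h4⟩ := hZ ρ hρ
  obtain ⟨h5, h6⟩ := geo_dist hη hη1 h1 h2 h3
  exact mul_le_mul_of_nonneg_left (geo_log h5 h6) (Nat.cast_nonneg _)

theorem disc_count : type_of% @disc_count_pr := @disc_count_pr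

end Pool.Agent.NL
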