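import Mathlib

/-!
# NL, block JEN: Jensen's inequality with a mean square (only Mathlib)
-/

namespace Pool.Agent.NL

open Complex MeasureTheory Filter Topology Metric MeromorphicOn

theorem jen_log_le {w : ℂ} (h : 1 + w ≠ 0) : Real.log ‖1 + w‖ ≤ w.re + ‖w‖ ^ 2 / 2 := by
  have h0 : 0 < ‖1 + w‖ := norm_pos_iff.2 h
  have h1 : ‖1 + w‖ ^ 2 = 1 + 2 * w.re + ‖w‖ ^ 2 := by
    rw [← Complex.normSq_eq_norm_sq, ← Complex.normSq_eq_norm_sq, Complex.normSq_add]
    simp
    ring
  have h2 : Real.log (‖1 + w‖ ^ 2) ≤ ‖1 + w‖ ^ 2 - 1 :=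
    Real.log_le_sub_one_of_pos (by positivity)
  rw [Real.log_pow, h1] at h2
  push_cast at h2
  linarith

theorem jen_neg_log_le {w : ℂ} (h : ‖w‖ ≤ 1 / 2) : -Real.log ‖1 + w‖ ≤ -w.re + ‖w‖ ^ 2 := by
  have h1 := Complex.norm_log_one_add_sub_self_le (z := w) (by linarith)
  have h2 : ‖w‖ ^ 2 * (1 - ‖w‖)⁻¹ / 2 ≤ ‖w‖ ^ 2 := by
    have h3 : (1 - ‖w‖)⁻¹ ≤ 2 := by
      rw [inv_le_comm₀ (by linarith) (by norm_num)]
      linarith
    have h4 : 0 ≤ ‖w‖ ^ 2 := by positivity
    nlinarith
  have h5 := (Complex.abs_re_le_norm (Complex.log (1 + w) - w)).trans (h1.trans h2)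
  rw [Complex.sub_re, Complex.log_re, abs_le] at h5
  linarith [h5.1]

/-- Jensen's inequality with a mean square -/
theorem jensen_sq_pr {G : ℂ → ℂ} {c : ℂ} {R : ℝ} (hR : 0 < R)
    (hG : AnalyticOnNhd ℂ G (Metric.closedBall c R)) (h0 : ‖G c - 1‖ ≤ 1 / 2)
    (Z : Finset ℂ) (n : ℂ → ℕ)
    (hZ : ∀ ρ ∈ Z, ‖ρ - c‖ < R ∧ (n ρ : ℕ∞) ≤ analyticOrderAt G ρ) :
    ∑ ρ ∈ Z, n ρ * Real.log (R / ‖ρ - c‖) ≤
      1 / 2 * Real.circleAverage (fun z => ‖G z - 1‖ ^ 2) c R + ‖G c - 1‖ ^ 2 := by
  classical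
  have hc : c ∈ closedBall c R := mem_closedBall_self hR.le
  have hGc : G c ≠ 0 := by
    intro h
    rw [h, zero_sub, norm_neg, norm_one] at h0
    norm_num at h0
  have habs : |R| = R := abs_of_pos hR
  have hG' : AnalyticOnNhd ℂ G (closedBall c |R|) := by rwa [habs]
  have hconn : IsConnected (closedBall c R) :=
    ⟨⟨c, hc⟩, (convex_closedBall c R).isPreconnected⟩
  -- Jensen's formula
  have hJ := AnalyticOnNhd.circleAverage_log_norm hR.ne' hG' hGc
  -- the order is finite
  have hord : ∀ ρ ∈ closedBall c R, analyticOrderAt G ρ ≠ ⊤ := by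
    intro ρ hρ
    apply hG.analyticOrderAt_ne_top_of_isPreconnected hconn.isPreconnected hc hρ
    rw [(hG c hc).analyticOrderAt_eq_zero.2 hGc]
    exact ENat.zero_ne_top
  have hdiv : ∀ ρ ∈ closedBall c R, divisor G (closedBall c |R|) ρ =
      ((analyticOrderNatAt G ρ : ℕ) : ℤ) := by
    intro ρ hρ
    rw [hG'.divisor_apply (by rwa [habs])]
    obtain ⟨k, hk⟩ := ENat.ne_top_iff_exists.1 (hord ρ hρ)
    rw [← hk]
    unfold analyticOrderNatAt
    rw [← hk]
    rfl
  have hnle : ∀ ρ ∈ Z, (n ρ : ℝ) ≤ (divisor G (closedBall c |R|) ρ : ℝ) := by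
    intro ρ hρ
    obtain ⟨h1, h2⟩ := hZ ρ hρ
    have h3 : ρ ∈ closedBall c R := by
      rw [mem_closedBall, dist_eq_norm]; exact h1.le
    rw [hdiv ρ h3]
    have h4 : n ρ ≤ analyticOrderNatAt G ρ := by
      obtain ⟨k, hk⟩ := ENat.ne_top_iff_exists.1 (hord ρ h3)
      unfold analyticOrderNatAt
      rw [← hk] at h2 ⊢
      have h5 : n ρ ≤ k := by exact_mod_cast h2
      simpa using h5
    exact_mod_cast h4
  have hfin : (divisor G (closedBall c |R|)).support.Finite :=
    (divisor G (closedBall c |R|)).finiteSupport (isCompact_closedBall c |R|)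
  have hnn : ∀ u, 0 ≤ (divisor G (closedBall c |R|) u : ℝ) * Real.log (R * ‖c - u‖⁻¹) := by
    intro u
    by_cases hu : u ∈ closedBall c R
    · have h1 : (0 : ℝ) ≤ (divisor G (closedBall c |R|) u : ℝ) := by
        rw [hdiv u hu]
        positivity
      by_cases huc : u = c
      · subst huc
        simp
      · have h2 : 0 < ‖c - u‖ := norm_pos_iff.2 (sub_ne_zero.2 (Ne.symm huc))
        have h3 : 1 ≤ R * ‖c - u‖⁻¹ := by
          rw [← div_eq_mul_inv, one_le_div h2]
          rw [mem_closedBall, dist_comm, dist_eq_norm] at hu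
          exact hu
        exact mul_nonneg h1 (Real.log_nonneg h3)
    · have : divisor G (closedBall c |R|) u = 0 := by
        apply Function.locallyFinsuppWithin.apply_eq_zero_of_notMem
        rwa [habs]
      rw [this]
      simp
  have hsum : ∑ ρ ∈ Z, (n ρ : ℝ) * Real.log (R / ‖ρ - c‖) ≤
      ∑ᶠ u, (divisor G (closedBall c |R|) u : ℝ) * Real.log (R * ‖c - u‖⁻¹) := by
    rw [finsum_eq_sum_of_support_subset (s := hfin.toFinset ∪ Z)]
    · refine le_trans ?_ (Finset.sum_le_sum_of_subset_of_nonneg Finset.subset_union_right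
        fun u _ _ => hnn u)
      apply Finset.sum_le_sum
      intro ρ hρ
      rw [norm_sub_rev ρ c, div_eq_mul_inv]
      apply mul_le_mul_of_nonneg_right (hnle ρ hρ)
      by_cases huc : ρ = c
      · subst huc
        simp
      · have h2 : 0 < ‖c - ρ‖ := norm_pos_iff.2 (sub_ne_zero.2 (Ne.symm huc))
        apply Real.log_nonneg
        rw [← div_eq_mul_inv, one_le_div h2, norm_sub_rev]
        exact (hZ ρ hρ).1.le
    · intro u hu
      rw [Finset.coe_union]
      left
      rw [Set.Finite.coe_toFinset]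
      intro h
      apply hu
      simp only
      rw [h]
      simp
  -- the integral on the circle
  have hGs : AnalyticOnNhd ℂ G (sphere c |R|) := by
    rw [habs]; exact hG.mono sphere_subset_closedBall
  have hGcont : ContinuousOn G (sphere c |R|) := hGs.continuousOn
  set g : ℂ → ℝ := fun z => (G z - 1).re + 1 / 2 * ‖G z - 1‖ ^ 2 with hg
  have i1 : CircleIntegrable (fun z => (G z - 1).re) c R := by
    apply ContinuousOn.circleIntegrable'
    exact Complex.continuous_re.comp_continuousOn (hGcont.sub continuousOn_const)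
  have i2 : CircleIntegrable (fun z => 1 / 2 * ‖G z - 1‖ ^ 2) c R := by
    apply ContinuousOn.circleIntegrable'
    exact continuousOn_const.mul ((hGcont.sub continuousOn_const).norm.pow 2)
  have i3 : CircleIntegrable g c R := i1.add i2
  have hzero : G ⁻¹' {0}ᶜ ∈ codiscreteWithin (closedBall c R) :=
    hG.preimage_zero_mem_codiscreteWithin hGc hc hconn
  have hzero' : G ⁻¹' {0}ᶜ ∈ codiscreteWithin (sphere c |R|) := by
    rw [habs]
    exact codiscreteWithin_mono sphere_subset_closedBall hzero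
  set f2 : ℂ → ℝ := fun z => if G z = 0 then -1 / 2 else Real.log ‖G z‖ with hf2
  have hcongr : (fun z => Real.log ‖G z‖) =ᶠ[codiscreteWithin (sphere c |R|)] f2 := by
    filter_upwards [hzero'] with z hz
    have hz' : G z ≠ 0 := hz
    simp only [hf2, if_neg hz']
  have i4 : CircleIntegrable (fun z => Real.log ‖G z‖) c R :=
    hGs.meromorphicOn.circleIntegrable_log_norm
  have i5 : CircleIntegrable f2 c R := i4.congr_codiscreteWithin hcongr
  have hle : Real.circleAverage (fun z => Real.log ‖G z‖) c R ≤ Real.circleAverage g c R := by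
    rw [Real.circleAverage_congr_codiscreteWithin hcongr hR.ne']
    apply Real.circleAverage_mono i5 i3
    intro z _
    simp only [hf2, hg]
    split_ifs with hz
    · rw [hz]
      simp
      norm_num
    · have h1 := jen_log_le (w := G z - 1) (by rwa [add_sub_cancel])
      rw [add_sub_cancel] at h1
      linarith
  have havg : Real.circleAverage g c R =
      (G c - 1).re + 1 / 2 * Real.circleAverage (fun z => ‖G z - 1‖ ^ 2) c R := by
    rw [hg, Real.circleAverage_fun_add i1 i2]
    congr 1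
    · apply InnerProductSpace.HarmonicOnNhd.circleAverage_eq
      intro z hz
      have : AnalyticAt ℂ (fun z => G z - 1) z := (hG' z hz).sub analyticAt_const
      exact this.harmonicAt_re
    · have := Real.circleAverage_smul (a := (1 / 2 : ℝ)) (f := fun z => ‖G z - 1‖ ^ 2) (c := c)
        (R := R)
      simpa [smul_eq_mul, Pi.smul_def] using this
  have hlast := jen_neg_log_le (w := G c - 1) h0
  rw [add_sub_cancel] at hlast
  rw [hJ] at hle
  linarith

theorem jensen_sq : type_of% @jensen_sq_pr := @jensen_sq_pr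

end Pool.Agent.NL
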